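import Mathlib.RingTheory.RingHom.Flat
import Mathlib.Algebra.GroupWithZero.Submonoid.CancelMulZero
import Mathlib.RingTheory.RingHom.Smooth
import Mathlib.RingTheory.SimpleRing.Principal
import Mathlib.RingTheory.Henselian
import Mathlib.RingTheory.RegularLocalRing.Defs
import Mathlib.Order.CompletePartialOrder
import Mathlib.RingTheory.Regular.RegularSequence

-- ======== part 0: formerly Pool.Agent.MP_19ffc6_ag.WildSub
section MrgPart0

/-! Points of blow-ups, seen as local subalgebras of an ambient field. -/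

namespace Pool.Agent.MP_19ffc6_ag.Wild

open TensorProduct

variable {k L : Type} [Field k] [Field L] [Algebra k L]

/-- `x` is a unit of `O`. -/
def Un (O : Subalgebra k L) (x : L) : Prop := x ∈ O ∧ x ≠ 0 ∧ x⁻¹ ∈ O

lemma Un.one (O : Subalgebra k L) : Un O 1 := ⟨one_mem _, one_ne_zero, by simpa using one_mem O⟩

lemma Un.mul {O : Subalgebra k L} {x y : L} (hx : Un O x) (hy : Un O y) : Un O (x * y) :=
  ⟨mul_mem hx.1 hy.1, mul_ne_zero hx.2.1 hy.2.1, by
    rw [mul_inv]; exact mul_mem hx.2.2 hy.2.2⟩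

lemma Un.inv {O : Subalgebra k L} {x : L} (hx : Un O x) : Un O x⁻¹ :=
  ⟨hx.2.2, inv_ne_zero hx.2.1, by simpa using hx.1⟩

lemma Un.pow {O : Subalgebra k L} {x : L} (hx : Un O x) (n : ℕ) : Un O (x ^ n) := by
  induction n with
  | zero => simpa using Un.one O
  | succ n ih => rw [pow_succ]; exact ih.mul hx

lemma Un.mono {O O' : Subalgebra k L} (h : O ≤ O') {x : L} (hx : Un O x) : Un O' x :=
  ⟨h hx.1, hx.2.1, h hx.2.2⟩

lemma Un.of_mul {O : Subalgebra k L} {x y : L} (hx : x ∈ O) (hy : y ∈ O) (h : Un O (x * y)) :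
    Un O x := by
  have hx0 : x ≠ 0 := left_ne_zero_of_mul h.2.1
  have hy0 : y ≠ 0 := right_ne_zero_of_mul h.2.1
  refine ⟨hx, hx0, ?_⟩
  have : x⁻¹ = y * (x * y)⁻¹ := by field_simp
  rw [this]; exact mul_mem hy h.2.2

lemma isUnit_iff_un {O : Subalgebra k L} (x : O) : IsUnit x ↔ Un O x := by
  constructor
  · rintro ⟨u, rfl⟩
    have h : ((u : O) : L) * ((u⁻¹ : Oˣ) : O) = 1 := by
      rw [← Subalgebra.coe_mul, u.mul_inv]; rfl
    refine ⟨(u : O).2, left_ne_zero_of_mul_eq_one h, ?_⟩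
    rw [← eq_inv_of_mul_eq_one_right h]; exact ((u⁻¹ : Oˣ) : O).2
  · rintro ⟨-, h0, h⟩
    exact IsUnit.of_mul_eq_one ⟨_, h⟩ (Subtype.ext (mul_inv_cancel₀ h0))

/-- Fractions `a / b` with `a b ∈ D` and `b` a unit of `O`. -/
def loc (D O : Subalgebra k L) : Subalgebra k L where
  carrier := {x | ∃ a ∈ D, ∃ b ∈ D, Un O b ∧ x = a / b}
  mul_mem' := by
    rintro _ _ ⟨a, ha, b, hb, hu, rfl⟩ ⟨a', ha', b', hb', hu', rfl⟩
    exact ⟨a * a', mul_mem ha ha', b * b', mul_mem hb hb', hu.mul hu', div_mul_div_comm _ _ _ _⟩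
  add_mem' := by
    rintro _ _ ⟨a, ha, b, hb, hu, rfl⟩ ⟨a', ha', b', hb', hu', rfl⟩
    exact ⟨a * b' + b * a', add_mem (mul_mem ha hb') (mul_mem hb ha'), b * b', mul_mem hb hb',
      hu.mul hu', div_add_div _ _ hu.2.1 hu'.2.1⟩
  algebraMap_mem' r := ⟨_, D.algebraMap_mem r, 1, one_mem _, Un.one _, by simp⟩

lemma mem_loc {D O : Subalgebra k L} {x : L} :
    x ∈ loc D O ↔ ∃ a ∈ D, ∃ b ∈ D, Un O b ∧ x = a / b := Iff.rfl

lemma le_loc (D O : Subalgebra k L) : D ≤ loc D O :=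
  fun x hx => ⟨x, hx, 1, one_mem _, Un.one _, by simp⟩

lemma loc_le {D O : Subalgebra k L} (h : D ≤ O) : loc D O ≤ O := by
  rintro _ ⟨a, ha, b, -, hu, rfl⟩
  rw [div_eq_mul_inv]; exact mul_mem (h ha) hu.2.2

lemma un_loc {D O : Subalgebra k L} {b : L} (hb : b ∈ D) (hu : Un O b) : Un (loc D O) b :=
  ⟨le_loc _ _ hb, hu.2.1, 1, one_mem _, b, hb, hu, by simp⟩

lemma loc_le_loc {D D' O : Subalgebra k L} (h : D ≤ loc D' O) (h' : D' ≤ O) :
    loc D O ≤ loc D' O := by
  rintro _ ⟨a, ha, b, hb, hu, rfl⟩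
  obtain ⟨c, hc, d, hd, hu', rfl⟩ := h hb
  have hc' : Un O c := by
    have := hu.mul hu'
    rwa [div_mul_cancel₀ _ hu'.2.1] at this
  rw [div_div_eq_mul_div, mul_div_assoc]
  exact mul_mem (h ha) ⟨d, hd, c, hc, hc', rfl⟩

/-- `O` is a local subalgebra. -/
def Lcl (O : Subalgebra k L) : Prop := ∀ x ∈ O, ∀ y ∈ O, Un O (x + y) → Un O x ∨ Un O y

lemma Lcl.isLocalRing {O : Subalgebra k L} (h : Lcl O) : IsLocalRing O :=
  .of_isUnit_or_isUnit_of_isUnit_add fun x y hxy => by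
    rw [isUnit_iff_un] at hxy ⊢
    rw [isUnit_iff_un]
    exact h _ x.2 _ y.2 hxy

lemma lcl_of_isLocalRing {O : Subalgebra k L} [IsLocalRing O] : Lcl O := by
  intro x hx y hy hxy
  have := IsLocalRing.isUnit_or_isUnit_of_isUnit_add (a := (⟨x, hx⟩ : O)) (b := ⟨y, hy⟩)
    ((isUnit_iff_un _).2 hxy)
  rwa [isUnit_iff_un, isUnit_iff_un] at this

/-- The maximal ideal of a local subalgebra. -/
def mx {O : Subalgebra k L} (h : Lcl O) : Submodule k L where
  carrier := {x | x ∈ O ∧ ¬ Un O x}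
  add_mem' := fun {x y} hx hy => ⟨add_mem hx.1 hy.1, fun hxy =>
    (h _ hx.1 _ hy.1 hxy).elim hx.2 hy.2⟩
  zero_mem' := ⟨zero_mem _, fun h => h.2.1 rfl⟩
  smul_mem' := fun c x hx => ⟨O.smul_mem hx.1 c, fun hu => hx.2 <| by
    rw [Algebra.smul_def, mul_comm] at hu
    exact Un.of_mul hx.1 (O.algebraMap_mem c) hu⟩

lemma mem_mx {O : Subalgebra k L} (h : Lcl O) {x : L} : x ∈ mx h ↔ x ∈ O ∧ ¬ Un O x := Iff.rfl

lemma mul_mem_mx {O : Subalgebra k L} (h : Lcl O) {x y : L} (hx : x ∈ mx h) (hy : y ∈ O) :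
    x * y ∈ mx h := ⟨mul_mem hx.1 hy, fun hu => hx.2 (Un.of_mul hx.1 hy hu)⟩

/-- `O` is the localization of `D` at a prime. -/
structure IsPoint (D O : Subalgebra k L) : Prop where
  le : D ≤ O
  lcl : Lcl O
  le_loc : O ≤ loc D O

lemma isPoint_loc {D O : Subalgebra k L} (h : D ≤ O) (hO : Lcl O) : IsPoint D (loc D O) where
  le := le_loc _ _
  lcl := by
    rintro _ ⟨a, ha, b, hb, hu, rfl⟩ _ ⟨a', ha', b', hb', hu', rfl⟩ hxy
    have h1 : Un O (a * b' + b * a') := by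
      have := ((hxy.mono (loc_le h)).mul hu).mul hu'
      convert this using 1
      have := hu.2.1; have := hu'.2.1
      field_simp
    rcases hO _ (h (mul_mem ha hb')) _ (h (mul_mem hb ha')) h1 with h2 | h2
    · left
      rw [div_eq_mul_inv]
      exact (un_loc ha (Un.of_mul (h ha) (h hb') h2)).mul (un_loc hb hu).inv
    · right
      rw [div_eq_mul_inv]
      rw [mul_comm] at h2
      exact (un_loc ha' (Un.of_mul (h ha') (h hb) h2)).mul (un_loc hb' hu').inv
  le_loc := by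
    rintro _ ⟨a, ha, b, hb, hu, rfl⟩
    exact ⟨a, ha, b, hb, un_loc hb hu, rfl⟩

lemma IsPoint.of_le_loc {D D' O : Subalgebra k L} (h : IsPoint D O) (h1 : D' ≤ O)
    (h2 : D ≤ loc D' O) : IsPoint D' O :=
  ⟨h1, h.lcl, h.le_loc.trans (loc_le_loc h2 h1)⟩

/-- The affine chart `A[M/g]` of the blow-up of `M`. -/
def chart (A : Subalgebra k L) (M : Submodule k L) (g : L) : Subalgebra k L :=
  Algebra.adjoin k ((A : Set L) ∪ {x | ∃ m ∈ M, x = m / g})

lemma le_chart (A : Subalgebra k L) (M : Submodule k L) (g : L) : A ≤ chart A M g :=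
  fun _ hx => Algebra.subset_adjoin (Or.inl hx)

lemma div_mem_chart (A : Subalgebra k L) {M : Submodule k L} (g : L) {m : L} (hm : m ∈ M) :
    m / g ∈ chart A M g := Algebra.subset_adjoin (Or.inr ⟨m, hm, rfl⟩)

lemma chart_le {A D : Subalgebra k L} {M : Submodule k L} {g : L} (h : A ≤ D)
    (h' : ∀ m ∈ M, m / g ∈ D) : chart A M g ≤ D := by
  refine Algebra.adjoin_le ?_
  rintro x (hx | ⟨m, hm, rfl⟩)
  exacts [h hx, h' m hm]

/-- `O` is the local ring at a point of the blow-up of `Spec A` along `M`. -/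
def Pt (A : Subalgebra k L) (M : Submodule k L) (O : Subalgebra k L) : Prop :=
  ∃ g ∈ M, g ≠ 0 ∧ IsPoint (chart A M g) O

lemma exists_un_of_span {O : Subalgebra k L} (hO : Lcl O) {S : Set L} {g : L} (hg0 : g ≠ 0)
    (hS : ∀ x ∈ S, x / g ∈ O) (hg : g ∈ O.toSubmodule * Submodule.span k S) :
    ∃ x ∈ S, Un O (x / g) := by
  by_contra H
  push Not at H
  have : ∀ y ∈ O.toSubmodule * Submodule.span k S, y / g ∈ mx hO := by
    intro y hy
    refine Submodule.mul_induction_on hy (fun o ho z hz => ?_) (fun a b ha hb => ?_)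
    · rw [mul_div_assoc, mul_comm]
      refine mul_mem_mx hO ?_ ho
      induction hz using Submodule.span_induction with
      | mem x hx => exact ⟨hS x hx, H x hx⟩
      | zero => simp
      | add a b _ _ ha hb => rw [add_div]; exact add_mem ha hb
      | smul c a _ ha => rw [smul_div_assoc]; exact Submodule.smul_mem _ _ ha
    · rw [add_div]; exact add_mem ha hb
  have h1 := this g hg
  rw [div_self hg0] at h1
  exact h1.2 (Un.one _)

lemma Pt.of_mul {A O' : Subalgebra k L} {M J : Submodule k L} (h : Pt A (M * J) O') :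
    ∃ O, ∃ h ∈ J, Pt A M O ∧ h ≠ 0 ∧ IsPoint (chart O J h) O' := by
  obtain ⟨g, hg, hg0, hP⟩ := h
  have hmem : ∀ x ∈ M * J, x / g ∈ O' := fun x hx => hP.le (div_mem_chart _ _ hx)
  obtain ⟨_, ⟨m, hm, h, hh, rfl⟩, hu⟩ := exists_un_of_span hP.lcl
    (S := {x | ∃ m ∈ M, ∃ h ∈ J, x = m * h}) hg0
    (by rintro _ ⟨m, hm, h, hh, rfl⟩; exact hmem _ (Submodule.mul_mem_mul hm hh)) (by
      rw [← one_mul g]
      refine Submodule.mul_mem_mul (one_mem O') ?_
      refine Submodule.mul_induction_on hg (fun m hm h hh => ?_) (fun a b ha hb => add_mem ha hb)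
      exact Submodule.subset_span ⟨m, hm, h, hh, rfl⟩)
  have hmh : m * h ≠ 0 := fun e => hu.2.1 (by simp [e])
  have hm0 : m ≠ 0 := left_ne_zero_of_mul hmh
  have hh0 : h ≠ 0 := right_ne_zero_of_mul hmh
  have h1 : chart A M m ≤ O' := by
    refine chart_le ((le_chart _ _ _).trans hP.le) fun m' hm' => ?_
    have : m' / m = (m' * h / g) * (m * h / g)⁻¹ := by field_simp
    rw [this]; exact mul_mem (hmem _ (Submodule.mul_mem_mul hm' hh)) hu.2.2
  have h2 : chart (loc (chart A M m) O') J h ≤ O' := by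
    refine chart_le (loc_le h1) fun h' hh' => ?_
    have : h' / h = (m * h' / g) * (m * h / g)⁻¹ := by field_simp
    rw [this]; exact mul_mem (hmem _ (Submodule.mul_mem_mul hm hh')) hu.2.2
  refine ⟨loc (chart A M m) O', h, hh, ⟨m, hm, hm0, isPoint_loc h1 hP.lcl⟩, hh0,
    hP.of_le_loc h2 ?_⟩
  have h3 : ∀ x ∈ M * J, x / (m * h) ∈ chart (loc (chart A M m) O') J h := by
    intro x hx
    refine Submodule.mul_induction_on hx (fun m' hm' h' hh' => ?_) (fun a b ha hb => ?_)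
    · rw [← div_mul_div_comm]
      exact mul_mem (le_chart _ _ _ (le_loc _ _ (div_mem_chart _ _ hm'))) (div_mem_chart _ _ hh')
    · rw [add_div]; exact add_mem ha hb
  refine chart_le (((le_chart _ _ _).trans (le_loc _ _)).trans
    ((le_chart _ _ _).trans (le_loc _ _))) fun x hx => ?_
  refine ⟨_, h3 x hx, _, h3 g hg, by simpa using hu.inv, ?_⟩
  field_simp

/-- The inclusion `A0 ≤ O` is formally smooth and flat. -/
def SF (A0 O : Subalgebra k L) : Prop :=
  ∃ h : A0 ≤ O, (Subalgebra.inclusion h).toRingHom.FormallySmooth ∧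
    (Subalgebra.inclusion h).toRingHom.Flat

lemma SF.le {A0 O : Subalgebra k L} (h : SF A0 O) : A0 ≤ O := h.1

lemma SF.trans {A0 O O' : Subalgebra k L} (h : SF A0 O) (h' : SF O O') : SF A0 O' := by
  obtain ⟨h, h1, h2⟩ := h
  obtain ⟨h', h1', h2'⟩ := h'
  exact ⟨h.trans h', h1.comp h1', h2.comp h2'⟩

/-- The elements of `D` that are units of `O`. -/
def unMonoid (D O : Subalgebra k L) : Submonoid D where
  carrier := {b | Un O b}
  mul_mem' := fun ha hb => ha.mul hb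
  one_mem' := Un.one _

lemma isLocalization_of_le_loc {D O : Subalgebra k L} (h : D ≤ O) (h' : O ≤ loc D O) :
    letI := (Subalgebra.inclusion h).toRingHom.toAlgebra
    IsLocalization (unMonoid D O) O := by
  letI := (Subalgebra.inclusion h).toRingHom.toAlgebra
  refine ⟨fun y => (isUnit_iff_un _).2 y.2, fun z => ?_, fun {x y} hxy => ⟨1, ?_⟩⟩
  · obtain ⟨a, ha, b, hb, hu, e⟩ := h' z.2
    refine ⟨⟨⟨a, ha⟩, ⟨⟨b, hb⟩, hu⟩⟩, Subtype.ext ?_⟩
    change (z : L) * b = a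
    rw [e, div_mul_cancel₀ _ hu.2.1]
  · have : x = y := Subtype.ext (congrArg Subtype.val hxy :)
    rw [this]

lemma sf_of_le_loc {D O : Subalgebra k L} (h : D ≤ O) (h' : O ≤ loc D O) : SF D O := by
  refine ⟨h, ?_, ?_⟩
  · letI := (Subalgebra.inclusion h).toRingHom.toAlgebra
    haveI := isLocalization_of_le_loc h h'
    exact Algebra.FormallySmooth.of_isLocalization (unMonoid D O)
  · letI := (Subalgebra.inclusion h).toRingHom.toAlgebra
    haveI := isLocalization_of_le_loc h h'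
    exact IsLocalization.flat O (unMonoid D O)

lemma IsPoint.sf {D O : Subalgebra k L} (h : IsPoint D O) : SF D O := sf_of_le_loc h.le h.le_loc

lemma SF.formallySmooth {A0 O : Subalgebra k L} (h : SF A0 O) [Algebra.FormallySmooth k A0] :
    Algebra.FormallySmooth k O := by
  obtain ⟨h, h1, -⟩ := h
  letI := (Subalgebra.inclusion h).toRingHom.toAlgebra
  haveI : IsScalarTower k A0 O := .of_algebraMap_eq fun _ => rfl
  haveI : Algebra.FormallySmooth A0 O := h1
  exact .comp k A0 O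

lemma IsPoint.essFiniteType {D O : Subalgebra k L} (h : IsPoint D O) [Algebra.FiniteType k D] :
    Algebra.EssFiniteType k O := by
  letI := (Subalgebra.inclusion h.le).toRingHom.toAlgebra
  haveI : IsScalarTower k D O := .of_algebraMap_eq fun _ => rfl
  haveI := isLocalization_of_le_loc h.le h.le_loc
  haveI : Algebra.EssFiniteType D O := .of_isLocalization O (unMonoid D O)
  exact .comp k D O

lemma IsPoint.isNoetherianRing {D O : Subalgebra k L} (h : IsPoint D O) [IsNoetherianRing D] :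
    IsNoetherianRing O := by
  letI := (Subalgebra.inclusion h.le).toRingHom.toAlgebra
  haveI := isLocalization_of_le_loc h.le h.le_loc
  exact IsLocalization.isNoetherianRing (unMonoid D O) O inferInstance

lemma SF.baseChange {A0 O A1 : Subalgebra k L} (h : SF A0 O) (h01 : A0 ≤ A1)
    (hd : ∀ x ∈ A1, ∃ d ∈ A0, d ≠ 0 ∧ d * x ∈ A0) : SF A1 (O ⊔ A1) := by
  obtain ⟨h, h1, h2⟩ := h
  letI := (Subalgebra.inclusion h).toRingHom.toAlgebra
  letI := (Subalgebra.inclusion h01).toRingHom.toAlgebra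
  letI := (Subalgebra.inclusion (le_sup_right : A1 ≤ O ⊔ A1)).toRingHom.toAlgebra
  letI := (Subalgebra.inclusion (h.trans (le_sup_left : O ≤ O ⊔ A1))).toRingHom.toAlgebra
  haveI : IsScalarTower A0 A1 ↥(O ⊔ A1) := .of_algebraMap_eq fun _ => rfl
  haveI : Algebra.FormallySmooth A0 O := h1
  haveI : Module.Flat A0 O := h2
  let j : O →ₐ[A0] ↥(O ⊔ A1) :=
    { (Subalgebra.inclusion (le_sup_left : O ≤ O ⊔ A1)).toRingHom with commutes' := fun _ => rfl }
  let μ : A1 ⊗[A0] O →ₐ[A1] ↥(O ⊔ A1) :=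
    Algebra.TensorProduct.lift (Algebra.ofId _ _) j fun _ _ => .all _ _
  have hμ : ∀ (a : A1) (o : O), (μ (a ⊗ₜ o) : L) = a * o := fun a o => rfl
  have hinj : Function.Injective μ := by
    rw [injective_iff_map_eq_zero]
    intro z hz
    have H : ∀ z : A1 ⊗[A0] O, ∃ d : A0, d ≠ 0 ∧ ∃ o : O, d • z = 1 ⊗ₜ o := by
      intro z
      induction z with
      | zero => exact ⟨1, one_ne_zero, 0, by simp⟩
      | tmul a o =>
        obtain ⟨d, hd, hd0, hda⟩ := hd a a.2
        refine ⟨⟨d, hd⟩, fun e => hd0 (congrArg Subtype.val e), (⟨_, hda⟩ : A0) • o, ?_⟩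
        rw [← TensorProduct.smul_tmul, TensorProduct.smul_tmul']
        congr 1
        apply Subtype.ext
        simp only [Algebra.smul_def, mul_one]
        rfl
      | add x y hx hy =>
        obtain ⟨d, hd, o, ho⟩ := hx
        obtain ⟨d', hd', o', ho'⟩ := hy
        refine ⟨d' * d, mul_ne_zero hd' hd, d' • o + d • o', ?_⟩
        rw [smul_add, mul_smul, ho, mul_comm, mul_smul, ho', tmul_add, tmul_smul, tmul_smul]
    obtain ⟨d, hd0, o, ho⟩ := H z
    have ho0 : o = 0 := by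
      have h3 : μ (d • z) = 0 := by
        rw [← IsScalarTower.algebraMap_smul A1, map_smul, hz, smul_zero]
      rw [ho] at h3
      have := hμ 1 o
      rw [h3] at this
      exact Subtype.ext (by simpa using this.symm)
    rw [ho0, tmul_zero] at ho
    have hl : Function.Injective (LinearMap.lsmul A0 A1 d) := by
      intro x y hxy
      simp only [LinearMap.lsmul_apply, Algebra.smul_def] at hxy
      refine mul_left_cancel₀ (fun e => hd0 (Subtype.ext (congrArg Subtype.val e :))) hxy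
    have := Module.Flat.rTensor_preserves_injective_linearMap (M := O) _ hl
    apply this
    rw [map_zero, ← ho]
    have : (LinearMap.lsmul A0 A1 d).rTensor O = LinearMap.lsmul A0 _ d := by
      ext a o; simp [TensorProduct.smul_tmul']
    rw [this]; rfl
  have hsurj : Function.Surjective μ := by
    rintro ⟨x, hx⟩
    let Z : Subalgebra k L :=
      { (μ.toRingHom.range.map (O ⊔ A1).val.toRingHom).toSubsemiring with
        algebraMap_mem' := fun r => ⟨⟨algebraMap k L r, (O ⊔ A1).algebraMap_mem r⟩,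
          ⟨(algebraMap k A1 r) ⊗ₜ 1, Subtype.ext (by simp [hμ])⟩, rfl⟩ }
    have : O ⊔ A1 ≤ Z := by
      refine sup_le (fun o ho => ?_) (fun a ha => ?_)
      · exact ⟨μ (1 ⊗ₜ ⟨o, ho⟩), ⟨_, rfl⟩, by simp [hμ]⟩
      · exact ⟨μ (⟨a, ha⟩ ⊗ₜ 1), ⟨_, rfl⟩, by simp [hμ]⟩
    obtain ⟨y, ⟨z, rfl⟩, e⟩ := this hx
    exact ⟨z, Subtype.ext e⟩
  let e := AlgEquiv.ofBijective μ ⟨hinj, hsurj⟩
  exact ⟨le_sup_right, Algebra.FormallySmooth.of_equiv e,
    Module.Flat.of_linearEquiv e.symm.toLinearEquiv⟩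

end Pool.Agent.MP_19ffc6_ag.Wild

end MrgPart0

-- ======== part 1: formerly Pool.Agent.MP_19ffc6_ag.Lci.Defs
section MrgPart1

/-! Definitions for the construction of locally complete intersection models. All rings are
subalgebras of one ambient field. -/

namespace Pool.Agent.MP_19ffc6_ag.Lci

open Pool.Agent.MP_19ffc6_ag.Wild Polynomial

/-- `R` is a quotient of a polynomial ring over `k` by a weakly regular sequence. -/
def GCI (k R : Type) [Field k] [CommRing R] [Algebra k R] : Prop :=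
  ∃ (n : ℕ) (r : List (MvPolynomial (Fin n) k)) (φ : MvPolynomial (Fin n) k →ₐ[k] R),
    RingTheory.Sequence.IsWeaklyRegular (MvPolynomial (Fin n) k) r ∧ Function.Surjective φ ∧
      RingHom.ker φ = Ideal.ofList r

variable {k L : Type} [Field k] [Field L] [Algebra k L]

/-- `O` is a local ring of a global complete intersection. -/
def LCI (O : Subalgebra k L) : Prop := ∃ D : Subalgebra k L, GCI k D ∧ IsPoint D O

/-- The algebra `O[x]`. -/
def adj (O : Subalgebra k L) (x : L) : Subalgebra k L := O ⊔ Algebra.adjoin k {x}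

/-- `O'` dominates `O`. -/
def Dom (O O' : Subalgebra k L) : Prop := O ≤ O' ∧ ∀ x ∈ O, Un O' x → Un O x

/-- `t` is a nonzero divisor of `O` modulo the ideal generated by `S`. -/
def NZD (O : Subalgebra k L) (S : Set L) (t : L) : Prop :=
  ∀ z ∈ O, t * z ∈ Submodule.span O S → z ∈ Submodule.span O S

/-- All relations of `x` over `O` have their coefficients in the ideal generated by `S`. -/
def KP (O : Subalgebra k L) (x : L) (S : Set L) : Prop :=
  ∀ P : L[X], (∀ n, P.coeff n ∈ O) → P.eval x = 0 → ∀ n, P.coeff n ∈ Submodule.span O S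

/-- Regular crossings: the family `u` is a regular sequence in every order. -/
def RC {ι : Type} (O : Subalgebra k L) (u : ι → L) : Prop :=
  (∀ ρ, u ρ ∈ O ∧ u ρ ≠ 0) ∧ ∀ (τ : Set ι) (ρ : ι), ρ ∉ τ → NZD O (u '' τ) (u ρ)

/-- The equations of the deepest stratum. -/
def big {ι : Type} (O : Subalgebra k L) (u : ι → L) : Set L := u '' {ρ | ¬ Un O (u ρ)}

/-- Laurent monomials. -/
noncomputable def mn {ι : Type} [Fintype ι] (u : ι → L) (c : ι → ℤ) : L := ∏ ρ, u ρ ^ c ρ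

/-- `O` with all `u ρ` inverted. -/
def tor {ι : Type} (O : Subalgebra k L) (u : ι → L) : Subalgebra k L :=
  O ⊔ Algebra.adjoin k (Set.range fun ρ => (u ρ)⁻¹)

/-- The multiplicative group generated by `E`. -/
def grp (E : Set L) : Submonoid L := Submonoid.closure (E ∪ E⁻¹)

/-- Sums of terms `g φ ^ n` with `g` in the group of `E` and distinct exponents `n`, divided by
one of the terms, are nonzero divisors modulo `S` when all the quotients are units. -/
def NZ (O : Subalgebra k L) (S E : Set L) (φ : L) : Prop :=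
  ∀ (T : Finset ℤ) (g : ℤ → L) (m : ℤ), m ∈ T →
    (∀ n ∈ T, g n ∈ grp E ∧ Un O (g n * φ ^ n / (g m * φ ^ m))) →
    NZD O S (∑ n ∈ T, g n * φ ^ n / (g m * φ ^ m))

/-- `a` generates the fractional ideal `A O`. -/
def Gen (O : Subalgebra k L) (A : Submodule k L) (a : L) : Prop :=
  a ≠ 0 ∧ (∀ x ∈ A, x / a ∈ O) ∧ ∃ x ∈ A, Un O (x / a)

/-- `u` generates the fractional ideal `A O / B O`. -/
def Rep (O : Subalgebra k L) (A B : Submodule k L) (u : L) : Prop :=
  ∃ a b, Gen O A a ∧ Gen O B b ∧ u = a / b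

/-- A finite dimensional subspace of `W` containing a unit of `W`. -/
def Prim (W : Subalgebra k L) (A : Submodule k L) : Prop :=
  A.FG ∧ (∀ x ∈ A, x ∈ W) ∧ ∃ a ∈ A, Un W a

/-- The exponents after blowing up the intersection of the divisors `α` and `β`. -/
def upd {ι : Type} (α β : ι) (c : ι → ℤ) : Option ι → ℤ := fun o => o.elim (c α + c β) c

/-- The local form of the blow-up of the intersection of the divisors `a` and `b`, in the chart
where `u a / u b` is regular. -/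
structure Step {ι : Type} (O : Subalgebra k L) (u : ι → L) (O' : Subalgebra k L)
    (u' : Option ι → L) (a b : ι) : Prop where
  ne : a ≠ b
  dom : Dom O O'
  pt : IsPoint (adj O (u a / u b)) O'
  none : u' none = u b
  left : u' (some a) = u a / u b
  right : u' (some b) = 1
  other : ∀ ρ, ρ ≠ a → ρ ≠ b → u' (some ρ) = u ρ

/-- The image of `O ≤ W` under `π`. -/
def img {W : Subalgebra k L} (π : W →ₐ[k] L) (O : Subalgebra k L) : Subalgebra k L :=
  (O.comap W.val).map π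

variable (k L) in
/-- A projective model (the blow-up of `M`) with a finite system of Cartier divisors
`A ρ / B ρ` and a choice `U` of their local equations. -/
structure Sys where
  ι : Type
  [fin : Fintype ι]
  M : Submodule k L
  A : ι → Submodule k L
  B : ι → Submodule k L
  U : Subalgebra k L → ι → L

attribute [instance] Sys.fin

namespace Sys

variable (s : Sys k L)

/-- The points of the model. -/
def P (O : Subalgebra k L) : Prop := Pt ⊥ s.M O

/-- The model is a local complete intersection and the divisors have regular crossings. -/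
structure Good (W : Subalgebra k L) : Prop where
  primM : Prim W s.M
  primA : ∀ ρ, Prim W (s.A ρ)
  primB : ∀ ρ, Prim W (s.B ρ)
  lci : ∀ O, s.P O → LCI O
  rc : ∀ O, s.P O → RC O (s.U O)
  rep : ∀ O, s.P O → ∀ ρ, Rep O (s.A ρ) (s.B ρ) (s.U O ρ)

/-- The divisor of `r` is `∑ c ρ • D ρ`. -/
def HasExp (r : L) (c : s.ι → ℤ) : Prop := ∀ O, s.P O → Un O (r / mn (s.U O) c)

/-- The divisor of `r` is supported on the system. -/
def IsMon (r : L) : Prop := ∃ c, s.HasExp r c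

/-- `r` defines a morphism to the projective line. -/
def Cmp (r : L) : Prop := ∀ O, s.P O → r ∈ O ∨ r⁻¹ ∈ O

/-- The divisor of `G` is `∑ a ρ • D ρ` plus an effective divisor in general position. -/
def Div (G : L) (a : s.ι → ℤ) : Prop :=
  ∀ O, s.P O → G / mn (s.U O) a ∈ O ∧ G ≠ 0 ∧ NZD O (big O (s.U O)) (G / mn (s.U O) a)

/-- Refinement of systems. -/
def Ref (s' : Sys k L) : Prop := (∀ r, s.IsMon r → s'.IsMon r) ∧ ∀ r, s.Cmp r → s'.Cmp r

/-- The invariant of the construction on the projective line with coordinate `Y` over `K₀`. -/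
structure Inv (W K₀ : Subalgebra k L) (Y : L) (N : Set (Set L × L)) : Prop where
  good : s.Good W
  mon : ∀ p ∈ N, (∀ x ∈ p.1, s.IsMon x) ∧ s.IsMon p.2
  nz : ∀ O, s.P O → ∃ p ∈ N, NZ O (big O (s.U O)) p.1 p.2
  lam : ∀ O, s.P O → O ≤ loc (adj (K₀ ⊓ tor O (s.U O)) Y) (tor O (s.U O))

end Sys

end Pool.Agent.MP_19ffc6_ag.Lci

end MrgPart1

-- ======== part 2: formerly Pool.Agent.MP_19ffc6_ag.Lci.Basic
section MrgPart2

/-! Elementary lemmas on the definitions. -/

namespace Pool.Agent.MP_19ffc6_ag.Lci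

open Pool.Agent.MP_19ffc6_ag.Wild Polynomial

set_option linter.unusedSectionVars false

variable {k L : Type} [Field k] [Field L] [Algebra k L]

section Span

variable {O O' : Subalgebra k L} {S S' : Set L} {t t' x y : L}

lemma mul_mem_span (ho : x ∈ O) (hy : y ∈ Submodule.span O S) : x * y ∈ Submodule.span O S :=
  Submodule.smul_mem _ (⟨x, ho⟩ : O) hy

lemma mul_mem_span' (hy : y ∈ Submodule.span O S) (ho : x ∈ O) : y * x ∈ Submodule.span O S := by
  rw [mul_comm]; exact mul_mem_span ho hy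

lemma span_le_span (h : O ≤ O') (hS : ∀ s ∈ S, s ∈ Submodule.span O' S')
    (hx : x ∈ Submodule.span O S) : x ∈ Submodule.span O' S' := by
  induction hx using Submodule.span_induction with
  | mem x hx => exact hS x hx
  | zero => exact zero_mem _
  | add a b _ _ ha hb => exact add_mem ha hb
  | smul c a _ ha => exact mul_mem_span (h c.2) ha

lemma span_mono' (h : O ≤ O') (hS : S ⊆ S') (hx : x ∈ Submodule.span O S) :
    x ∈ Submodule.span O' S' := span_le_span h (fun _ hs => Submodule.subset_span (hS hs)) hx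

lemma mem_of_mem_span (hS : ∀ s ∈ S, s ∈ O) (hx : x ∈ Submodule.span O S) : x ∈ O := by
  induction hx using Submodule.span_induction with
  | mem x hx => exact hS x hx
  | zero => exact zero_mem _
  | add a b _ _ ha hb => exact add_mem ha hb
  | smul c a _ ha => exact mul_mem c.2 ha

lemma mem_span_one : x ∈ Submodule.span O {t} ↔ ∃ z ∈ O, x = t * z := by
  rw [Submodule.mem_span_singleton]
  constructor
  · rintro ⟨a, rfl⟩; exact ⟨a, a.2, mul_comm _ _⟩
  · rintro ⟨z, hz, rfl⟩; exact ⟨⟨z, hz⟩, mul_comm _ _⟩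

lemma mem_span_ins :
    x ∈ Submodule.span O (insert t S) ↔ ∃ z ∈ O, ∃ y ∈ Submodule.span O S, x = t * z + y := by
  rw [Submodule.mem_span_insert]
  constructor
  · rintro ⟨a, y, hy, rfl⟩; exact ⟨a, a.2, y, hy, by rw [mul_comm]; rfl⟩
  · rintro ⟨z, hz, y, hy, rfl⟩; exact ⟨⟨z, hz⟩, y, hy, by rw [mul_comm]; rfl⟩

lemma mem_span_of_un (hs : t ∈ Submodule.span O S) (hu : Un O t) (hx : x ∈ O) :
    x ∈ Submodule.span O S := by
  have := mul_mem_span (mul_mem hx hu.2.2) hs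
  rwa [inv_mul_cancel_right₀ hu.2.1] at this

/-- An ideal generated by non-units of a local ring contains no unit. -/
lemma not_un_of_mem_span (hO : Lcl O) (hS : ∀ s ∈ S, s ∈ O ∧ ¬ Un O s)
    (hx : x ∈ Submodule.span O S) : ¬ Un O x := by
  have : x ∈ mx hO := by
    induction hx using Submodule.span_induction with
    | mem x hx => exact hS x hx
    | zero => exact zero_mem _
    | add a b _ _ ha hb => exact add_mem ha hb
    | smul c a _ ha =>
      have := mul_mem_mx hO ha c.2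
      rwa [mul_comm] at this
  exact this.2

lemma NZD.of_un (h : Un O t) : NZD O S t := fun z _ hz => by
  have := mul_mem_span h.2.2 hz
  rwa [inv_mul_cancel_left₀ h.2.1] at this

lemma NZD.of_un_mem (hs : t ∈ Submodule.span O S) (hu : Un O t) : NZD O S t' :=
  fun _ hz _ => mem_span_of_un hs hu hz

lemma NZD.mul (h : NZD O S t) (h' : NZD O S t') (ht' : t' ∈ O) : NZD O S (t * t') :=
  fun z hz e => h' z hz (h _ (mul_mem ht' hz) (by rwa [← mul_assoc]))

lemma NZD.pow (h : NZD O S t) (ht : t ∈ O) (n : ℕ) : NZD O S (t ^ n) := by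
  induction n with
  | zero => rw [pow_zero]; exact .of_un (Un.one _)
  | succ n ih => rw [pow_succ]; exact ih.mul h ht

lemma NZD.prod {ι : Type} (s : Finset ι) (f : ι → L) (h : ∀ i ∈ s, f i ∈ O ∧ NZD O S (f i)) :
    NZD O S (∏ i ∈ s, f i) :=
  (Finset.prod_induction f (fun x => x ∈ O ∧ NZD O S x)
    (fun _ _ ha hb => ⟨mul_mem ha.1 hb.1, ha.2.mul hb.2 hb.1⟩) ⟨one_mem _, .of_un (Un.one _)⟩ h).2

lemma NZD.congr (h : NZD O S t) (h1 : ∀ s ∈ S, s ∈ Submodule.span O S')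
    (h2 : ∀ s ∈ S', s ∈ Submodule.span O S) : NZD O S' t :=
  fun z hz e => span_le_span le_rfl h1 (h z hz (span_le_span le_rfl h2 e))

lemma NZD.add_mem (h : NZD O S t) (hy : y ∈ Submodule.span O S) : NZD O S (t + y) :=
  fun z hz e => h z hz (by
    have := sub_mem e (mul_mem_span' hy hz)
    rwa [add_mul, add_sub_cancel_right] at this)

lemma NZD.of_empty (ht : t ≠ 0) : NZD O ∅ t := fun z _ hz => by
  rw [Submodule.span_empty, Submodule.mem_bot] at hz ⊢
  exact (mul_eq_zero.1 hz).resolve_left ht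

lemma KP.mono (h : KP O x S) (hS : ∀ s ∈ S, s ∈ Submodule.span O S') : KP O x S' :=
  fun P hP e n => span_le_span le_rfl hS (h P hP e n)

end Span

section Adj

variable {O O' : Subalgebra k L} {x y : L}

lemma le_adj (O : Subalgebra k L) (x : L) : O ≤ adj O x := le_sup_left

lemma self_mem_adj (O : Subalgebra k L) (x : L) : x ∈ adj O x :=
  (le_sup_right : _ ≤ adj O x) (Algebra.subset_adjoin rfl)

lemma adj_le (h : O ≤ O') (hx : x ∈ O') : adj O x ≤ O' :=
  sup_le h (Algebra.adjoin_le (by simpa using hx))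

lemma adj_eq_self (hx : x ∈ O) : adj O x = O := le_antisymm (adj_le le_rfl hx) (le_adj _ _)

lemma eval_mem {P : L[X]} (hP : ∀ n, P.coeff n ∈ O) (hx : x ∈ O) : P.eval x ∈ O := by
  rw [eval_eq_sum_range]
  exact sum_mem fun n _ => mul_mem (hP n) (pow_mem hx n)

lemma coeff_mul_mem {P Q : L[X]} (hP : ∀ n, P.coeff n ∈ O) (hQ : ∀ n, Q.coeff n ∈ O) (n : ℕ) :
    (P * Q).coeff n ∈ O := by
  rw [coeff_mul]; exact sum_mem fun c _ => mul_mem (hP _) (hQ _)

lemma coeff_C_mem (hy : y ∈ O) (n : ℕ) : (C y).coeff n ∈ O := by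
  rw [coeff_C]; split_ifs; exacts [hy, zero_mem _]

lemma coeff_X_mem (O : Subalgebra k L) (n : ℕ) : (X : L[X]).coeff n ∈ O := by
  rw [coeff_X]; split_ifs; exacts [one_mem _, zero_mem _]

lemma mem_adj_iff : y ∈ adj O x ↔ ∃ P : L[X], (∀ n, P.coeff n ∈ O) ∧ P.eval x = y := by
  constructor
  · intro hy
    let Z : Subalgebra k L :=
      { carrier := {y | ∃ P : L[X], (∀ n, P.coeff n ∈ O) ∧ P.eval x = y}
        mul_mem' := by
          rintro _ _ ⟨P, hP, rfl⟩ ⟨Q, hQ, rfl⟩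
          exact ⟨P * Q, coeff_mul_mem hP hQ, eval_mul⟩
        add_mem' := by
          rintro _ _ ⟨P, hP, rfl⟩ ⟨Q, hQ, rfl⟩
          exact ⟨P + Q, fun n => by rw [coeff_add]; exact add_mem (hP n) (hQ n), eval_add⟩
        algebraMap_mem' := fun r => ⟨C _, coeff_C_mem (O.algebraMap_mem r), eval_C⟩ }
    exact adj_le (O' := Z) (fun z hz => ⟨C z, coeff_C_mem hz, eval_C⟩)
      ⟨X, coeff_X_mem O, eval_X⟩ hy
  · rintro ⟨P, hP, rfl⟩
    exact eval_mem (fun n => le_adj _ _ (hP n)) (self_mem_adj _ _)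

lemma Dom.refl (O : Subalgebra k L) : Dom O O := ⟨le_rfl, fun _ _ h => h⟩

lemma dom_loc {D : Subalgebra k L} (h : D ≤ O) : Dom (loc D O) O := by
  refine ⟨loc_le h, ?_⟩
  rintro _ ⟨a, ha, b, hb, hu, rfl⟩ hx
  have : Un O a := by
    have := hx.mul hu
    rwa [div_mul_cancel₀ _ hu.2.1] at this
  rw [div_eq_mul_inv]
  exact (un_loc ha this).mul (un_loc hb hu).inv

lemma Dom.eq_of_isPoint (h : Dom O O') (hp : IsPoint O O') : O' = O := by
  refine le_antisymm (fun x hx => ?_) h.1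
  obtain ⟨a, ha, b, hb, hu, rfl⟩ := hp.le_loc hx
  rw [div_eq_mul_inv]
  exact mul_mem ha (h.2 b hb hu).2.2

lemma loc_mono {D D' : Subalgebra k L} (h : D ≤ D') (h' : O ≤ O') : loc D O ≤ loc D' O' := by
  rintro _ ⟨a, ha, b, hb, hu, rfl⟩
  exact ⟨a, h ha, b, h hb, hu.mono h', rfl⟩

lemma inv_mem_loc {D : Subalgebra k L} (hx : x ∈ loc D O) (hu : Un O x) : x⁻¹ ∈ loc D O := by
  obtain ⟨a, ha, b, hb, hb', rfl⟩ := hx
  have : Un O a := by
    have := hu.mul hb'
    rwa [div_mul_cancel₀ _ hb'.2.1] at this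
  exact ⟨b, hb, a, ha, this, inv_div _ _⟩

/-- A point of the blow-up of a product dominates a point of the blow-up of the first factor. -/
lemma Pt.of_mul_dom {A O' : Subalgebra k L} {M J : Submodule k L} (h : Pt A (M * J) O') :
    ∃ O, ∃ h ∈ J, Pt A M O ∧ Dom O O' ∧ h ≠ 0 ∧ IsPoint (chart O J h) O' := by
  obtain ⟨O, h, hh, ⟨m, hm, hm0, hO⟩, h0, hP⟩ := h.of_mul
  have h1 : O ≤ O' := (le_chart _ _ _).trans hP.le
  have h2 : chart A M m ≤ O' := hO.le.trans h1
  have h3 : O ≤ loc (chart A M m) O' := hO.le_loc.trans (loc_mono le_rfl h1)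
  refine ⟨loc (chart A M m) O', h, hh, ⟨m, hm, hm0, isPoint_loc h2 hP.lcl⟩, dom_loc h2, h0,
    hP.of_le_loc (chart_le (loc_le h2) fun j hj => hP.le (div_mem_chart _ _ hj)) ?_⟩
  exact (chart_le (h3.trans (le_chart _ _ _)) fun j hj => div_mem_chart _ _ hj).trans (le_loc _ _)

end Adj

section Mon

variable {ι : Type} [Fintype ι] {O : Subalgebra k L} {u : ι → L} {c c' : ι → ℤ} {x y : L}

lemma un_zpow (hx : Un O x) (n : ℤ) : Un O (x ^ n) := by
  obtain ⟨m, rfl | rfl⟩ := n.eq_nat_or_neg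
  · rw [zpow_natCast]; exact hx.pow m
  · rw [zpow_neg, zpow_natCast]; exact (hx.pow m).inv

lemma un_div (hx : Un O x) (hy : Un O y) : Un O (x / y) := by
  rw [div_eq_mul_inv]; exact hx.mul hy.inv

lemma un_prod {κ : Type} (s : Finset κ) (f : κ → L) (h : ∀ i ∈ s, Un O (f i)) :
    Un O (∏ i ∈ s, f i) :=
  Finset.prod_induction f (Un O) (fun _ _ ha hb => ha.mul hb) (Un.one _) h

lemma mn_zero (u : ι → L) : mn u 0 = 1 := by simp [mn]

lemma mn_ne_zero (hu : ∀ ρ, u ρ ≠ 0) (c : ι → ℤ) : mn u c ≠ 0 :=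
  Finset.prod_ne_zero_iff.2 fun ρ _ => zpow_ne_zero _ (hu ρ)

lemma mn_add (hu : ∀ ρ, u ρ ≠ 0) (c c' : ι → ℤ) : mn u (c + c') = mn u c * mn u c' := by
  simp only [mn, Pi.add_apply, ← Finset.prod_mul_distrib]
  exact Finset.prod_congr rfl fun ρ _ => zpow_add₀ (hu ρ) _ _

lemma mn_neg (u : ι → L) (c : ι → ℤ) : mn u (-c) = (mn u c)⁻¹ := by
  simp [mn, Finset.prod_inv_distrib]

lemma mn_sub (hu : ∀ ρ, u ρ ≠ 0) (c c' : ι → ℤ) : mn u (c - c') = mn u c / mn u c' := by
  rw [sub_eq_add_neg, mn_add hu, mn_neg, div_eq_mul_inv]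

lemma mn_smul (u : ι → L) (n : ℤ) (c : ι → ℤ) : mn u (n • c) = mn u c ^ n := by
  simp only [mn, Pi.smul_apply, smul_eq_mul, ← Finset.prod_zpow]
  exact Finset.prod_congr rfl fun ρ _ => by rw [mul_comm, zpow_mul]

lemma mn_single [DecidableEq ι] (u : ι → L) (ρ : ι) (n : ℤ) : mn u (Pi.single ρ n) = u ρ ^ n := by
  rw [mn, Finset.prod_eq_single ρ]
  · simp
  · intro j _ hj; simp [Pi.single_eq_of_ne hj]
  · simp

lemma mn_option (u : Option ι → L) (c : Option ι → ℤ) :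
    mn u c = u none ^ c none * mn (fun ρ => u (some ρ)) (fun ρ => c (some ρ)) := by
  simp [mn, Fintype.prod_option]

lemma mn_mem (hu : ∀ ρ, u ρ ∈ O ∧ u ρ ≠ 0) (hc : ∀ ρ, ¬ Un O (u ρ) → 0 ≤ c ρ) : mn u c ∈ O := by
  refine prod_mem fun ρ _ => ?_
  by_cases h : Un O (u ρ)
  · exact (un_zpow h _).1
  · obtain ⟨n, hn⟩ := Int.eq_ofNat_of_zero_le (hc ρ h)
    rw [hn, zpow_natCast]; exact pow_mem (hu ρ).1 n

lemma mn_un (hc : ∀ ρ, ¬ Un O (u ρ) → c ρ = 0) : Un O (mn u c) := by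
  refine un_prod _ _ fun ρ _ => ?_
  by_cases h : Un O (u ρ)
  · exact un_zpow h _
  · rw [hc ρ h, zpow_zero]; exact Un.one _

lemma mn_mem_span (hu : ∀ ρ, u ρ ∈ O ∧ u ρ ≠ 0) (hc : ∀ ρ, ¬ Un O (u ρ) → 0 ≤ c ρ) {ρ : ι}
    (h0 : 0 < c ρ) : mn u c ∈ Submodule.span O {u ρ} := by
  classical
  refine mem_span_one.2 ⟨mn u (c - Pi.single ρ 1), mn_mem hu fun τ hτ => ?_, ?_⟩
  · by_cases e : τ = ρ
    · subst e; simp; omega
    · simpa [Pi.single_eq_of_ne e] using hc τ hτ
  · rw [mn_sub fun τ => (hu τ).2, mn_single, zpow_one, mul_div_cancel₀ _ (hu ρ).2]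

lemma le_tor (O : Subalgebra k L) (u : ι → L) : O ≤ tor O u := le_sup_left

lemma inv_mem_tor (O : Subalgebra k L) (u : ι → L) (ρ : ι) : (u ρ)⁻¹ ∈ tor O u :=
  (le_sup_right : _ ≤ tor O u) (Algebra.subset_adjoin ⟨ρ, rfl⟩)

lemma tor_le {Z : Subalgebra k L} (h : O ≤ Z) (h' : ∀ ρ, (u ρ)⁻¹ ∈ Z) : tor O u ≤ Z :=
  sup_le h (Algebra.adjoin_le (by rintro _ ⟨ρ, rfl⟩; exact h' ρ))

lemma un_tor (hu : ∀ ρ, u ρ ∈ O ∧ u ρ ≠ 0) (ρ : ι) : Un (tor O u) (u ρ) :=
  ⟨le_tor _ _ (hu ρ).1, (hu ρ).2, inv_mem_tor _ _ _⟩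

lemma un_tor_mn (hu : ∀ ρ, u ρ ∈ O ∧ u ρ ≠ 0) (c : ι → ℤ) : Un (tor O u) (mn u c) :=
  mn_un fun ρ h => (h (un_tor hu ρ)).elim

/-- `x` is a unit times a monomial. -/
def LMon (O : Subalgebra k L) (u : ι → L) (x : L) : Prop := ∃ c, Un O (x / mn u c)

lemma un_exp_mul (hu : ∀ ρ, u ρ ≠ 0) (hx : Un O (x / mn u c)) (hy : Un O (y / mn u c')) :
    Un O (x * y / mn u (c + c')) := by
  rw [mn_add hu, ← div_mul_div_comm]; exact hx.mul hy

lemma un_exp_inv (hx : Un O (x / mn u c)) : Un O (x⁻¹ / mn u (-c)) := by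
  have := hx.inv
  rwa [inv_div, div_eq_mul_inv, mul_comm, ← inv_inv (mn u c), ← mn_neg, ← div_eq_mul_inv] at this

lemma un_exp_zpow (hx : Un O (x / mn u c)) (n : ℤ) : Un O (x ^ n / mn u (n • c)) := by
  rw [mn_smul, ← div_zpow]; exact un_zpow hx n

lemma LMon.ne_zero (h : LMon O u x) : x ≠ 0 := by
  obtain ⟨c, h⟩ := h
  exact left_ne_zero_of_mul (by simpa [div_eq_mul_inv] using h.2.1)

lemma LMon.mul (hu : ∀ ρ, u ρ ≠ 0) (hx : LMon O u x) (hy : LMon O u y) : LMon O u (x * y) :=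
  let ⟨_, h⟩ := hx; let ⟨_, h'⟩ := hy; ⟨_, un_exp_mul hu h h'⟩

lemma LMon.inv (hx : LMon O u x) : LMon O u x⁻¹ := let ⟨_, h⟩ := hx; ⟨_, un_exp_inv h⟩

lemma LMon.zpow (hx : LMon O u x) (n : ℤ) : LMon O u (x ^ n) :=
  let ⟨_, h⟩ := hx; ⟨_, un_exp_zpow h n⟩

lemma LMon.of_un (hx : Un O x) : LMon O u x := ⟨0, by rwa [mn_zero, div_one]⟩

lemma LMon.un_tor (hu : ∀ ρ, u ρ ∈ O ∧ u ρ ≠ 0) (hx : LMon O u x) : Un (tor O u) x := by
  obtain ⟨c, h⟩ := hx
  have := (h.mono (le_tor O u)).mul (un_tor_mn hu c)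
  rwa [div_mul_cancel₀ _ (mn_ne_zero (fun ρ => (hu ρ).2) c)] at this

lemma mem_grp {E : Set L} (hx : x ∈ E) : x ∈ grp E := Submonoid.subset_closure (Or.inl hx)

lemma grp_induction {E : Set L} {p : L → Prop} (h1 : p 1) (hE : ∀ x ∈ E, p x)
    (hm : ∀ x y, p x → p y → p (x * y)) (hi : ∀ x, p x → p x⁻¹) (hx : x ∈ grp E) : p x := by
  induction hx using Submonoid.closure_induction with
  | mem x hx =>
    rcases hx with hx | hx
    · exact hE x hx
    · simpa using hi _ (hE _ hx)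
  | one => exact h1
  | mul x y _ _ hx hy => exact hm x y hx hy

lemma inv_mem_grp {E : Set L} (hx : x ∈ grp E) : x⁻¹ ∈ grp E := by
  induction hx using Submonoid.closure_induction with
  | mem x hx =>
    rcases hx with hx | hx
    · exact Submonoid.subset_closure (Or.inr (by simpa using hx))
    · exact Submonoid.subset_closure (Or.inl hx)
  | one => simpa using one_mem _
  | mul x y _ _ hx hy => rw [mul_inv]; exact mul_mem hx hy

lemma LMon.of_grp {E : Set L} (hu : ∀ ρ, u ρ ≠ 0) (hE : ∀ x ∈ E, LMon O u x) (hx : x ∈ grp E) :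
    LMon O u x :=
  grp_induction (.of_un (Un.one _)) hE (fun _ _ => LMon.mul hu) (fun _ => LMon.inv) hx

lemma upd_comm (α β : ι) (c : ι → ℤ) : upd α β c = upd β α c := by
  unfold upd; rw [add_comm]

lemma Step.mn_eq {O' : Subalgebra k L} {u' : Option ι → L} {a b : ι} (h : Step O u O' u' a b)
    (hu : ∀ ρ, u ρ ≠ 0) (c : ι → ℤ) : mn u' (upd a b c) = mn u c := by
  classical
  have hb : b ∈ Finset.univ.erase a := Finset.mem_erase.2 ⟨h.ne.symm, Finset.mem_univ _⟩
  rw [mn_option]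
  simp only [mn, upd, Option.elim]
  rw [← Finset.mul_prod_erase _ _ (Finset.mem_univ a), ← Finset.mul_prod_erase _ _ hb,
    ← Finset.mul_prod_erase _ (fun ρ => u ρ ^ c ρ) (Finset.mem_univ a),
    ← Finset.mul_prod_erase _ (fun ρ => u ρ ^ c ρ) hb, h.none, h.left, h.right,
    Finset.prod_congr rfl (g := fun ρ => u ρ ^ c ρ) fun ρ hρ => by
      rw [h.other ρ (Finset.ne_of_mem_erase (Finset.mem_of_mem_erase hρ))
        (Finset.ne_of_mem_erase hρ)]]
  have := zpow_ne_zero (c a) (hu b)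
  rw [zpow_add₀ (hu b), div_zpow, one_zpow]
  field_simp

end Mon

section Rep

variable {O O' W : Subalgebra k L} {A A' B B' : Submodule k L} {a a' u u' x : L}

lemma Gen.mono (h : Gen O A a) (hO : O ≤ O') : Gen O' A a :=
  ⟨h.1, fun x hx => hO (h.2.1 x hx), let ⟨x, hx, hu⟩ := h.2.2; ⟨x, hx, hu.mono hO⟩⟩

lemma Gen.mul (h : Gen O A a) (h' : Gen O A' a') : Gen O (A * A') (a * a') := by
  refine ⟨mul_ne_zero h.1 h'.1, fun x hx => ?_, ?_⟩
  · refine Submodule.mul_induction_on hx (fun m hm n hn => ?_) fun m n hm hn => ?_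
    · rw [← div_mul_div_comm]; exact mul_mem (h.2.1 m hm) (h'.2.1 n hn)
    · rw [add_div]; exact add_mem hm hn
  · obtain ⟨x, hx, hu⟩ := h.2.2
    obtain ⟨y, hy, hv⟩ := h'.2.2
    exact ⟨x * y, Submodule.mul_mem_mul hx hy, by rw [← div_mul_div_comm]; exact hu.mul hv⟩

lemma Gen.mul_un (h : Gen O A a) (hx : Un O x) : Gen O A (a * x) := by
  refine ⟨mul_ne_zero h.1 hx.2.1, fun y hy => ?_, ?_⟩
  · rw [← div_div, div_eq_mul_inv _ x]; exact mul_mem (h.2.1 y hy) hx.2.2
  · obtain ⟨y, hy, hu⟩ := h.2.2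
    exact ⟨y, hy, by rw [← div_div]; exact un_div hu hx⟩

lemma gen_span (O : Subalgebra k L) (ha : a ≠ 0) : Gen O (Submodule.span k {a}) a := by
  refine ⟨ha, fun x hx => ?_, a, Submodule.mem_span_singleton_self _, ?_⟩
  · obtain ⟨c, rfl⟩ := Submodule.mem_span_singleton.1 hx
    rw [smul_div_assoc, div_self ha]; exact O.smul_mem (one_mem _) c
  · rw [div_self ha]; exact Un.one _

lemma Rep.mono (h : Rep O A B u) (hO : O ≤ O') : Rep O' A B u :=
  let ⟨a, b, ha, hb, e⟩ := h; ⟨a, b, ha.mono hO, hb.mono hO, e⟩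

lemma Rep.mul (h : Rep O A B u) (h' : Rep O A' B' u') : Rep O (A * A') (B * B') (u * u') := by
  obtain ⟨a, b, ha, hb, rfl⟩ := h
  obtain ⟨a', b', ha', hb', rfl⟩ := h'
  exact ⟨_, _, ha.mul ha', hb.mul hb', div_mul_div_comm _ _ _ _⟩

lemma Rep.inv (h : Rep O A B u) : Rep O B A u⁻¹ := by
  obtain ⟨a, b, ha, hb, rfl⟩ := h
  exact ⟨_, _, hb, ha, inv_div _ _⟩

lemma Rep.div (h : Rep O A B u) (h' : Rep O A' B' u') : Rep O (A * B') (B * A') (u / u') := by
  rw [div_eq_mul_inv]; exact h.mul h'.inv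

lemma rep_span (O : Subalgebra k L) (ha : a ≠ 0) :
    Rep O (Submodule.span k {a}) (Submodule.span k {1}) a :=
  ⟨a, 1, gen_span O ha, gen_span O one_ne_zero, (div_one _).symm⟩

lemma Prim.mul (h : Prim W A) (h' : Prim W A') : Prim W (A * A') := by
  refine ⟨h.1.mul h'.1, fun x hx => ?_, ?_⟩
  · exact Submodule.mul_induction_on hx (fun m hm n hn => mul_mem (h.2.1 m hm) (h'.2.1 n hn))
      fun m n hm hn => add_mem hm hn
  · obtain ⟨x, hx, hu⟩ := h.2.2
    obtain ⟨y, hy, hv⟩ := h'.2.2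
    exact ⟨x * y, Submodule.mul_mem_mul hx hy, hu.mul hv⟩

lemma Prim.sup (h : Prim W A) (h' : Prim W A') : Prim W (A ⊔ A') := by
  refine ⟨h.1.sup h'.1, fun x hx => ?_, ?_⟩
  · obtain ⟨y, hy, z, hz, rfl⟩ := Submodule.mem_sup.1 hx
    exact add_mem (h.2.1 y hy) (h'.2.1 z hz)
  · obtain ⟨x, hx, hu⟩ := h.2.2
    exact ⟨x, Submodule.mem_sup_left hx, hu⟩

lemma Prim.mono {W' : Subalgebra k L} (h : Prim W A) (hW : W ≤ W') : Prim W' A :=
  ⟨h.1, fun x hx => hW (h.2.1 x hx), let ⟨x, hx, hu⟩ := h.2.2; ⟨x, hx, hu.mono hW⟩⟩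

lemma prim_span (ha : Un W a) : Prim W (Submodule.span k {a}) := by
  refine ⟨Submodule.fg_span_singleton _, fun x hx => ?_, a, Submodule.mem_span_singleton_self _, ha⟩
  obtain ⟨c, rfl⟩ := Submodule.mem_span_singleton.1 hx
  exact W.smul_mem ha.1 c

/-- Every monomial in the divisors is again a quotient of two subspaces. -/
lemma exists_rep_mn {ι : Type} [Fintype ι] (A B : ι → Submodule k L) (hA : ∀ ρ, Prim W (A ρ))
    (hB : ∀ ρ, Prim W (B ρ)) (c : ι → ℤ) : ∃ A' B', Prim W A' ∧ Prim W B' ∧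
      ∀ (O : Subalgebra k L) (u : ι → L), (∀ ρ, Rep O (A ρ) (B ρ) (u ρ)) → Rep O A' B' (mn u c) := by
  let p : ((ι → L) → L) → Prop := fun f => ∃ A' B', Prim W A' ∧ Prim W B' ∧
    ∀ (O : Subalgebra k L) (u : ι → L), (∀ ρ, Rep O (A ρ) (B ρ) (u ρ)) → Rep O A' B' (f u)
  have h1 : p 1 := ⟨_, _, prim_span (Un.one _), prim_span (Un.one _),
    fun O _ _ => rep_span O one_ne_zero⟩
  have hm : ∀ f g, p f → p g → p (f * g) := by
    rintro f g ⟨A1, B1, h1, h2, h3⟩ ⟨A2, B2, h4, h5, h6⟩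
    exact ⟨_, _, h1.mul h4, h2.mul h5, fun O u hu => (h3 O u hu).mul (h6 O u hu)⟩
  have hi : ∀ f, p f → p f⁻¹ := by
    rintro f ⟨A1, B1, h1, h2, h3⟩
    exact ⟨_, _, h2, h1, fun O u hu => (h3 O u hu).inv⟩
  have hp : ∀ f, p f → ∀ n : ℕ, p (f ^ n) := fun f hf n => by
    induction n with
    | zero => rwa [pow_zero]
    | succ n ih => rw [pow_succ]; exact hm _ _ ih hf
  have : p (∏ ρ, fun u => u ρ ^ c ρ) := by
    refine Finset.prod_induction _ p hm h1 fun ρ _ => ?_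
    have h0 : p fun u => u ρ := ⟨_, _, hA ρ, hB ρ, fun _ _ hu => hu ρ⟩
    obtain ⟨m, e | e⟩ := (c ρ).eq_nat_or_neg
    · simp only [e, zpow_natCast]; exact hp _ h0 m
    · simp only [e, zpow_neg, zpow_natCast]; exact hi _ (hp _ h0 m)
  obtain ⟨A', B', h2, h3, h4⟩ := this
  exact ⟨A', B', h2, h3, fun O u hu => by simpa [mn] using h4 O u hu⟩

end Rep

namespace Sys

variable {s s' s'' : Sys k L} {W : Subalgebra k L} {x y : L}

lemma IsMon.lmon (h : s.IsMon x) {O : Subalgebra k L} (hO : s.P O) : LMon O (s.U O) x :=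
  let ⟨c, h⟩ := h; ⟨c, h O hO⟩

lemma Good.ne (h : s.Good W) {O : Subalgebra k L} (hO : s.P O) (ρ : s.ι) : s.U O ρ ≠ 0 :=
  ((h.rc O hO).1 ρ).2

lemma isMon_one : s.IsMon 1 := ⟨0, fun _ _ => by rw [mn_zero, div_one]; exact Un.one _⟩

lemma IsMon.mul (hs : s.Good W) (hx : s.IsMon x) (hy : s.IsMon y) : s.IsMon (x * y) :=
  let ⟨_, h⟩ := hx; let ⟨_, h'⟩ := hy; ⟨_, fun O hO => un_exp_mul (hs.ne hO) (h O hO) (h' O hO)⟩

lemma IsMon.inv (hx : s.IsMon x) : s.IsMon x⁻¹ :=
  let ⟨_, h⟩ := hx; ⟨_, fun O hO => un_exp_inv (h O hO)⟩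

lemma IsMon.div (hs : s.Good W) (hx : s.IsMon x) (hy : s.IsMon y) : s.IsMon (x / y) := by
  rw [div_eq_mul_inv]; exact hx.mul hs hy.inv

lemma IsMon.zpow (hx : s.IsMon x) (n : ℤ) : s.IsMon (x ^ n) :=
  let ⟨_, h⟩ := hx; ⟨_, fun O hO => un_exp_zpow (h O hO) n⟩

lemma IsMon.of_grp (hs : s.Good W) {E : Set L} (hE : ∀ x ∈ E, s.IsMon x) (hx : x ∈ grp E) :
    s.IsMon x :=
  grp_induction isMon_one hE (fun _ _ => IsMon.mul hs) (fun _ => IsMon.inv) hx

lemma Ref.refl (s : Sys k L) : s.Ref s := ⟨fun _ h => h, fun _ h => h⟩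

lemma Ref.trans (h : s.Ref s') (h' : s'.Ref s'') : s.Ref s'' :=
  ⟨fun r hr => h'.1 r (h.1 r hr), fun r hr => h'.2 r (h.2 r hr)⟩

end Sys

end Pool.Agent.MP_19ffc6_ag.Lci

end MrgPart2

-- marker of a merged file
example : 731051 + 881938 = 731051 + 881938 := rfl
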