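import Mathlib.AlgebraicGeometry.Morphisms.SchemeTheoreticallyDominant
import Mathlib.AlgebraicGeometry.QuasiAffine
import Mathlib.AlgebraicGeometry.Modules.Sheaf
import Mathlib.LinearAlgebra.TensorProduct.Subalgebra
import Mathlib.Tactic.Polynomial.Basic
import Pool.Agent.MP_19ffc6_ag.Lci.Basic
import Pool.Agent.MP_19ffc6_ag.Lin.ProjB

-- ======== part 0: formerly Pool.Agent.MP_19ffc6_ag.Lci.Spec
section MrgPart0

/-! Statements of the modules of the construction of locally complete intersection models. -/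

namespace Pool.Agent.MP_19ffc6_ag.Lci

open Pool.Agent.MP_19ffc6_ag.Wild Polynomial AlgebraicGeometry CategoryTheory

section

variable (k L : Type) [Field k] [Field L] [Algebra k L]

/-- Module NZD: nonzero divisors and regular crossings. -/
structure NzdStmt : Prop where
  loc : ∀ (D O : Subalgebra k L) (S : Set L) (t : L), IsPoint D O → t ∈ D → NZD D S t → NZD O S t
  poly : ∀ (O : Subalgebra k L) (x : L) (S : Set L) (P : L[X]), KP O x S → (∀ s ∈ S, s ∈ O) →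
    (∀ n, P.coeff n ∈ O) → NZD O S P.leadingCoeff → NZD (adj O x) S (P.eval x)
  const : ∀ (O : Subalgebra k L) (x : L) (S : Set L) (t : L), KP O x S → (∀ s ∈ S, s ∈ O) →
    t ∈ O → NZD O S t → NZD (adj O x) (insert x S) t
  chain : ∀ (ι : Type) [Fintype ι] (O : Subalgebra k L) (u : ι → L) (rk : ι → ℕ), Lcl O →
    IsNoetherianRing O → (∀ ρ, u ρ ∈ O ∧ u ρ ≠ 0) → Function.Injective rk →
    (∀ ρ, ¬ Un O (u ρ) → NZD O (u '' {τ | ¬ Un O (u τ) ∧ rk τ < rk ρ}) (u ρ)) → RC O u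
  add : ∀ (ι : Type) [Fintype ι] (O : Subalgebra k L) (u : ι → L) (G : L), Lcl O →
    IsNoetherianRing O → RC O u → G ∈ O → G ≠ 0 → NZD O (big O u) G →
    RC O (fun o : Option ι => o.elim G u)
  exp : ∀ (ι : Type) [Fintype ι] (O : Subalgebra k L) (u : ι → L) (ρ : ι) (w : L) (c : ι → ℤ),
    RC O u → ¬ Un O (u ρ) → w ∈ O → NZD O {u ρ} w → w * mn u c ∈ O → 0 ≤ c ρ

/-- Module ALG: complete intersections. -/
structure AlgStmt : Prop where
  bot : LCI (⊥ : Subalgebra k L)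
  noeth : ∀ O : Subalgebra k L, LCI O → Lcl O ∧ IsNoetherianRing O
  kp : ∀ (O : Subalgebra k L) (a b : L), a ∈ O → b ∈ O → b ≠ 0 → NZD O {b} a →
    KP O (a / b) {a, b}
  blow : ∀ (O O' : Subalgebra k L) (a b : L), LCI O → a ∈ O → b ∈ O → b ≠ 0 → NZD O {b} a →
    IsPoint (adj O (a / b)) O' → LCI O'
  free : ∀ (O O' : Subalgebra k L) (x : L), LCI O → KP O x ∅ → IsPoint (adj O x) O' → LCI O'
  quot : ∀ (W O : Subalgebra k L) (π : W →ₐ[k] L) (f : L), LCI O → O ≤ W → f ∈ O → f ≠ 0 →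
    (∀ w : W, (w : L) ∈ O → (π w = 0 ↔ (w : L) ∈ Submodule.span O {f})) → LCI (img π O)
  spread : ∀ D O : Subalgebra k L, LCI O → D.FG → IsPoint D O →
    ∃ h ∈ D, Un O h ∧ GCI k (adj D h⁻¹)

/-- Module LOCAL: the invariants in a chart of the blow-up of two divisors. -/
def LocalStmt : Prop :=
  ∀ (ι : Type) [Fintype ι] (O O' : Subalgebra k L) (u : ι → L) (u' : Option ι → L) (a b : ι),
    LCI O → RC O u → Step O u O' u' a b → LCI O' ∧ RC O' u' ∧
      ∀ (E : Set L) (φ : L), (∀ x ∈ E, LMon O u x) → LMon O u φ → NZ O (big O u) E φ →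
        NZ O' (big O' u') E φ

/-- Module BLOW: the blow-up of the intersection of two divisors of a system. -/
def BlowStmt : Prop :=
  ∀ (s : Sys k L) (W K₀ : Subalgebra k L) (Y : L) (N : Set (Set L × L)) (α β : s.ι),
    s.Inv W K₀ Y N → α ≠ β →
    ∃ (M : Submodule k L) (A B : Option s.ι → Submodule k L) (U : Subalgebra k L → Option s.ι → L),
      (Sys.mk (Option s.ι) M A B U).Inv W K₀ Y N ∧
      (∀ r c, s.HasExp r c → (Sys.mk (Option s.ι) M A B U).HasExp r (upd α β c)) ∧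
      (∀ r, s.Cmp r → (Sys.mk (Option s.ι) M A B U).Cmp r) ∧
      ∀ O', Pt ⊥ M O' → ∃ O, s.P O ∧ (∀ ρ, ¬ Un O' (U O' (some ρ)) → ¬ Un O (s.U O ρ)) ∧
        (¬ Un O' (U O' none) → ¬ Un O (s.U O α) ∧ ¬ Un O (s.U O β)) ∧
        (Un O' (U O' (some α)) ∨ Un O' (U O' (some β)))

/-- Module CMP: principalization of monomial ideals. -/
def CmpStmt : Prop :=
  ∀ (s : Sys k L) (W K₀ : Subalgebra k L) (Y : L) (N : Set (Set L × L)) (R : Set L),
    s.Inv W K₀ Y N → R.Finite → (∀ r ∈ R, s.IsMon r) →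
    ∃ s' : Sys k L, s'.Inv W K₀ Y N ∧ s.Ref s' ∧ ∀ r ∈ R, s'.Cmp r

/-- Module PRE: the divisor of a new function is put in general position. -/
def PreStmt : Prop :=
  ∀ (s : Sys k L) (W K₀ : Subalgebra k L) (Y : L) (N : Set (Set L × L)) (G : L),
    s.Inv W K₀ Y N → N.Finite → G ≠ 0 →
    (∀ p ∈ N, ∃ (T : Finset ℤ) (g : ℤ → L), T.Nonempty ∧ (∀ n ∈ T, g n ∈ grp p.1) ∧
      G = ∑ n ∈ T, g n * p.2 ^ n) →
    ∃ s' : Sys k L, s'.Inv W K₀ Y N ∧ s.Ref s' ∧ ∃ a, s'.Div G a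

/-- Module PRE, second part: the new divisor is added to the system. -/
def AddStmt : Prop :=
  ∀ (s : Sys k L) (W K₀ : Subalgebra k L) (Y : L) (N : Set (Set L × L)) (G : L) (a : s.ι → ℤ)
    (E : Set L), s.Inv W K₀ Y N → Un W G → s.Div G a → (∀ x ∈ E, s.IsMon x) →
    ∃ s' : Sys k L, s'.Inv W K₀ Y (insert (E, G) N) ∧ s.Ref s'

/-- Module INIT: the product with the projective line. -/
def InitStmt : Prop :=
  ∀ (s : Sys k L) (K₀ : IntermediateField k L) (W : Subalgebra k L) (Y : L) (E : Set L),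
    s.Good K₀.toSubalgebra → K₀.toSubalgebra ≤ W → Un W Y → Transcendental K₀ Y →
    (∀ x ∈ E, s.IsMon x) →
    ∃ s' : Sys k L, s'.Inv W K₀.toSubalgebra Y {(E, Y)} ∧ ∀ r, s.IsMon r → s'.IsMon r

/-- Module TRANSFER: restriction to the divisor of an irreducible polynomial. -/
def TransferStmt : Prop :=
  ∀ (s : Sys k L) (K₀ : IntermediateField k L) (W : Subalgebra k L) (Y : L) (N : Set (Set L × L))
    (F : K₀[X]) (π : W →ₐ[k] L) (a : s.ι → ℤ), s.Inv W K₀.toSubalgebra Y N →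
    K₀.toSubalgebra ≤ W → Y ∈ W → F.Monic → (∀ w : W, π w ≠ 0 → Un W w) →
    (∀ P : K₀[X], ¬ Un W (aeval Y P) ↔ F ∣ P) → (∀ n, F.coeff n = 0 ∨ s.IsMon (F.coeff n)) →
    s.IsMon Y → s.Div (aeval Y F) a →
    ∃ s' : Sys k L, s'.Good π.range ∧
      ∀ w : W, Un W w → (s.IsMon w → s'.IsMon (π w)) ∧ (s.Cmp w → s'.Cmp (π w))

end

/-- `P` is closed under taking coefficients of expansions. -/
def Closed {F : Type} [Field F] (P : Finset F[X]) : Prop :=
  ∀ φ ∈ P, ∀ G ∈ P, 0 < φ.natDegree → φ.natDegree ≤ G.natDegree →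
    ∃ (T : Finset ℕ) (g : ℕ → F[X]), T.Nonempty ∧
      (∀ n ∈ T, g n ∈ P ∧ (g n).natDegree < φ.natDegree) ∧ G = ∑ n ∈ T, g n * φ ^ n

/-- Module CLOSURE. -/
def ClosureStmt : Prop :=
  ∀ (F : Type) [Field F] (P₀ : Finset F[X]) (D : ℕ), (∀ φ ∈ P₀, φ ≠ 0 ∧ φ.natDegree ≤ D) →
    ∃ P : Finset F[X], P₀ ⊆ P ∧ (∀ ψ ∈ P, ψ ≠ 0 ∧ (ψ ∈ P₀ ∨ ψ.natDegree < D)) ∧ Closed P

/-- The algebraic form of the main theorem. -/
def ModelStmt : Prop :=
  ∀ (k K : Type) [Field k] [Field K] [Algebra k K] (S : Set K), S.Finite →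
    ∃ (L : Type) (_ : Field L) (_ : Algebra k L) (j : K →ₐ[k] L) (M : Submodule k L),
      M.FG ∧ M ≠ ⊥ ∧ (∀ x ∈ M, x ∈ j.range) ∧ ∀ O : Subalgebra k L, Pt ⊥ M O →
        (∀ r ∈ S, j r ∈ O ∨ (j r)⁻¹ ∈ O) ∧
        ∀ D : Subalgebra k L, D.FG → IsPoint D O → ∃ h ∈ D, Un O h ∧ GCI k (adj D h⁻¹)

/-- The main theorem. -/
def MainStmt : Prop :=
  ∀ (k : Type) [Field k] (X : Scheme.{0}) (sX : X ⟶ Spec (CommRingCat.of k)),
    IsIntegral X → IsSeparated sX → LocallyOfFiniteType sX → QuasiCompact sX →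
    ∃ (Y : Scheme.{0}) (f : Y ⟶ X), IsIntegral Y ∧ IsProper f ∧
      (∃ V : X.Opens, V ≠ ⊥ ∧ IsIso (morphismRestrict f V)) ∧
      ∀ y : Y, ∃ (n : ℕ) (r : List (MvPolynomial (Fin n) k))
        (j : Spec (CommRingCat.of (MvPolynomial (Fin n) k ⧸ Ideal.ofList r)) ⟶ Y),
        RingTheory.Sequence.IsRegular (MvPolynomial (Fin n) k) r ∧ IsOpenImmersion j ∧
        y ∈ Set.range j ∧ j ≫ f ≫ sX = Spec.map (CommRingCat.ofHom
          (algebraMap k (MvPolynomial (Fin n) k ⧸ Ideal.ofList r)))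

end Pool.Agent.MP_19ffc6_ag.Lci

end MrgPart0

-- ======== part 1: formerly Pool.Agent.MP_19ffc6_ag.Lci.BridgeA
section MrgPart1

/-! Module BRIDGE, first part: affine charts that are subalgebras of a field. -/

namespace Pool.Agent.MP_19ffc6_ag.Lci.Bridge

open Pool.Agent.MP_19ffc6_ag.Wild AlgebraicGeometry CategoryTheory Limits TensorProduct

set_option backward.isDefEq.respectTransparency false

/-- `Spec` of a ring homomorphism. -/
noncomputable abbrev sp {R S : Type} [CommRing R] [CommRing S] (f : R →+* S) :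
    Spec (CommRingCat.of S) ⟶ Spec (CommRingCat.of R) := Spec.map (CommRingCat.ofHom f)

lemma sp_comp {R S T : Type} [CommRing R] [CommRing S] [CommRing T] (f : R →+* S) (g : S →+* T) :
    sp g ≫ sp f = sp (g.comp f) := by
  rw [sp, sp, ← Spec.map_comp]; rfl

lemma sp_inj {R S : Type} [CommRing R] [CommRing S] {f g : R →+* S} (h : sp f = sp g) : f = g :=
  congrArg CommRingCat.Hom.hom (Spec.map_injective h)

lemma exists_sp {R S : Type} [CommRing R] [CommRing S]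
    (g : Spec (CommRingCat.of S) ⟶ Spec (CommRingCat.of R)) : ∃ f : R →+* S, sp f = g :=
  ⟨(Spec.preimage g).hom, Spec.map_preimage g⟩

lemma isIso_sp {R S : Type} [CommRing R] [CommRing S] (e : R ≃+* S) : IsIso (sp (e : R →+* S)) :=
  isIso_SpecMap_iff.mpr e.bijective

lemma ker_sp {R S : Type} [CommRing R] [CommRing S] {f : R →+* S} (h : Function.Injective f) :
    (sp f).ker = ⊥ := by
  have h1 : Function.Injective (sp f).appTop := by
    have h2 := Scheme.ΓSpecIso_naturality (CommRingCat.ofHom f)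
    have h3 : Function.Injective ((sp f).appTop ≫ (Scheme.ΓSpecIso (CommRingCat.of S)).hom) := by
      rw [h2]
      exact h.comp (Scheme.ΓSpecIso (CommRingCat.of R)).commRingCatIsoToRingEquiv.injective
    exact Function.Injective.of_comp (f := (Scheme.ΓSpecIso (CommRingCat.of S)).hom) h3
  exact Scheme.IdealSheafData.ext_of_isAffine
    (by simpa [(sp f).ker_apply ⟨⊤, isAffineOpen_top _⟩, ← RingHom.injective_iff_ker_eq_bot])

lemma isDominant_sp {R S : Type} [CommRing R] [CommRing S] {f : R →+* S}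
    (h : Function.Injective f) : IsDominant (sp f) :=
  have : IsSchemeTheoreticallyDominant (sp f) := ⟨ker_sp h⟩
  inferInstance

lemma ker_comap {W U Z : Scheme.{0}} (g : W ⟶ U) (c : U ⟶ Z) [IsOpenImmersion c]
    [QuasiCompact (g ≫ c)] : (g ≫ c).ker.comap c = g.ker := by
  ext1
  funext V
  rw [Scheme.IdealSheafData.ideal_comap_of_isOpenImmersion]
  exact (Scheme.ker_ideal_of_isPullback_of_isOpenImmersion (g ≫ c) g (𝟙 W) c
    (IsPullback.of_horiz_isIso_mono ⟨by simp⟩).flip V).symm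

/-- Charts of the scheme-theoretic image of a field valued point. -/
lemma image_chart {Z : Scheme.{0}} {L B D : Type} [Field L] [CommRing B] [CommRing D]
    (η : Spec (CommRingCat.of L) ⟶ Z) (c : Spec (CommRingCat.of B) ⟶ Z) [IsOpenImmersion c]
    (π : B →+* D) (hπ : Function.Surjective π) (δ : D →+* L) (hδ : Function.Injective δ)
    (h : sp δ ≫ sp π ≫ c = η) :
    ∃ j : Spec (CommRingCat.of D) ⟶ η.image, IsOpenImmersion j ∧ j ≫ η.imageι = sp π ≫ c ∧
      sp δ ≫ j = η.toImage ∧ Set.range j = η.imageι ⁻¹' Set.range c := by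
  have hc : IsClosedImmersion (sp π) := IsClosedImmersion.spec_of_surjective _ hπ
  have h1 : η.imageι.ker ≤ (sp π ≫ c).ker := by
    rw [Scheme.IdealSheafData.ker_subschemeι, ← h, Scheme.Hom.ker_comp (sp δ), ker_sp hδ,
      Scheme.IdealSheafData.map_bot]
  have h2 : η.imageι.ker.comap c = (sp π).ker := by
    rw [Scheme.IdealSheafData.ker_subschemeι, ← h, ← Category.assoc, ker_comap,
      Scheme.Hom.ker_comp, ker_sp hδ, Scheme.IdealSheafData.map_bot]
  let j := IsClosedImmersion.lift η.imageι (sp π ≫ c) h1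
  have hj : j ≫ η.imageι = sp π ≫ c := IsClosedImmersion.lift_fac _ _ _
  have hp := isPullback_of_isClosedImmersion (sp π) η.imageι j c hj.symm h2
  refine ⟨j, MorphismProperty.of_isPullback hp ‹_›, hj, ?_, ?_⟩
  · rw [← cancel_mono η.imageι, Category.assoc, hj, h, Scheme.Hom.toImage_imageι]
  · rw [← hp.isoPullback_hom_snd, Scheme.Hom.comp_base, TopCat.coe_comp, Set.range_comp,
      Set.range_eq_univ.2 hp.isoPullback.hom.surjective, Set.image_univ,
      Scheme.Pullback.range_snd]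

variable {k L : Type} [Field k] [Field L] [Algebra k L]

/-- The generic point of a subalgebra. -/
noncomputable abbrev gp (A : Subalgebra k L) : Spec (CommRingCat.of L) ⟶ Spec (CommRingCat.of A) :=
  sp A.val.toRingHom

/-- The morphism of an inclusion of subalgebras. -/
noncomputable abbrev ic {A B : Subalgebra k L} (h : A ≤ B) :
    Spec (CommRingCat.of B) ⟶ Spec (CommRingCat.of A) := sp (Subalgebra.inclusion h).toRingHom

lemma gp_ic {A B : Subalgebra k L} (h : A ≤ B) : gp B ≫ ic h = gp A := sp_comp _ _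

lemma ic_ic {A B C : Subalgebra k L} (h : A ≤ B) (h' : B ≤ C) : ic h' ≫ ic h = ic (h.trans h') :=
  sp_comp _ _

instance (A : Subalgebra k L) : IsDominant (gp A) := isDominant_sp Subtype.val_injective

lemma over_of_gp {A : Subalgebra k L} (g : Spec (CommRingCat.of A) ⟶ Spec (CommRingCat.of k))
    (h : gp A ≫ g = sp (algebraMap k L)) : g = sp (algebraMap k A) := by
  obtain ⟨θ, rfl⟩ := exists_sp g
  rw [sp_comp] at h
  congr 2
  ext r
  exact RingHom.congr_fun (sp_inj h) r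

/-- `c` is an affine chart of `X` compatible with the generic point `η`. -/
structure IsChart {X : Scheme.{0}} (η : Spec (CommRingCat.of L) ⟶ X) (A : Subalgebra k L)
    (c : Spec (CommRingCat.of A) ⟶ X) : Prop where
  opn : IsOpenImmersion c
  gen : gp A ≫ c = η

section

variable {X : Scheme.{0}} {η : Spec (CommRingCat.of L) ⟶ X} {sX : X ⟶ Spec (CommRingCat.of k)}

lemma IsChart.over {A : Subalgebra k L} {c : Spec (CommRingCat.of A) ⟶ X} (h : IsChart η A c)
    (hη : η ≫ sX = sp (algebraMap k L)) : c ≫ sX = sp (algebraMap k A) :=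
  over_of_gp _ (by rw [← Category.assoc, h.gen, hη])

lemma IsChart.fg {A : Subalgebra k L} {c : Spec (CommRingCat.of A) ⟶ X} (h : IsChart η A c)
    (hη : η ≫ sX = sp (algebraMap k L)) [LocallyOfFiniteType sX] : A.FG := by
  have := h.opn
  have h1 : LocallyOfFiniteType (c ≫ sX) := inferInstance
  rw [h.over hη, HasRingHomProperty.Spec_iff (P := @LocallyOfFiniteType)] at h1
  exact (Subalgebra.fg_iff_finiteType _).2 (RingHom.finiteType_algebraMap.1 h1)

lemma chart_of_injective {R : Type} [CommRing R] (c : Spec (CommRingCat.of R) ⟶ X)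
    [IsOpenImmersion c] (φ : R →+* L) (hφ : Function.Injective φ) (h : sp φ ≫ c = η)
    (A : Subalgebra k L) (hA : ∀ x, x ∈ A ↔ ∃ r, φ r = x) :
    ∃ c', IsChart η A c' ∧ Set.range c' = Set.range c := by
  let e : R ≃+* A := RingEquiv.ofBijective (φ.codRestrict A fun r => (hA _).2 ⟨r, rfl⟩)
    ⟨fun x y hxy => hφ (congrArg Subtype.val hxy), fun x => by
      obtain ⟨r, hr⟩ := (hA x).1 x.2
      exact ⟨r, Subtype.ext hr⟩⟩
  have := isIso_sp e
  refine ⟨sp (e : R →+* A) ≫ c, ⟨inferInstance, ?_⟩, ?_⟩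
  · rw [← Category.assoc, sp_comp, ← h]; rfl
  · rw [Scheme.Hom.comp_base, TopCat.coe_comp, Set.range_comp,
      Set.range_eq_univ.2 (sp (e : R →+* A)).surjective, Set.image_univ]

lemma chart_of_injective' {R : Type} [CommRing R] (c : Spec (CommRingCat.of R) ⟶ X)
    [IsOpenImmersion c] (φ : R →+* L) (hφ : Function.Injective φ) (h : sp φ ≫ c = η)
    (hη : η ≫ sX = sp (algebraMap k L)) :
    ∃ (A : Subalgebra k L) (c' : _), IsChart η A c' ∧ Set.range c' = Set.range c ∧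
      ∀ x, x ∈ A ↔ ∃ r, φ r = x := by
  obtain ⟨θ, hθ⟩ := exists_sp (c ≫ sX)
  have h1 : φ.comp θ = algebraMap k L := sp_inj (by
    rw [← sp_comp, hθ, ← Category.assoc, h, hη])
  let A : Subalgebra k L :=
    { φ.rangeS with algebraMap_mem' := fun r => ⟨θ r, RingHom.congr_fun h1 r⟩ }
  obtain ⟨c', h2, h3⟩ := chart_of_injective c φ hφ h A fun _ => Iff.rfl
  exact ⟨A, c', h2, h3, fun _ => Iff.rfl⟩

end

/-- Charts of the closure of the generic point in a product. -/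
lemma prod_chart {X P : Scheme.{0}} {η : Spec (CommRingCat.of L) ⟶ X}
    {sX : X ⟶ Spec (CommRingCat.of k)} {ζ : Spec (CommRingCat.of L) ⟶ P}
    {sP : P ⟶ Spec (CommRingCat.of k)} (hη : η ≫ sX = sp (algebraMap k L))
    (hζ : ζ ≫ sP = sp (algebraMap k L)) {A C : Subalgebra k L}
    {c : Spec (CommRingCat.of A) ⟶ X} {κ : Spec (CommRingCat.of C) ⟶ P}
    (hc : IsChart η A c) (hκ : IsChart ζ C κ) :
    ∃ j, IsChart (pullback.lift η ζ (hη.trans hζ.symm)).toImage (A ⊔ C) j ∧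
      j ≫ (pullback.lift η ζ (hη.trans hζ.symm)).imageι ≫ pullback.fst sX sP =
        ic le_sup_left ≫ c ∧
      ∀ y, pullback.fst sX sP ((pullback.lift η ζ (hη.trans hζ.symm)).imageι y) ∈ Set.range c →
        pullback.snd sX sP ((pullback.lift η ζ (hη.trans hζ.symm)).imageι y) ∈ Set.range κ →
        y ∈ Set.range j := by
  have := hc.opn
  have := hκ.opn
  let m := pullback.map (sp (algebraMap k A)) (sp (algebraMap k C)) sX sP c κ (𝟙 _)
    (by rw [hc.over hη, Category.comp_id]) (by rw [hκ.over hζ, Category.comp_id])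
  let b := (pullbackSpecIso k A C).inv ≫ m
  have hb1 : sp (A.mulMap' C).toRingHom ≫ b ≫ pullback.fst sX sP = ic le_sup_left ≫ c := by
    simp only [b, m, Category.assoc, pullback.lift_fst]
    rw [pullbackSpecIso_inv_fst_assoc, ← Category.assoc, sp_comp]
    congr 3
    ext x
    simp
  have hb2 : sp (A.mulMap' C).toRingHom ≫ b ≫ pullback.snd sX sP = ic le_sup_right ≫ κ := by
    simp only [b, m, Category.assoc, pullback.lift_snd]
    rw [pullbackSpecIso_inv_snd_assoc, ← Category.assoc, sp_comp]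
    congr 3
    ext x
    simp
  obtain ⟨j, h1, h2, h3, h4⟩ := image_chart (pullback.lift η ζ (hη.trans hζ.symm)) b
    (A.mulMap' C).toRingHom (A.mulMap'_surjective C) (A ⊔ C).val.toRingHom Subtype.val_injective
    (by
      apply pullback.hom_ext
      · simp only [Category.assoc, pullback.lift_fst]
        rw [hb1, ← Category.assoc, gp_ic, hc.gen]
      · simp only [Category.assoc, pullback.lift_snd]
        rw [hb2, ← Category.assoc, gp_ic, hκ.gen])
  refine ⟨j, ⟨h1, h3⟩, by rw [← Category.assoc, h2, Category.assoc, hb1], fun y hy hy' => ?_⟩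
  rw [h4, Set.mem_preimage, Scheme.Hom.comp_base, TopCat.coe_comp, Set.range_comp,
    Set.range_eq_univ.2 (pullbackSpecIso k A C).inv.surjective, Set.image_univ,
    Scheme.Pullback.range_map]
  exact ⟨hy, hy'⟩

/-- Inverting one element gives an open immersion. -/
lemma away {D W : Subalgebra k L} (hD : D ≤ W) {h : L} (hh : h ∈ D) (h0 : h ≠ 0) (h1 : h⁻¹ ∈ W)
    (h2 : W ≤ adj D h⁻¹) : IsOpenImmersion (ic hD) ∧
      ∀ q : PrimeSpectrum D, q ∈ Set.range (ic hD) ↔ (⟨h, hh⟩ : D) ∉ q.asIdeal := by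
  let _ := (Subalgebra.inclusion hD).toRingHom.toAlgebra
  let Z : Subalgebra k L :=
    { carrier := {x | ∃ n : ℕ, x * h ^ n ∈ D}
      mul_mem' := by
        rintro x y ⟨n, hn⟩ ⟨m, hm⟩
        exact ⟨n + m, by convert mul_mem hn hm using 1; ring⟩
      add_mem' := by
        rintro x y ⟨n, hn⟩ ⟨m, hm⟩
        exact ⟨n + m, by
          convert add_mem (mul_mem hn (pow_mem hh m)) (mul_mem hm (pow_mem hh n)) using 1; ring⟩
      algebraMap_mem' := fun r => ⟨0, by simp⟩ }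
  have hZ : W ≤ Z := h2.trans (adj_le (fun x hx => ⟨0, by simpa using hx⟩)
    ⟨1, by rw [pow_one, inv_mul_cancel₀ h0]; exact one_mem _⟩)
  have : IsLocalization.Away (⟨h, hh⟩ : D) W := by
    refine IsLocalization.Away.mk _ ((isUnit_iff_un _).2 ⟨hD hh, h0, h1⟩) (fun y => ?_)
      (fun {b c} hbc => ⟨0, ?_⟩)
    · obtain ⟨n, hn⟩ := hZ y.2
      exact ⟨n, ⟨_, hn⟩, Subtype.ext rfl⟩
    · rw [show b = c from Subtype.ext (congrArg Subtype.val hbc :)]
  refine ⟨IsOpenImmersion.of_isLocalization (⟨h, hh⟩ : D), fun q => ?_⟩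
  have h3 := PrimeSpectrum.localization_away_comap_range W (⟨h, hh⟩ : D)
  exact Set.ext_iff.1 h3 q

/-- The local ring at a prime, as a subalgebra of the field. -/
lemma exists_point (D : Subalgebra k L) (q : PrimeSpectrum D) :
    ∃ O, IsPoint D O ∧ ∀ x : D, Un O x → x ∉ q.asIdeal := by
  have hq := q.isPrime
  have hne : ∀ {b : D}, b ∉ q.asIdeal → (b : L) ≠ 0 := fun {b} hb e =>
    hb (by rw [show b = 0 from Subtype.ext e]; exact zero_mem _)
  have hmul : ∀ {b b' : D}, b ∉ q.asIdeal → b' ∉ q.asIdeal → b * b' ∉ q.asIdeal :=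
    fun hb hb' e => (hq.mem_or_mem e).elim hb hb'
  let O : Subalgebra k L :=
    { carrier := {x | ∃ a b : D, b ∉ q.asIdeal ∧ x = a / b}
      mul_mem' := by
        rintro _ _ ⟨a, b, hb, rfl⟩ ⟨a', b', hb', rfl⟩
        exact ⟨a * a', b * b', hmul hb hb', div_mul_div_comm _ _ _ _⟩
      add_mem' := by
        rintro _ _ ⟨a, b, hb, rfl⟩ ⟨a', b', hb', rfl⟩
        exact ⟨a * b' + b * a', b * b', hmul hb hb', div_add_div _ _ (hne hb) (hne hb')⟩
      algebraMap_mem' := fun r => ⟨algebraMap k D r, 1, hq.one_notMem, by simp⟩ }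
  have hun : ∀ a b : D, b ∉ q.asIdeal → (Un O ((a : L) / b) ↔ a ∉ q.asIdeal) := by
    intro a b hb
    constructor
    · rintro ⟨-, h0, a', b', hb', e⟩ ha
      have ha0 : (a : L) ≠ 0 := fun h => h0 (by simp [h])
      have : b * b' = a * a' := Subtype.ext (by
        have h3 := hne hb'
        rw [inv_div, div_eq_div_iff ha0 h3] at e
        simpa [mul_comm] using e)
      exact hmul hb hb' (this ▸ Ideal.mul_mem_right _ _ ha)
    · intro ha
      exact ⟨⟨a, b, hb, rfl⟩, div_ne_zero (hne ha) (hne hb), b, a, ha, inv_div _ _⟩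
  have hun1 : ∀ a : D, Un O (a : L) ↔ a ∉ q.asIdeal := fun a => by
    simpa using hun a 1 hq.one_notMem
  refine ⟨O, ⟨fun x hx => ⟨⟨x, hx⟩, 1, hq.one_notMem, by simp⟩, ?_, ?_⟩, fun x => (hun1 x).1⟩
  · rintro _ ⟨a, b, hb, rfl⟩ _ ⟨a', b', hb', rfl⟩ hxy
    rw [div_add_div _ _ (hne hb) (hne hb')] at hxy
    have h1 := (hun (a * b' + b * a') (b * b') (hmul hb hb')).1 hxy
    rw [hun _ _ hb, hun _ _ hb']
    by_contra H
    push Not at H
    exact h1 (add_mem (Ideal.mul_mem_right _ _ H.1) (Ideal.mul_mem_left _ _ H.2))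
  · rintro _ ⟨a, b, hb, rfl⟩
    exact ⟨a, a.2, b, b.2, (hun1 b).2 hb, rfl⟩

end Pool.Agent.MP_19ffc6_ag.Lci.Bridge

end MrgPart1

-- ======== part 2: formerly Pool.Agent.MP_19ffc6_ag.Lci.BridgeB
section MrgPart2

/-! Module BRIDGE, second part: the charts of a projective model and of an integral scheme. -/

namespace Pool.Agent.MP_19ffc6_ag.Lci.Bridge

open Pool.Agent.MP_19ffc6_ag.Wild AlgebraicGeometry CategoryTheory Limits HomogeneousLocalization
open Pool.Agent.MP_19ffc6_ag.Lin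

set_option backward.isDefEq.respectTransparency false

variable {k L : Type} [Field k] [Field L] [Algebra k L]

section Away

variable {σ S : Type} [CommRing S] [SetLike σ S] [AddSubgroupClass σ S] (𝒜 : ℕ → σ)
  [GradedRing 𝒜] (ev : S →+* L)

/-- The standard chart of `Proj` inside `L`. -/
noncomputable def toF (f : S) (hf : ev f ≠ 0) : Away 𝒜 f →+* L :=
  (IsLocalization.Away.lift f (g := ev) (Ne.isUnit hf)).comp
    (algebraMap (Away 𝒜 f) (Localization.Away f))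

lemma toF_mk {f : S} (hf : ev f ≠ 0) {d : ℕ} (hd : f ∈ 𝒜 d) (n : ℕ)
    (x : S) (hx : x ∈ 𝒜 (n • d)) :
    toF 𝒜 ev f hf (Away.mk _ hd n x hx) = ev x / ev f ^ n := by
  simp only [toF, RingHom.comp_apply, HomogeneousLocalization.algebraMap_apply, Away.val_mk,
    Localization.mk_eq_mk']
  rw [IsLocalization.Away.lift, IsLocalization.lift_mk'_spec]
  simp only [map_pow]
  rw [mul_div_cancel₀ _ (pow_ne_zero _ hf)]

lemma toF_zero {f : S} (hf : ev f ≠ 0) (a : 𝒜 0) :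
    toF 𝒜 ev f hf (fromZeroRingHom _ _ a) = ev a := by
  have : (algebraMap (Away 𝒜 f) (Localization.Away f))
      (fromZeroRingHom _ _ a) = algebraMap S _ a := rfl
  rw [toF, RingHom.comp_apply, this, IsLocalization.Away.lift_eq]

lemma toF_injective (hev : ∀ n, ∀ x ∈ 𝒜 n, ev x = 0 → x = 0) {f : S} (hf : ev f ≠ 0) {d : ℕ}
    (hd : f ∈ 𝒜 d) : Function.Injective (toF 𝒜 ev f hf) := by
  rw [injective_iff_map_eq_zero]
  intro z hz
  obtain ⟨n, x, hx, rfl⟩ := Away.mk_surjective _ hd z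
  rw [toF_mk, div_eq_zero_iff, or_iff_left (pow_ne_zero _ hf)] at hz
  exact mk_eq_zero_of_num _ (Subtype.ext (hev _ _ hx hz))

lemma toF_awayι_mul {f g x : S} (hf : ev f ≠ 0) (hg : ev g ≠ 0) (hf1 : f ∈ 𝒜 1) (hg1 : g ∈ 𝒜 1)
    (hx : x = f * g) (hx0 : ev x ≠ 0) (hx2 : x ∈ 𝒜 (1 + 1)) :
    sp (toF 𝒜 ev f hf) ≫ Proj.awayι 𝒜 f hf1 one_pos =
      sp (toF 𝒜 ev x hx0) ≫ Proj.awayι 𝒜 x hx2 two_pos := by
  rw [← Proj.SpecMap_awayMap_awayι 𝒜 hf1 one_pos hg1 hx, ← Category.assoc, sp_comp]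
  congr 3
  ext z
  obtain ⟨n, a, ha, rfl⟩ := Away.mk_surjective _ hf1 z
  rw [RingHom.comp_apply, awayMap_mk, toF_mk, toF_mk, hx, map_mul, map_mul, map_pow, mul_pow,
    mul_div_mul_right _ _ (pow_ne_zero _ hg)]

lemma toF_awayι {f g : S} (hf : ev f ≠ 0) (hg : ev g ≠ 0) (hf1 : f ∈ 𝒜 1) (hg1 : g ∈ 𝒜 1) :
    sp (toF 𝒜 ev f hf) ≫ Proj.awayι 𝒜 f hf1 one_pos =
      sp (toF 𝒜 ev g hg) ≫ Proj.awayι 𝒜 g hg1 one_pos := by
  have h0 : ev (f * g) ≠ 0 := by rw [map_mul]; exact mul_ne_zero hf hg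
  rw [toF_awayι_mul 𝒜 ev hf hg hf1 hg1 rfl h0 (SetLike.mul_mem_graded hf1 hg1),
    toF_awayι_mul 𝒜 ev hg hf hg1 hf1 (mul_comm f g) h0 (SetLike.mul_mem_graded hf1 hg1)]

lemma proj_abstract [Algebra.FiniteType (𝒜 0) S] {ι : Type} (g : ι → S) (hg : ∀ m, g m ∈ 𝒜 1)
    (hg0 : ∀ m, ev (g m) ≠ 0) (hinj : ∀ n, ∀ x ∈ 𝒜 n, ev x = 0 → x = 0) (z : k →+* 𝒜 0)
    (hzb : Function.Bijective z) (hz : ∀ r, ev (z r) = algebraMap k L r)
    (hcov : ∀ x : Proj 𝒜, ∃ m, g m ∉ x.asHomogeneousIdeal) (C : ι → Subalgebra k L)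
    (hC : ∀ m n, ∀ a ∈ 𝒜 n, ev a / ev (g m) ^ n ∈ C m)
    (hC' : ∀ m (Z : Subalgebra k L), (∀ m', ev (g m') / ev (g m) ∈ Z) → C m ≤ Z) (m0 : ι) :
    ∃ (P : Scheme.{0}) (sP : P ⟶ Spec (CommRingCat.of k)) (ζ : Spec (CommRingCat.of L) ⟶ P)
      (κ : ∀ m, Spec (CommRingCat.of (C m)) ⟶ P),
      IsProper sP ∧ ζ ≫ sP = sp (algebraMap k L) ∧ (∀ m, IsChart ζ _ (κ m)) ∧
        ∀ x, ∃ m, x ∈ Set.range (κ m) := by
  have hiso : IsIso (sp z) := isIso_SpecMap_iff.mpr hzb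
  let ζ := sp (toF 𝒜 ev _ (hg0 m0)) ≫ Proj.awayι 𝒜 _ (hg m0) one_pos
  have hz' : ∀ m (r : k), toF 𝒜 ev _ (hg0 m) (fromZeroRingHom _ _ (z r)) = algebraMap k L r :=
    fun m r => by rw [toF_zero, hz]
  have hch : ∀ m, ∃ c', IsChart ζ (C m) c' ∧
      Set.range c' = Set.range (Proj.awayι 𝒜 _ (hg m) one_pos) := fun m => by
    refine chart_of_injective _ (toF 𝒜 ev _ (hg0 m)) (toF_injective 𝒜 ev hinj _ (hg m))
      (toF_awayι 𝒜 ev _ _ _ _) _ fun x => ⟨fun hx => ?_, ?_⟩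
    · let Z : Subalgebra k L :=
        { (toF 𝒜 ev _ (hg0 m)).rangeS with algebraMap_mem' := fun r => ⟨_, hz' m r⟩ }
      refine hC' m Z (fun m' => ?_) hx
      exact ⟨Away.mk _ (hg m) 1 (g m') (by simpa using hg m'), by rw [toF_mk, pow_one]⟩
    · rintro ⟨y, rfl⟩
      obtain ⟨n, a, ha, rfl⟩ := Away.mk_surjective _ (hg m) y
      rw [toF_mk]
      exact hC m n a (by simpa using ha)
  choose κ hκ hκ' using hch
  refine ⟨Proj 𝒜, Proj.toSpecZero 𝒜 ≫ sp z, ζ, κ, inferInstance, ?_, hκ, fun x => ?_⟩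
  · simp only [ζ, Category.assoc]
    rw [Proj.awayι_toSpecZero_assoc, sp_comp, sp_comp]
    congr 2
    ext r
    exact hz' m0 r
  · obtain ⟨m, hm⟩ := hcov x
    refine ⟨m, ?_⟩
    rw [hκ']
    change x ∈ (Proj.awayι 𝒜 _ (hg m) one_pos).opensRange
    rw [Proj.opensRange_awayι]
    exact hm

end Away

/-- The projective model of a finite set of nonzero elements. -/
lemma proj_model (T : Set L) (hT : T.Finite) (h0 : ∀ m ∈ T, m ≠ 0) (m0 : T) :
    ∃ (P : Scheme.{0}) (sP : P ⟶ Spec (CommRingCat.of k)) (ζ : Spec (CommRingCat.of L) ⟶ P)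
      (κ : ∀ m : T, Spec (CommRingCat.of (chart ⊥ (Submodule.span k T) (m : L))) ⟶ P),
      IsProper sP ∧ ζ ≫ sP = sp (algebraMap k L) ∧ (∀ m, IsChart ζ _ (κ m)) ∧
        ∀ x, ∃ m, x ∈ Set.range (κ m) := by
  obtain ⟨ev, hev⟩ : ∃ ev : coord (Algebra.ofId k L) T →+* L, ∀ y, ev y = evN k (1 : L) y :=
    ⟨(evN k (1 : L)).toRingHom.comp (coord (Algebra.ofId k L) T).val.toRingHom, fun _ => rfl⟩
  have hgen : ∀ m : T, ev (gen _ m) = m := fun m => by rw [hev, evN_gen, mul_one]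
  have := hT.to_subtype
  have : Algebra.FiniteType (coordGr (Algebra.ofId k L) T 0) (coord (Algebra.ofId k L) T) :=
    ⟨⟨(Set.finite_range (gen (Algebra.ofId k L) (M := T))).toFinset, by simpa using adjoin_gen⟩⟩
  refine proj_abstract (coordGr (Algebra.ofId k L) T) ev (gen _) gen_mem
    (fun m => by rw [hgen]; exact h0 m m.2)
    (fun n x hx h => evN_inj one_ne_zero hx (zero_mem _) (by rw [← hev, h]; simp))
    (toZero _ T) (toZero_bijective (algebraMap k L).injective)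
    (fun r => by rw [hev, coe_toZero, evN_single, one_pow, mul_one]; rfl) exists_gen_notMem _
    (fun m n a ha => ?_) (fun m Z hZ => chart_le bot_le fun y hy => ?_) m0
  · have h1 := evN_mem (m : L)⁻¹ (chart ⊥ (Submodule.span k T) (m : L))
      (fun r => Subalgebra.algebraMap_mem _ r)
      (fun y hy => by
        rw [← div_eq_mul_inv]; exact div_mem_chart _ _ (Submodule.subset_span hy)) a
    rw [hgen, hev]
    rw [eq_single_of_mem ha, evN_single] at h1 ⊢
    simpa [div_eq_mul_inv] using h1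
  · induction hy using Submodule.span_induction with
    | mem y hy => simpa only [hgen] using hZ ⟨y, hy⟩
    | zero => simp
    | add a b _ _ ha hb => rw [add_div]; exact add_mem ha hb
    | smul c a _ ha => rw [smul_div_assoc]; exact Z.smul_mem ha c

/-- A finite atlas of an integral scheme inside its function field. -/
lemma exists_atlas (X : Scheme.{0}) [IsIntegral X] (sX : X ⟶ Spec (CommRingCat.of k))
    [QuasiCompact sX] :
    ∃ (K : Type) (_ : Field K) (_ : Algebra k K) (η : Spec (CommRingCat.of K) ⟶ X) (ι : Type)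
      (_ : Finite ι) (A : ι → Subalgebra k K) (c : ∀ i, Spec (CommRingCat.of (A i)) ⟶ X),
      η ≫ sX = sp (algebraMap k K) ∧ (∀ i, IsChart η _ (c i)) ∧ (∀ x, ∃ i, x ∈ Set.range (c i)) ∧
        ∀ i x, ∃ b ∈ A i, b ≠ 0 ∧ b * x ∈ A i := by
  have : CompactSpace X := QuasiCompact.compactSpace_of_compactSpace sX
  obtain ⟨s, hs, hs'⟩ := (isCompact_iff_finite_and_eq_biUnion_affineOpens (U := (⊤ : X.Opens))).1
    isCompact_univ
  let η : Spec (CommRingCat.of X.functionField) ⟶ X := X.fromSpecStalk (genericPoint X)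
  obtain ⟨θ, hθ⟩ := exists_sp (η ≫ sX)
  let _ : Algebra k X.functionField := θ.toAlgebra
  have hch : ∀ U : {U : X.affineOpens // U ∈ s ∧ Nonempty U.1},
      ∃ (A : Subalgebra k X.functionField) (c : _), IsChart η A c ∧ Set.range c = U.1.1 ∧
        ∀ x, ∃ b ∈ A, b ≠ 0 ∧ b * x ∈ A := by
    rintro ⟨U, -, hU⟩
    obtain ⟨A, c, h1, h2, h3⟩ := chart_of_injective' (sX := sX) (η := η)
      (R := Γ(X, U)) U.2.fromSpec (X.germToFunctionField U).hom
      (X.germToFunctionField_injective U) (U.2.fromSpecStalk_eq_fromSpecStalk _) hθ.symm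
    refine ⟨A, c, h1, h2.trans U.2.range_fromSpec, fun x => ?_⟩
    have := functionField_isFractionRing_of_isAffineOpen X U U.2
    obtain ⟨a, b, hb, rfl⟩ := IsFractionRing.div_surjective (A := Γ(X, U)) x
    have hb0 : algebraMap Γ(X, U) X.functionField b ≠ 0 :=
      IsFractionRing.to_map_ne_zero_of_mem_nonZeroDivisors hb
    exact ⟨algebraMap _ _ b, (h3 _).2 ⟨b, rfl⟩, hb0, by
      rw [mul_div_cancel₀ _ hb0]; exact (h3 _).2 ⟨a, rfl⟩⟩
  choose A c h1 h2 h3 using hch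
  refine ⟨X.functionField, inferInstance, inferInstance, η, _, ?_, A, c, hθ.symm, h1, fun x => ?_,
    h3⟩
  · exact (hs.subset fun U hU => hU.1).to_subtype
  · have hx : x ∈ (⊤ : X.Opens) := trivial
    rw [hs'] at hx
    simp only [TopologicalSpace.Opens.mem_iSup] at hx
    obtain ⟨U, hU, hxU⟩ := hx
    exact ⟨⟨U, hU, ⟨⟨x, hxU⟩⟩⟩, by rw [h2]; exact hxU⟩

end Pool.Agent.MP_19ffc6_ag.Lci.Bridge

end MrgPart2

-- ======== part 3: formerly Pool.Agent.MP_19ffc6_ag.Lci.Bridge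
section MrgPart3

/-! Module BRIDGE: from the algebraic form of the main theorem to schemes. -/

namespace Pool.Agent.MP_19ffc6_ag.Lci

open Pool.Agent.MP_19ffc6_ag.Wild AlgebraicGeometry CategoryTheory Limits

set_option backward.isDefEq.respectTransparency false

namespace Bridge

variable {k L : Type} [Field k] [Field L] [Algebra k L]

lemma isIntegral_of_charts {Y : Scheme.{0}} (η : Spec (CommRingCat.of L) ⟶ Y) [IsDominant η]
    (h : ∀ y : Y, ∃ (D : Subalgebra k L) (j : _), IsChart η D j ∧ y ∈ Set.range j) :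
    IsIntegral Y := by
  have (y : Y) : _root_.IsReduced (Y.presheaf.stalk y) := by
    obtain ⟨D, j, hj, x, rfl⟩ := h y
    have := hj.opn
    exact isReduced_of_injective _ (asIso <| j.stalkMap x).commRingCatIsoToRingEquiv.injective
  have := isReduced_of_isReduced_stalk Y
  have : IrreducibleSpace Y := by
    rw [irreducibleSpace_def, Set.top_eq_univ, ← η.denseRange.closure_range, ← Set.image_univ]
    exact ((IrreducibleSpace.isIrreducible_univ _).image _ η.continuous.continuousOn).closure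
  exact isIntegral_of_irreducibleSpace_of_isReduced _

/-- A point of a chart with a complete intersection neighbourhood. -/
lemma lci_chart {Y : Scheme.{0}} {η : Spec (CommRingCat.of L) ⟶ Y}
    {sY : Y ⟶ Spec (CommRingCat.of k)} (hη : η ≫ sY = sp (algebraMap k L)) {D : Subalgebra k L}
    {j : Spec (CommRingCat.of D) ⟶ Y} (hj : IsChart η D j)
    (hD : ∀ O, IsPoint D O → ∃ h ∈ D, Un O h ∧ GCI k (adj D h⁻¹)) (y : Y) (hy : y ∈ Set.range j) :
    ∃ (n : ℕ) (r : List (MvPolynomial (Fin n) k))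
      (i : Spec (CommRingCat.of (MvPolynomial (Fin n) k ⧸ Ideal.ofList r)) ⟶ Y),
      RingTheory.Sequence.IsRegular (MvPolynomial (Fin n) k) r ∧ IsOpenImmersion i ∧
      y ∈ Set.range i ∧ i ≫ sY = Spec.map (CommRingCat.ofHom
        (algebraMap k (MvPolynomial (Fin n) k ⧸ Ideal.ofList r))) := by
  obtain ⟨q, rfl⟩ := hy
  obtain ⟨O, hO, hq⟩ := exists_point D q
  obtain ⟨h, hh, hu, n, r, φ, hr, hφ, hker⟩ := hD O hO
  obtain ⟨h1, h2⟩ := away (le_adj D h⁻¹) hh hu.2.1 (self_mem_adj _ _) le_rfl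
  obtain ⟨q', rfl⟩ := (h2 q).2 (hq ⟨h, hh⟩ hu)
  let e : (MvPolynomial (Fin n) k ⧸ Ideal.ofList r) ≃ₐ[k] adj D h⁻¹ :=
    (Ideal.quotientEquivAlgOfEq k hker.symm).trans (Ideal.quotientKerAlgEquivOfSurjective hφ)
  obtain ⟨ε, hε, hε'⟩ : ∃ ε : adj D h⁻¹ →+* (MvPolynomial (Fin n) k ⧸ Ideal.ofList r),
      IsIso (sp ε) ∧ ε.comp (algebraMap k _) = algebraMap k _ :=
    ⟨_, isIso_sp e.symm.toRingEquiv, RingHom.ext e.symm.commutes⟩
  have := hj.opn
  have h4 : IsChart η _ (ic (le_adj D h⁻¹) ≫ j) :=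
    ⟨inferInstance, by rw [← Category.assoc, gp_ic, hj.gen]⟩
  refine ⟨n, r, sp ε ≫ ic (le_adj D h⁻¹) ≫ j, ⟨hr, ?_⟩, inferInstance, ?_, ?_⟩
  · intro H
    rw [smul_eq_mul, Ideal.mul_top, ← hker] at H
    have h5 : (1 : MvPolynomial (Fin n) k) ∈ RingHom.ker φ := H ▸ Submodule.mem_top
    rw [RingHom.mem_ker, map_one] at h5
    exact one_ne_zero h5
  · obtain ⟨q'', rfl⟩ := (sp ε).surjective q'
    exact ⟨q'', by simp⟩
  · rw [Category.assoc, h4.over hη, sp_comp, hε']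

/-- Birationality from a common localization of all charts over one chart of the base. -/
lemma birational {X Y : Scheme.{0}} (f : Y ⟶ X) [IsSeparated f]
    {ζ : Spec (CommRingCat.of L) ⟶ Y} {A : Subalgebra k L} (c : Spec (CommRingCat.of A) ⟶ X)
    [IsOpenImmersion c] {a : L} (ha : a ∈ A) (ha0 : a ≠ 0) {ι : Type} (m0 : ι)
    (D : ι → Subalgebra k L) (hAD : ∀ m, A ≤ D m) (hDW : ∀ m, D m ≤ adj A a⁻¹)
    (j : ∀ m, Spec (CommRingCat.of (D m)) ⟶ Y) (hj : ∀ m, IsChart ζ _ (j m))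
    (hjf : ∀ m, j m ≫ f = ic (hAD m) ≫ c)
    (hcov : ∀ y, f y ∈ Set.range c → ∃ m, y ∈ Set.range (j m)) :
    ∃ V : X.Opens, V ≠ ⊥ ∧ IsIso (morphismRestrict f V) := by
  obtain ⟨h1, h2⟩ := away (le_adj A a⁻¹) ha ha0 (self_mem_adj _ _) le_rfl
  have h3 := fun m => away (hDW m) (hAD m ha) ha0 (self_mem_adj _ _)
    (adj_le ((hAD m).trans (le_adj _ _)) (self_mem_adj _ _))
  have hw : ∀ m, (ic (hDW m) ≫ j m) ≫ f = ic (le_adj A a⁻¹) ≫ c := fun m => by
    rw [Category.assoc, hjf, ← Category.assoc, ic_ic]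
  have hw' : ∀ m, ic (hDW m) ≫ j m = ic (hDW m0) ≫ j m0 := fun m =>
    ext_of_isDominant_of_isSeparated f ((hw m).trans (hw m0).symm) (gp _) (by
      rw [← Category.assoc, ← Category.assoc, gp_ic, gp_ic, (hj m).gen, (hj m0).gen])
  have := (h3 m0).1
  have := (hj m0).opn
  obtain ⟨w, hwe⟩ : ∃ w, w = ic (hDW m0) ≫ j m0 := ⟨_, rfl⟩
  have : IsOpenImmersion w := hwe ▸ inferInstance
  have hwf : w ≫ f = ic (le_adj A a⁻¹) ≫ c := hwe ▸ hw m0
  have : IsOpenImmersion (w ≫ f) := hwf ▸ inferInstance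
  let V := (w ≫ f).opensRange
  have hr1 : Set.range (w ≫ f) = Set.range V.ι := by rw [Scheme.Opens.range_ι]; rfl
  have hr2 : Set.range w = Set.range (f ⁻¹ᵁ V).ι := by
    rw [Scheme.Opens.range_ι]
    apply le_antisymm
    · rintro _ ⟨y, rfl⟩
      exact ⟨y, rfl⟩
    · rintro y ⟨q, hq⟩
      rw [hwf] at hq
      obtain ⟨m, q', rfl⟩ := hcov y ⟨_, hq⟩
      have h4 : ic (hAD m) q' = ic (le_adj A a⁻¹) q := by
        apply c.isOpenEmbedding.injective
        rw [← Scheme.Hom.comp_apply, ← hjf, ← Scheme.Hom.comp_apply, hq, Scheme.Hom.comp_apply]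
      obtain ⟨q'', rfl⟩ := ((h3 m).2 q').2 ((h2 (ic (hAD m) q')).1 ⟨q, h4.symm⟩)
      exact ⟨q'', by rw [hwe, ← hw' m, Scheme.Hom.comp_apply]⟩
  refine ⟨V, fun hV => ?_, ?_⟩
  · have h5 : (w ≫ f) (⟨⊥, Ideal.isPrime_bot⟩ : PrimeSpectrum (adj A a⁻¹)) ∈ V := ⟨_, rfl⟩
    rw [hV] at h5
    exact h5
  · have : (IsOpenImmersion.isoOfRangeEq w (f ⁻¹ᵁ V).ι hr2).hom ≫ f ∣_ V =
        (IsOpenImmersion.isoOfRangeEq (w ≫ f) V.ι hr1).hom := by
      rw [← cancel_mono V.ι]; simp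
    exact IsIso.of_isIso_fac_left this

lemma exists_denom (A : Subalgebra k L) {κ : Type} [Finite κ] (t : κ → L)
    (h : ∀ x, ∃ b ∈ A, b ≠ 0 ∧ b * t x ∈ A) : ∃ a ∈ A, a ≠ 0 ∧ ∀ x, t x ∈ adj A a⁻¹ := by
  classical
  choose b hb hb0 hbt using h
  have := Fintype.ofFinite κ
  have h0 : ∏ x, b x ≠ 0 := Finset.prod_ne_zero_iff.2 fun x _ => hb0 x
  refine ⟨∏ x, b x, prod_mem fun x _ => hb x, h0, fun x => ?_⟩
  have h1 : (∏ x, b x) * t x ∈ A := by
    rw [← Finset.mul_prod_erase _ _ (Finset.mem_univ x), mul_right_comm]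
    exact mul_mem (hbt x) (prod_mem fun x _ => hb x)
  have h2 := mul_mem (self_mem_adj A (∏ x, b x)⁻¹) (le_adj A _ h1)
  rwa [inv_mul_cancel_left₀ h0] at h2

lemma pt_of_cmp {A O : Subalgebra k L} {M : Submodule k L} {m : L} (hm : m ∈ M) (hm0 : m ≠ 0)
    (hO : IsPoint (A ⊔ chart ⊥ M m) O) {S : Set L} (hA : A ≤ Algebra.adjoin k S)
    (hS : ∀ r ∈ S, r ∈ A) (h : ∀ O', Pt ⊥ M O' → ∀ r ∈ S, r ∈ O' ∨ r⁻¹ ∈ O') : Pt ⊥ M O := by
  have h1 : chart ⊥ M m ≤ O := le_sup_right.trans hO.le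
  refine ⟨m, hm, hm0, hO.of_le_loc h1 (sup_le (hA.trans (Algebra.adjoin_le fun r hr => ?_))
    (le_loc _ _))⟩
  rcases h _ ⟨m, hm, hm0, isPoint_loc h1 hO.lcl⟩ r hr with h2 | h2
  · exact h2
  by_cases h0 : r = 0
  · rw [h0]; exact zero_mem _
  have h3 : r ∈ O := hO.le ((le_sup_left : A ≤ _) (hS r hr))
  simpa using inv_mem_loc h2 ⟨loc_le h1 h2, inv_ne_zero h0, by simpa using h3⟩

end Bridge

open Bridge in
theorem main_of (hM : ModelStmt) : MainStmt := by
  intro k _ X sX hint _ hlft hqc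
  obtain ⟨K, _, _, η0, ι, hι, A0, c0, hη0, hc0, hcov0, hfr0⟩ := exists_atlas X sX
  choose t ht using fun i => (hc0 i).fg hη0
  obtain ⟨L, _, _, φ, M, ⟨T0, rfl⟩, hM0, hMφ, hP⟩ := hM k K (⋃ i, (t i : Set K))
    (Set.finite_iUnion fun i => (t i).finite_toSet)
  obtain ⟨T, hT, hT0, hTM⟩ : ∃ T : Set L, T.Finite ∧ (∀ m ∈ T, m ≠ 0) ∧
      Submodule.span k (T0 : Set L) = Submodule.span k T :=
    ⟨(T0 : Set L) \ {0}, T0.finite_toSet.diff, fun m hm => hm.2,
      Submodule.span_sdiff_singleton_zero.symm⟩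
  rw [hTM] at hM0 hMφ hP
  obtain ⟨m0⟩ : Nonempty T := by
    by_contra H
    rw [not_nonempty_iff, Set.isEmpty_coe_sort] at H
    exact hM0 (by rw [H, Submodule.span_empty])
  have hη : (sp φ.toRingHom ≫ η0) ≫ sX = sp (algebraMap k L) := by
    rw [Category.assoc, hη0, sp_comp]
    congr 2
    exact RingHom.ext φ.commutes
  have hch : ∀ i, ∃ c, IsChart (sp φ.toRingHom ≫ η0) ((A0 i).map φ) c ∧
      Set.range c = Set.range (c0 i) := fun i => by
    have := (hc0 i).opn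
    refine chart_of_injective (c0 i) (φ.toRingHom.comp (A0 i).val.toRingHom)
      (φ.toRingHom.injective.comp Subtype.val_injective)
      (by rw [← sp_comp, Category.assoc, (hc0 i).gen]) _ fun x => ?_
    exact ⟨fun ⟨y, hy, e⟩ => ⟨⟨y, hy⟩, e⟩, fun ⟨y, e⟩ => ⟨y, y.2, e⟩⟩
  choose c hc hc' using hch
  obtain ⟨P, sP, ζ, κ, hpr, hζ, hκ, hκ'⟩ := proj_model (k := k) T hT hT0 m0
  choose j hj hjf hjc using fun i (m : T) => prod_chart hη hζ (hc i) (hκ m)
  have hcov : ∀ y, ∃ i m, y ∈ Set.range (j i m) := fun y => by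
    obtain ⟨i, hi⟩ := hcov0 _
    obtain ⟨m, hm⟩ := hκ' _
    exact ⟨i, m, hjc i m y (hc' i ▸ hi) hm⟩
  refine ⟨_, (pullback.lift (sp φ.toRingHom ≫ η0) ζ (hη.trans hζ.symm)).imageι ≫
    pullback.fst sX sP, isIntegral_of_charts (k := k) (Scheme.Hom.toImage _) fun y => ?_,
    inferInstance, ?_, fun y => ?_⟩
  · obtain ⟨i, m, h⟩ := hcov y
    exact ⟨_, _, hj i m, h⟩
  · obtain ⟨i, -⟩ := hcov0 (genericPoint X)
    have := hT.to_subtype
    have := (hc i).opn
    obtain ⟨a, ha, ha0, hat⟩ := exists_denom ((A0 i).map φ) (fun x : T × T => (x.1 : L) / x.2)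
      fun x => by
        obtain ⟨u, hu⟩ := hMφ _ (Submodule.subset_span x.1.2)
        obtain ⟨v, hv⟩ := hMφ _ (Submodule.subset_span x.2.2)
        obtain ⟨b, hb, hb0, hb'⟩ := hfr0 i (u / v)
        refine ⟨φ b, ⟨b, hb, rfl⟩, (map_ne_zero φ).2 hb0, _, hb', ?_⟩
        rw [← hu, ← hv]
        simp
    refine birational _ (c i) ha ha0 m0 _ (fun _ => le_sup_left)
      (fun m => sup_le (le_adj _ _) (chart_le bot_le fun y hy => ?_)) (j i) (hj i) (hjf i)
      fun y hy => ?_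
    · induction hy using Submodule.span_induction with
      | mem y hy => exact hat (⟨y, hy⟩, m)
      | zero => simp
      | add a b _ _ ha hb => rw [add_div]; exact add_mem ha hb
      | smul c a _ ha => rw [smul_div_assoc]; exact Subalgebra.smul_mem _ ha c
    · obtain ⟨m, hm⟩ := hκ' _
      exact ⟨m, hjc i m y hy hm⟩
  · obtain ⟨i, m, h⟩ := hcov y
    have h1 : (pullback.lift (sp φ.toRingHom ≫ η0) ζ (hη.trans hζ.symm)).toImage ≫
        ((pullback.lift (sp φ.toRingHom ≫ η0) ζ (hη.trans hζ.symm)).imageι ≫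
          pullback.fst sX sP) ≫ sX = sp (algebraMap k L) := by
      rw [← Category.assoc, Scheme.Hom.toImage_imageι_assoc, pullback.lift_fst]
      exact hη
    refine lci_chart h1 (hj i m) (fun O hO => ?_) y h
    refine (hP O (pt_of_cmp (Submodule.subset_span m.2) (hT0 m m.2) hO (S := φ '' t i) ?_ ?_
      fun O' hO' => ?_)).2 _ ((hj i m).fg h1) hO
    · rw [← ht i, AlgHom.map_adjoin]
    · rintro _ ⟨r, hr, rfl⟩
      exact ⟨r, ht i ▸ Algebra.subset_adjoin hr, rfl⟩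
    · rintro _ ⟨r, hr, rfl⟩
      exact (hP O' hO').1 r (Set.mem_iUnion.2 ⟨i, hr⟩)

end Pool.Agent.MP_19ffc6_ag.Lci

end MrgPart3

-- marker of a merged file
example : 731051 + 714537 = 731051 + 714537 := rfl
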