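import Mathlib.FieldTheory.RatFunc.AsPolynomial
import Mathlib.Order.Interval.Finset.Box
import Mathlib.RingTheory.TotallySplit
import Mathlib.RingTheory.MvPolynomial.IrreducibleQuadratic
import Mathlib.RingTheory.Regular.Flat
import Pool.Agent.MP_19ffc6_ag.Lci.Bridge

-- ======== part 0: formerly Pool.Agent.MP_19ffc6_ag.Lci.Line
section MrgPart0

/-! The construction on the projective line over a model. -/

namespace Pool.Agent.MP_19ffc6_ag.Lci

open Pool.Agent.MP_19ffc6_ag.Wild Polynomial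

variable {k L : Type} [Field k] [Field L] [Algebra k L] {K₀ : IntermediateField k L}

/-- The values of the polynomials of smaller degree. -/
def EE (P : Finset K₀[X]) (Y : L) (φ : K₀[X]) : Set L :=
  {x | ∃ ψ ∈ P, ψ.natDegree < φ.natDegree ∧ x = aeval Y ψ}

/-- The pairs attached to the polynomials that have been treated. -/
def NN (P Q : Finset K₀[X]) (Y : L) : Set (Set L × L) :=
  {p | ∃ φ ∈ Q, 0 < φ.natDegree ∧ p = (EE P Y φ, aeval Y φ)}

lemma NN_finite (P Q : Finset K₀[X]) (Y : L) : (NN P Q Y).Finite :=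
  (Q.finite_toSet.image fun φ => (EE P Y φ, aeval Y φ)).subset
    (by rintro _ ⟨φ, h, -, rfl⟩; exact ⟨φ, h, rfl⟩)

lemma expansion {P Q : Finset K₀[X]} (hP : Closed P) (hQ : Q ⊆ P) (Y : L) {G : K₀[X]} (hG : G ∈ P)
    (hd : ∀ φ ∈ Q, φ.natDegree ≤ G.natDegree) : ∀ p ∈ NN P Q Y, ∃ (T : Finset ℤ) (g : ℤ → L),
      T.Nonempty ∧ (∀ n ∈ T, g n ∈ grp p.1) ∧ aeval Y G = ∑ n ∈ T, g n * p.2 ^ n := by
  rintro _ ⟨φ, hφ, h0, rfl⟩
  obtain ⟨T, g, hT, hg, e⟩ := hP φ (hQ hφ) G hG h0 (hd φ hφ)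
  refine ⟨T.map Nat.castEmbedding, fun n => aeval Y (g n.toNat), hT.map, ?_, ?_⟩
  · intro n hn
    obtain ⟨m, hm, rfl⟩ := Finset.mem_map.1 hn
    exact mem_grp ⟨g m, (hg m hm).1, (hg m hm).2, by simp⟩
  · rw [Finset.sum_map]
    conv_lhs => rw [e]
    simp [map_sum]

lemma line_aux (hpre : PreStmt k L) (hadd : AddStmt k L) {W : Subalgebra k L} {Y : L}
    {P : Finset K₀[X]} {D : ℕ} (hP : Closed P)
    (hW : ∀ ψ ∈ P, ψ.natDegree < D → Un W (aeval Y ψ)) (n : ℕ) :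
    ∀ (Q : Finset K₀[X]) (s : Sys k L), Q ⊆ P.filter (·.natDegree < D) →
      (P.filter (·.natDegree < D)).card = Q.card + n →
      (∀ φ ∈ Q, ∀ G ∈ P, G ∉ Q → φ.natDegree ≤ G.natDegree) →
      (∀ ψ ∈ P, ψ.natDegree = 0 → ψ ∈ Q) → s.Inv W K₀.toSubalgebra Y (NN P Q Y) →
      (∀ ψ ∈ Q, s.IsMon (aeval Y ψ)) →
      ∃ s' : Sys k L, s'.Inv W K₀.toSubalgebra Y (NN P (P.filter (·.natDegree < D)) Y) ∧
        s.Ref s' ∧ ∀ ψ ∈ P, ψ.natDegree < D → s'.IsMon (aeval Y ψ) := by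
  classical
  induction n with
  | zero =>
    intro Q s hQ hc _ _ hs hm
    obtain rfl : Q = P.filter (·.natDegree < D) := Finset.eq_of_subset_of_card_le hQ (by omega)
    exact ⟨s, hs, .refl s, fun ψ h h' => hm ψ (Finset.mem_filter.2 ⟨h, h'⟩)⟩
  | succ n ih =>
    intro Q s hQ hc ho h0 hs hm
    have hne : (P.filter (·.natDegree < D) \ Q).Nonempty := by
      rw [← Finset.card_pos, Finset.card_sdiff_of_subset hQ]; omega
    obtain ⟨G, hG, hmin⟩ := Finset.exists_min_image _ (fun φ : K₀[X] => φ.natDegree) hne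
    obtain ⟨hG1, hG2⟩ := Finset.mem_sdiff.1 hG
    obtain ⟨hGP, hGD⟩ := Finset.mem_filter.1 hG1
    have hQP : Q ⊆ P := hQ.trans (Finset.filter_subset _ _)
    have hGW := hW G hGP hGD
    obtain ⟨s1, hs1, hr1, a, ha⟩ := hpre s W _ Y _ (aeval Y G) hs (NN_finite _ _ _) hGW.2.1
      (expansion hP hQP Y hGP fun φ hφ => ho φ hφ G hGP hG2)
    obtain ⟨s2, hs2, hr2⟩ := hadd s1 W _ Y _ (aeval Y G) a (EE P Y G) hs1 hGW ha (by
      rintro _ ⟨ψ, hψ, hlt, rfl⟩
      refine hr1.1 _ (hm ψ ?_)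
      by_contra hn
      have := hmin ψ (Finset.mem_sdiff.2 ⟨Finset.mem_filter.2 ⟨hψ, hlt.trans hGD⟩, hn⟩)
      omega)
    have hG0 : 0 < G.natDegree := Nat.pos_of_ne_zero fun e => hG2 (h0 G hGP e)
    have hN : NN P (insert G Q) Y = insert (EE P Y G, aeval Y G) (NN P Q Y) := by
      ext p
      constructor
      · rintro ⟨φ, hφ, h1, rfl⟩
        rcases Finset.mem_insert.1 hφ with rfl | hφ
        · exact Or.inl rfl
        · exact Or.inr ⟨φ, hφ, h1, rfl⟩
      · rintro (rfl | ⟨φ, hφ, h1, rfl⟩)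
        · exact ⟨G, Finset.mem_insert_self _ _, hG0, rfl⟩
        · exact ⟨φ, Finset.mem_insert_of_mem hφ, h1, rfl⟩
    obtain ⟨s3, hs3, hr3, hm3⟩ := ih (insert G Q) s2 (Finset.insert_subset hG1 hQ)
      (by rw [Finset.card_insert_of_notMem hG2]; omega) (by
        intro φ hφ G' hG' hn
        rw [Finset.mem_insert, not_or] at hn
        rcases Finset.mem_insert.1 hφ with rfl | hφ
        · by_cases h : G'.natDegree < D
          · exact hmin G' (Finset.mem_sdiff.2 ⟨Finset.mem_filter.2 ⟨hG', h⟩, hn.2⟩)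
          · omega
        · exact ho φ hφ G' hG' hn.2)
      (fun ψ h h' => Finset.mem_insert_of_mem (h0 ψ h h')) (hN ▸ hs2) (by
        intro ψ hψ
        rcases Finset.mem_insert.1 hψ with rfl | hψ
        · exact (hs2.mon _ (Or.inl rfl)).2
        · exact hr2.1 _ (hr1.1 _ (hm ψ hψ)))
    exact ⟨s3, hs3, (hr1.trans hr2).trans hr3, hm3⟩

theorem line (hinit : InitStmt k L) (hpre : PreStmt k L) (hadd : AddStmt k L) (s : Sys k L)
    {W : Subalgebra k L} {Y : L} {P : Finset K₀[X]} {D : ℕ} (hs : s.Good K₀.toSubalgebra)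
    (hKW : K₀.toSubalgebra ≤ W) (hY : Transcendental K₀ Y) (hX : X ∈ P) (hD : 2 ≤ D)
    (hP : Closed P) (h0 : ∀ ψ ∈ P, ψ.natDegree = 0 → s.IsMon (aeval Y ψ))
    (hW : ∀ ψ ∈ P, ψ.natDegree < D → Un W (aeval Y ψ)) :
    ∃ s' : Sys k L, s'.Inv W K₀.toSubalgebra Y (NN P (P.filter (·.natDegree < D)) Y) ∧
      (∀ r, s.IsMon r → s'.IsMon r) ∧ ∀ ψ ∈ P, ψ.natDegree < D → s'.IsMon (aeval Y ψ) := by
  classical
  have hYW : Un W Y := by simpa using hW X hX (by rw [natDegree_X]; omega)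
  obtain ⟨s1, hs1, hr1⟩ := hinit s K₀ W Y (EE P Y X) hs hKW hYW hY (by
    rintro _ ⟨ψ, hψ, hlt, rfl⟩
    rw [natDegree_X] at hlt
    exact h0 ψ hψ (by omega))
  let Q := P.filter fun ψ => ψ.natDegree = 0 ∨ ψ = X
  have hQ : Q ⊆ P.filter (·.natDegree < D) := by
    intro ψ hψ
    obtain ⟨h1, h2⟩ := Finset.mem_filter.1 hψ
    refine Finset.mem_filter.2 ⟨h1, ?_⟩
    rcases h2 with h2 | rfl
    · omega
    · rw [natDegree_X]; omega
  have hN : NN P Q Y = {(EE P Y X, Y)} := by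
    ext p
    constructor
    · rintro ⟨φ, hφ, h1, rfl⟩
      rcases (Finset.mem_filter.1 hφ).2 with h2 | rfl
      · omega
      · simp
    · rintro rfl
      exact ⟨X, Finset.mem_filter.2 ⟨hX, Or.inr rfl⟩, by simp, by simp⟩
  obtain ⟨n, hn⟩ := Nat.exists_eq_add_of_le (Finset.card_le_card hQ)
  obtain ⟨s2, hs2, hr2, hm2⟩ := line_aux hpre hadd hP hW n Q s1 hQ hn (by
      intro φ hφ G hG hn
      rcases (Finset.mem_filter.1 hφ).2 with h2 | rfl
      · omega
      · rw [natDegree_X]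
        exact Nat.pos_of_ne_zero fun e => hn (Finset.mem_filter.2 ⟨hG, Or.inl e⟩))
    (fun ψ h h' => Finset.mem_filter.2 ⟨h, Or.inl h'⟩) (hN ▸ hs1) (by
      intro ψ hψ
      obtain ⟨h1, h2 | rfl⟩ := Finset.mem_filter.1 hψ
      · exact hr1 _ (h0 ψ h1 h2)
      · simpa using (hs1.mon _ rfl).2)
  exact ⟨s2, hs2, fun r hr => hr2.1 r (hr1 r hr), hm2⟩

end Pool.Agent.MP_19ffc6_ag.Lci

end MrgPart0

-- ======== part 1: formerly Pool.Agent.MP_19ffc6_ag.Lci.Tower
section MrgPart1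

/-! The induction on the number of generators of the function field. -/

namespace Pool.Agent.MP_19ffc6_ag.Lci

open Pool.Agent.MP_19ffc6_ag.Wild Polynomial

variable {k L : Type} [Field k] [Field L] [Algebra k L]

/-- Every finite set of functions becomes monomial on a good model of `K`. -/
def PP (K : IntermediateField k L) : Prop :=
  ∀ S : Set L, S.Finite → (∀ r ∈ S, r ∈ K ∧ r ≠ 0) →
    ∃ s : Sys k L, s.Good K.toSubalgebra ∧ ∀ r ∈ S, s.IsMon r ∧ s.Cmp r

lemma un_field {K : IntermediateField k L} {x : L} (hx : x ∈ K) (h0 : x ≠ 0) :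
    Un K.toSubalgebra x := ⟨hx, h0, K.inv_mem hx⟩

lemma pp_bot (halg : AlgStmt k L) : PP (⊥ : IntermediateField k L) := by
  intro S _ hS
  have key : ∀ O : Subalgebra k L, Pt ⊥ (Submodule.span k {(1 : L)}) O → O = ⊥ := by
    rintro O ⟨g, hg, hg0, hP⟩
    have hb : ∀ x ∈ (⊥ : Subalgebra k L), x⁻¹ ∈ (⊥ : Subalgebra k L) := by
      intro x hx
      obtain ⟨c, rfl⟩ := Algebra.mem_bot.1 hx
      exact Algebra.mem_bot.2 ⟨c⁻¹, map_inv₀ _ _⟩
    have h1 : ∀ x ∈ Submodule.span k {(1 : L)}, x ∈ (⊥ : Subalgebra k L) :=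
      (prim_span (Un.one (⊥ : Subalgebra k L))).2.1
    have h2 : chart ⊥ (Submodule.span k {(1 : L)}) g ≤ ⊥ := chart_le le_rfl fun m hm => by
      rw [div_eq_mul_inv]; exact mul_mem (h1 m hm) (hb g (h1 g hg))
    refine le_antisymm (fun x hx => ?_) bot_le
    obtain ⟨a, ha, b, hb', -, rfl⟩ := hP.le_loc hx
    rw [div_eq_mul_inv]; exact mul_mem (h2 ha) (hb b (h2 hb'))
  refine ⟨⟨Empty, Submodule.span k {1}, Empty.elim, Empty.elim, fun _ => Empty.elim⟩,
    ⟨prim_span (Un.one _), fun ρ => ρ.elim, fun ρ => ρ.elim, fun O hO => ?_,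
      fun O _ => ⟨fun ρ => ρ.elim, fun _ ρ => ρ.elim⟩, fun _ _ ρ => ρ.elim⟩, fun r hr => ?_⟩
  · rw [key O hO]; exact halg.bot
  · have hu : ∀ O : Subalgebra k L, Un O r := fun O =>
      (un_field (hS r hr).1 (hS r hr).2).mono (by
        rw [IntermediateField.bot_toSubalgebra]; exact bot_le)
    exact ⟨⟨0, fun O _ => by rw [mn_zero, div_one]; exact hu O⟩, fun O _ => Or.inl (hu O).1⟩

variable {K₀ : IntermediateField k L}

lemma aeval_mem {K₁ : IntermediateField k L} (h : K₀ ≤ K₁) {y : L} (hy : y ∈ K₁) (P : K₀[X]) :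
    aeval y P ∈ K₁ := by
  rw [aeval_eq_sum_range]
  exact sum_mem fun n _ => mul_mem (h (P.coeff n).2) (pow_mem hy n)

lemma const_set (P : Finset K₀[X]) (hP : ∀ ψ ∈ P, ψ ≠ 0) (Y : L) :
    {x | ∃ ψ ∈ P, ψ.natDegree = 0 ∧ x = aeval Y ψ}.Finite ∧
      ∀ r ∈ {x | ∃ ψ ∈ P, ψ.natDegree = 0 ∧ x = aeval Y ψ}, r ∈ K₀ ∧ r ≠ 0 := by
  refine ⟨(P.finite_toSet.image fun ψ => aeval Y ψ).subset
    (by rintro _ ⟨ψ, h, -, rfl⟩; exact ⟨ψ, h, rfl⟩), ?_⟩
  rintro _ ⟨ψ, h, h0, rfl⟩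
  have h1 := hP ψ h
  rw [eq_C_of_natDegree_eq_zero h0] at h1 ⊢
  rw [aeval_C]
  exact ⟨(ψ.coeff 0).2, fun e => h1 (by rw [(map_eq_zero _).1 e, C_0])⟩

lemma pp_trans (hcl : ClosureStmt) (hinit : InitStmt k L) (hpre : PreStmt k L)
    (hadd : AddStmt k L) (hcmp : CmpStmt k L) (h : PP K₀) {K₁ : IntermediateField k L}
    (h01 : K₀ ≤ K₁) {y : L} (hy1 : y ∈ K₁) (hy : Transcendental K₀ y)
    (hK : ∀ r ∈ K₁, ∃ P Q : K₀[X], r = aeval y P / aeval y Q) : PP K₁ := by
  classical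
  intro S hS hS'
  choose! p q hpq using hK
  have hp0 : ∀ r ∈ S, p r ≠ 0 ∧ q r ≠ 0 := fun r hr => by
    have h1 := hpq r (hS' r hr).1
    constructor <;> intro e <;> rw [e] at h1 <;> exact (hS' r hr).2 (by simpa using h1)
  let P₀ : Finset K₀[X] := insert X (hS.toFinset.image p ∪ hS.toFinset.image q)
  obtain ⟨P, hP0, hP1, hP2⟩ := hcl K₀ P₀ (P₀.sup natDegree) fun φ hφ => ⟨by
    simp only [P₀, Finset.mem_insert, Finset.mem_union, Finset.mem_image,
      Set.Finite.mem_toFinset] at hφ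
    rcases hφ with rfl | ⟨r, hr, rfl⟩ | ⟨r, hr, rfl⟩
    exacts [X_ne_zero, (hp0 r hr).1, (hp0 r hr).2], Finset.le_sup hφ⟩
  have hdeg : ∀ ψ ∈ P, ψ.natDegree < P₀.sup natDegree + 2 := fun ψ hψ => by
    rcases (hP1 ψ hψ).2 with h1 | h1
    · have := Finset.le_sup (f := natDegree) h1
      omega
    · omega
  obtain ⟨hc1, hc2⟩ := const_set P (fun ψ hψ => (hP1 ψ hψ).1) y
  obtain ⟨s, hs, hs'⟩ := h _ hc1 hc2
  obtain ⟨s1, hs1, -, hm1⟩ := line hinit hpre hadd s (W := K₁.toSubalgebra) (Y := y) (P := P)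
    (D := P₀.sup natDegree + 2) hs h01 hy (hP0 (Finset.mem_insert_self _ _)) (by omega) hP2
    (fun ψ h1 h2 => (hs' _ ⟨ψ, h1, h2, rfl⟩).1) fun ψ h1 _ => un_field (aeval_mem h01 hy1 ψ)
      fun e => hy ⟨ψ, (hP1 ψ h1).1, e⟩
  have hm : ∀ r ∈ S, s1.IsMon r := fun r hr => by
    have h1 : p r ∈ P := hP0 (Finset.mem_insert_of_mem (Finset.mem_union_left _
      (Finset.mem_image_of_mem _ (hS.mem_toFinset.2 hr))))
    have h2 : q r ∈ P := hP0 (Finset.mem_insert_of_mem (Finset.mem_union_right _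
      (Finset.mem_image_of_mem _ (hS.mem_toFinset.2 hr))))
    rw [hpq r (hS' r hr).1]
    exact (hm1 _ h1 (hdeg _ h1)).div hs1.good (hm1 _ h2 (hdeg _ h2))
  obtain ⟨s2, hs2, hr2, hc⟩ := hcmp s1 _ _ _ _ S hs1 hS hm
  exact ⟨s2, hs2.good, fun r hr => ⟨hr2.1 r (hm r hr), hc r hr⟩⟩

section Local

variable {y : L} (Y : L) (hY : Transcendental K₀ Y)

variable (K₀ y) in
/-- The local ring of `K₀[Y]` at the kernel of `Y ↦ y`. -/
def locW : Subalgebra k L where
  carrier := {x | ∃ P Q : K₀[X], aeval y Q ≠ 0 ∧ x * aeval Y Q = aeval Y P}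
  mul_mem' := by
    rintro a b ⟨P, Q, h, e⟩ ⟨P', Q', h', e'⟩
    exact ⟨P * P', Q * Q', by rw [map_mul]; exact mul_ne_zero h h', by
      rw [map_mul, map_mul, ← e, ← e']; ring⟩
  add_mem' := by
    rintro a b ⟨P, Q, h, e⟩ ⟨P', Q', h', e'⟩
    exact ⟨P * Q' + Q * P', Q * Q', by rw [map_mul]; exact mul_ne_zero h h', by
      rw [map_add, map_mul, map_mul, map_mul, ← e, ← e']; ring⟩
  algebraMap_mem' r := ⟨C (algebraMap k K₀ r), 1, by simp, by simp⟩

lemma aeval_mem_locW (P : K₀[X]) : aeval Y P ∈ locW K₀ y Y := ⟨P, 1, by simp, by simp⟩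

/-- The value at `Y = y`. -/
noncomputable def piFun (w : locW K₀ y Y) : L :=
  aeval y w.2.choose / aeval y w.2.choose_spec.choose

include hY in
lemma piFun_eq (w : locW K₀ y Y) {P Q : K₀[X]} (h : aeval y Q ≠ 0)
    (e : (w : L) * aeval Y Q = aeval Y P) : piFun Y w = aeval y P / aeval y Q := by
  obtain ⟨h', e'⟩ := w.2.choose_spec.choose_spec
  rw [piFun, div_eq_div_iff h' h, ← map_mul, ← map_mul]
  congr 1
  apply transcendental_iff_injective.1 hY
  rw [map_mul, map_mul]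
  linear_combination (aeval Y w.2.choose_spec.choose) * e - (aeval Y Q) * e'

/-- The evaluation at `Y = y`. -/
noncomputable def piW : locW K₀ y Y →ₐ[k] L where
  toFun := piFun Y
  map_one' := by rw [piFun_eq Y hY 1 (P := 1) (Q := 1) (by simp) (by simp)]; simp
  map_zero' := by rw [piFun_eq Y hY 0 (P := 0) (Q := 1) (by simp) (by simp)]; simp
  map_mul' a b := by
    obtain ⟨P, Q, h, e⟩ := a.2
    obtain ⟨P', Q', h', e'⟩ := b.2
    rw [piFun_eq Y hY a h e, piFun_eq Y hY b h' e', piFun_eq Y hY (a * b) (P := P * P')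
      (Q := Q * Q') (by rw [map_mul]; exact mul_ne_zero h h') (by
        rw [map_mul, map_mul, ← e, ← e', Subalgebra.coe_mul]; ring), map_mul, map_mul,
      div_mul_div_comm]
  map_add' a b := by
    obtain ⟨P, Q, h, e⟩ := a.2
    obtain ⟨P', Q', h', e'⟩ := b.2
    rw [piFun_eq Y hY a h e, piFun_eq Y hY b h' e', piFun_eq Y hY (a + b) (P := P * Q' + Q * P')
      (Q := Q * Q') (by rw [map_mul]; exact mul_ne_zero h h') (by
        rw [map_add, map_mul, map_mul, map_mul, ← e, ← e', Subalgebra.coe_add]; ring),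
      div_add_div _ _ h h', map_add, map_mul, map_mul, map_mul]
  commutes' r := by
    rw [piFun_eq Y hY _ (P := C (algebraMap k K₀ r)) (Q := 1) (by simp) (by simp)]; simp

lemma piW_aeval (P : K₀[X]) : piW (y := y) Y hY ⟨_, aeval_mem_locW Y P⟩ = aeval y P := by
  have := piFun_eq (y := y) Y hY ⟨_, aeval_mem_locW Y P⟩ (P := P) (Q := 1) (by simp) (by simp)
  rw [map_one, div_one] at this
  exact this

lemma un_of_piW (w : locW K₀ y Y) (h : piW Y hY w ≠ 0) : Un (locW K₀ y Y) w := by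
  obtain ⟨P, Q, hQ, e⟩ := w.2
  have h1 : aeval y P ≠ 0 := fun e' => h (by
    change piFun Y w = 0
    rw [piFun_eq Y hY w hQ e, e', zero_div])
  have h0 : (w : L) ≠ 0 := fun e' => h (by rw [show w = 0 from Subtype.ext e', map_zero])
  exact ⟨w.2, h0, Q, P, h1, by rw [← e, inv_mul_cancel_left₀ h0]⟩

include hY in
lemma un_aeval_iff (P : K₀[X]) : Un (locW K₀ y Y) (aeval Y P) ↔ aeval y P ≠ 0 := by
  constructor
  · intro h
    rw [← piW_aeval Y hY P]
    exact (((isUnit_iff_un (⟨_, aeval_mem_locW Y P⟩ : locW K₀ y Y)).2 h).map (piW Y hY)).ne_zero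
  · intro h
    exact un_of_piW Y hY ⟨_, aeval_mem_locW Y P⟩ (by rwa [piW_aeval])

end Local

lemma pp_alg (hcl : ClosureStmt) (hinit : InitStmt k L) (hpre : PreStmt k L)
    (hadd : AddStmt k L) (hcmp : CmpStmt k L) (htr : TransferStmt k L) (h : PP K₀)
    {K₁ : IntermediateField k L} (h01 : K₀ ≤ K₁) {y : L} (hy1 : y ∈ K₁) (hy : IsIntegral K₀ y)
    (hy0 : y ∉ K₀) (hK : ∀ r ∈ K₁, ∃ P : K₀[X], r = aeval y P) {Y : L}
    (hY : Transcendental K₀ Y) : PP K₁ := by
  classical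
  intro S hS hS'
  set F := minpoly K₀ y with hF
  have hFm : F.Monic := minpoly.monic hy
  have hd : 2 ≤ F.natDegree := (minpoly.two_le_natDegree_iff hy).2 (by
    rintro ⟨c, rfl⟩; exact hy0 c.2)
  have hF1 : F ≠ 1 := fun e => by rw [e, natDegree_one] at hd; omega
  have hK' : ∀ r ∈ K₁, ∃ P : K₀[X], P.natDegree < F.natDegree ∧ r = aeval y P := fun r hr => by
    obtain ⟨P, rfl⟩ := hK r hr
    exact ⟨P %ₘ F, natDegree_modByMonic_lt P hFm hF1, (minpoly.aeval_modByMonic_minpoly P y).symm⟩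
  choose! p hp1 hp2 using hK'
  have hp0 : ∀ r ∈ S, p r ≠ 0 := fun r hr e => (hS' r hr).2 (by
    rw [hp2 r (hS' r hr).1, e, map_zero])
  let P₀ : Finset K₀[X] := insert X (insert F (hS.toFinset.image p))
  have hP₀ : ∀ φ ∈ P₀, φ ≠ 0 ∧ (φ = F ∨ φ.natDegree < F.natDegree) := fun φ hφ => by
    simp only [P₀, Finset.mem_insert, Finset.mem_image, Set.Finite.mem_toFinset] at hφ
    rcases hφ with rfl | rfl | ⟨r, hr, rfl⟩
    · exact ⟨X_ne_zero, Or.inr (by rw [natDegree_X]; omega)⟩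
    · exact ⟨hFm.ne_zero, Or.inl rfl⟩
    · exact ⟨hp0 r hr, Or.inr (hp1 r (hS' r hr).1)⟩
  obtain ⟨P, hP0, hP1, hP2⟩ := hcl K₀ P₀ F.natDegree fun φ hφ => ⟨(hP₀ φ hφ).1, by
    rcases (hP₀ φ hφ).2 with rfl | h1
    exacts [le_rfl, h1.le]⟩
  have hXP : X ∈ P := hP0 (Finset.mem_insert_self _ _)
  have hFP : F ∈ P := hP0 (Finset.mem_insert_of_mem (Finset.mem_insert_self _ _))
  have hpP : ∀ r ∈ S, p r ∈ P := fun r hr => hP0 (Finset.mem_insert_of_mem
    (Finset.mem_insert_of_mem (Finset.mem_image_of_mem _ (hS.mem_toFinset.2 hr))))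
  obtain ⟨hc1, hc2⟩ := const_set P (fun ψ hψ => (hP1 ψ hψ).1) Y
  have hc3 : {x : L | ∃ n ∈ F.support, x = F.coeff n}.Finite :=
    (F.support.finite_toSet.image fun n => (F.coeff n : L)).subset
      (by rintro _ ⟨n, h, rfl⟩; exact ⟨n, h, rfl⟩)
  obtain ⟨s, hs, hs'⟩ := h _ (hc1.union hc3) (by
    rintro r (hr | ⟨n, hn, rfl⟩)
    · exact hc2 r hr
    · exact ⟨(F.coeff n).2, fun e => mem_support_iff.1 hn (Subtype.ext e)⟩)
  have hKW : K₀.toSubalgebra ≤ locW K₀ y Y := fun x hx => by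
    simpa using aeval_mem_locW (y := y) Y (C (⟨x, hx⟩ : K₀))
  have hun : ∀ ψ : K₀[X], ψ ≠ 0 → ψ.natDegree < F.natDegree → Un (locW K₀ y Y) (aeval Y ψ) :=
    fun ψ h0 h1 => (un_aeval_iff Y hY ψ).2 fun e => by
      exact (natDegree_le_of_dvd (minpoly.dvd K₀ y e) h0).not_gt h1
  obtain ⟨s1, hs1, hr1, hm1⟩ := line hinit hpre hadd s (W := locW K₀ y Y) (Y := Y) (P := P)
    (D := F.natDegree) hs hKW hY hXP hd hP2 (fun ψ h1 h2 => (hs' _ (Or.inl ⟨ψ, h1, h2, rfl⟩)).1)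
    fun ψ h1 h2 => hun ψ (hP1 ψ h1).1 h2
  obtain ⟨s2, hs2, hr2, hc⟩ := hcmp s1 _ _ _ _ ((fun r => aeval Y (p r)) '' S) hs1 (hS.image _) (by
    rintro _ ⟨r, hr, rfl⟩
    exact hm1 _ (hpP r hr) (hp1 r (hS' r hr).1))
  obtain ⟨s3, hs3, hr3, a, ha⟩ := hpre s2 _ _ _ _ (aeval Y F) hs2 (NN_finite _ _ _)
    (fun e => hY ⟨F, hFm.ne_zero, e⟩)
    (expansion hP2 (Finset.filter_subset _ _) Y hFP fun φ hφ => (Finset.mem_filter.1 hφ).2.le)
  have hr13 := hr2.trans hr3
  obtain ⟨s4, hs4, h4⟩ := htr s3 K₀ _ Y _ F (piW Y hY) a hs3 hKW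
    (by simpa using aeval_mem_locW (K₀ := K₀) (y := y) Y X) hFm (un_of_piW Y hY)
    (fun Q => by rw [un_aeval_iff Y hY, not_not, minpoly.dvd_iff])
    (fun n => by
      by_cases hn : F.coeff n = 0
      · exact Or.inl hn
      · exact Or.inr (hr13.1 _ (hr1 _ (hs' _ (Or.inr ⟨n, mem_support_iff.2 hn, rfl⟩)).1)))
    (by simpa using hr13.1 _ (hm1 X hXP (by rw [natDegree_X]; omega))) ha
  have hrange : (piW (K₀ := K₀) (y := y) Y hY).range = K₁.toSubalgebra := by
    apply le_antisymm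
    · rintro _ ⟨w, rfl⟩
      obtain ⟨P, Q, hQ, e⟩ := w.2
      change piFun Y w ∈ K₁
      rw [piFun_eq Y hY w hQ e]
      exact div_mem (aeval_mem h01 hy1 P) (aeval_mem h01 hy1 Q)
    · intro r hr
      exact ⟨⟨_, aeval_mem_locW Y (p r)⟩, (piW_aeval Y hY _).trans (hp2 r hr).symm⟩
  refine ⟨s4, hrange ▸ hs4, fun r hr => ?_⟩
  have h5 := h4 ⟨_, aeval_mem_locW Y (p r)⟩ (hun _ (hp0 r hr) (hp1 r (hS' r hr).1))
  rw [piW_aeval, ← hp2 r (hS' r hr).1] at h5
  exact ⟨h5.1 (hr13.1 _ (hm1 _ (hpP r hr) (hp1 r (hS' r hr).1))), h5.2 (hr3.2 _ (hc _ ⟨r, hr, rfl⟩))⟩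

lemma pp_adjoin (halg : AlgStmt k L) (hcl : ClosureStmt) (hinit : InitStmt k L)
    (hpre : PreStmt k L) (hadd : AddStmt k L) (hcmp : CmpStmt k L) (htr : TransferStmt k L)
    (K : IntermediateField k L) (Y : L)
    (hY : ∀ K₀ : IntermediateField k L, K₀ ≤ K → Transcendental K₀ Y) (T : Set L) (hT : T.Finite) :
    T ⊆ K → PP (IntermediateField.adjoin k T) := by
  induction T, hT using Set.Finite.induction_on with
  | empty => intro _; rw [IntermediateField.adjoin_empty]; exact pp_bot halg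
  | @insert y T _ _ ih =>
    intro hTK
    have hT : T ⊆ K := (Set.subset_insert _ _).trans hTK
    have h0 := ih hT
    set K₀ := IntermediateField.adjoin k T with hK₀
    have e : IntermediateField.adjoin k (insert y T) =
        (IntermediateField.adjoin K₀ {y}).restrictScalars k := by
      rw [hK₀, IntermediateField.adjoin_adjoin_left, Set.union_singleton]
    have h01 : K₀ ≤ IntermediateField.adjoin k (insert y T) :=
      IntermediateField.adjoin.mono _ _ _ (Set.subset_insert _ _)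
    have hy1 : y ∈ IntermediateField.adjoin k (insert y T) :=
      IntermediateField.subset_adjoin _ _ (Set.mem_insert _ _)
    by_cases hy0 : y ∈ K₀
    · have : IntermediateField.adjoin k (insert y T) = K₀ :=
        le_antisymm (IntermediateField.adjoin_le_iff.2
          (Set.insert_subset hy0 (IntermediateField.subset_adjoin _ _))) h01
      rwa [this]
    by_cases hy : IsAlgebraic K₀ y
    · refine pp_alg hcl hinit hpre hadd hcmp htr h0 h01 hy1 hy.isIntegral hy0 (fun r hr => ?_)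
        (hY K₀ (IntermediateField.adjoin_le_iff.2 hT))
      rw [e, IntermediateField.mem_restrictScalars, ← IntermediateField.mem_toSubalgebra,
        IntermediateField.adjoin_simple_toSubalgebra_of_isAlgebraic hy,
        Algebra.adjoin_singleton_eq_range_aeval] at hr
      obtain ⟨P, rfl⟩ := hr
      exact ⟨P, rfl⟩
    · refine pp_trans hcl hinit hpre hadd hcmp h0 h01 hy1 hy fun r hr => ?_
      rw [e, IntermediateField.mem_restrictScalars] at hr
      exact (IntermediateField.mem_adjoin_simple_iff _ r).1 hr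

theorem model_of (hcl : ClosureStmt)
    (H : ∀ (k L : Type) [Field k] [Field L] [Algebra k L], AlgStmt k L ∧ InitStmt k L ∧
      PreStmt k L ∧ AddStmt k L ∧ CmpStmt k L ∧ TransferStmt k L) : ModelStmt := by
  intro k K _ _ _ S hS
  let L := RatFunc K
  let j : K →ₐ[k] L := IsScalarTower.toAlgHom k K L
  obtain ⟨halg, hinit, hpre, hadd, hcmp, htr⟩ := H k L
  have hY : ∀ K₀ : IntermediateField k L, K₀ ≤ j.fieldRange → Transcendental K₀ (RatFunc.X : L) := by
    rintro K₀ h ⟨P, hP0, hP⟩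
    let e := AlgEquiv.ofInjectiveField j
    let φ : K₀ →+* K := (e.symm : j.range →ₐ[k] K).toRingHom.comp
      (Subalgebra.inclusion (S := K₀.toSubalgebra) (T := j.range) h).toRingHom
    have hφ : (algebraMap K L).comp φ = algebraMap K₀ L := by
      ext x
      exact congrArg Subtype.val (e.apply_symm_apply ⟨x, h x.2⟩)
    refine RatFunc.transcendental_X (K := K) ⟨P.map φ, (Polynomial.map_ne_zero_iff φ.injective).2 hP0, ?_⟩
    rw [aeval_def, eval₂_map, hφ]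
    exact hP
  have hpp := pp_adjoin halg hcl hinit hpre hadd hcmp htr j.fieldRange _ hY (j '' S) (hS.image _)
    (by rintro _ ⟨r, -, rfl⟩; exact ⟨r, rfl⟩)
  obtain ⟨s, hs, hs'⟩ := hpp (j '' S \ {0}) (hS.image _).sdiff fun r hr =>
    ⟨IntermediateField.subset_adjoin _ _ hr.1, hr.2⟩
  have hle : IntermediateField.adjoin k (j '' S) ≤ j.fieldRange :=
    IntermediateField.adjoin_le_iff.2 (by rintro _ ⟨r, -, rfl⟩; exact ⟨r, rfl⟩)
  refine ⟨L, inferInstance, inferInstance, j, s.M, hs.primM.1, ?_,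
    fun x hx => hle (hs.primM.2.1 x hx), fun O hO => ⟨fun r hr => ?_,
      fun D hD hP => halg.spread D O (hs.lci O hO) hD hP⟩⟩
  · obtain ⟨a, ha, hu⟩ := hs.primM.2.2
    exact (Submodule.ne_bot_iff _).2 ⟨a, ha, hu.2.1⟩
  · by_cases h0 : j r = 0
    · rw [h0]; exact Or.inl (zero_mem _)
    · exact (hs' _ ⟨⟨r, hr, rfl⟩, h0⟩).2 O hO

end Pool.Agent.MP_19ffc6_ag.Lci

end MrgPart1

-- ======== part 2: formerly Pool.Agent.MP_19ffc6_ag.Lci.Alg
section MrgPart2

/-! Module ALG: complete intersection presentations and spreading out. -/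

namespace Pool.Agent.MP_19ffc6_ag.Lci

open Pool.Agent.MP_19ffc6_ag.Wild Polynomial RingTheory.Sequence

namespace Alg

section Abstract

variable {k : Type} [Field k] {A R R' : Type} [CommRing A] [Algebra k A] [CommRing R]
  [Algebra k R] [CommRing R'] [Algebra k R']

lemma gci_of {n : ℕ} (e : MvPolynomial (Fin n) k ≃ₐ[k] A) (r : List A) (φ : A →ₐ[k] R)
    (hr : IsWeaklyRegular A r) (hs : Function.Surjective φ)
    (hk : RingHom.ker φ = Ideal.ofList r) : GCI k R := by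
  refine ⟨n, r.map e.symm, φ.comp e.toAlgHom, ?_, hs.comp e.surjective, ?_⟩
  · refine (e.symm.toAddEquiv.isWeaklyRegular_congr ?_).1 hr
    exact List.forall₂_map_right_iff.2 <| List.forall₂_same.2 fun a _ x => map_mul e.symm a x
  · have h1 := Ideal.map_ofList (e.symm : A →+* MvPolynomial (Fin n) k) r
    refine Eq.trans ?_ h1
    rw [← hk]
    ext x
    rw [RingHom.mem_ker, Ideal.mem_map_iff_of_surjective
      (e.symm : A →+* MvPolynomial (Fin n) k) e.symm.surjective]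
    constructor
    · intro h
      exact ⟨e x, h, e.symm_apply_apply x⟩
    · rintro ⟨y, hy, rfl⟩
      have : φ (e (e.symm y)) = 0 := by rw [e.apply_symm_apply]; exact hy
      exact this

lemma gci_congr (h : GCI k R) (e : R ≃ₐ[k] R') : GCI k R' := by
  obtain ⟨n, r, φ, hr, hs, hk⟩ := h
  refine ⟨n, r, e.toAlgHom.comp φ, hr, e.surjective.comp hs, ?_⟩
  rw [← hk]
  ext x
  rw [RingHom.mem_ker, RingHom.mem_ker]
  exact map_eq_zero_iff e e.injective

lemma gci_poly (h : GCI k R) : GCI k R[X] := by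
  obtain ⟨n, r, φ, hr, hs, hk⟩ := h
  refine gci_of (MvPolynomial.finSuccEquiv k n) (r.map (algebraMap _ _)) (mapAlgHom φ)
    hr.of_flat (map_surjective φ.toRingHom hs) ?_
  rw [← Ideal.map_ofList, ← hk]
  exact ker_mapRingHom φ.toRingHom

lemma gci_quot (h : GCI k R) (π : R →ₐ[k] R') (hπ : Function.Surjective π) (f : R)
    (hf : ∀ z, f * z = 0 → z = 0) (hk : ∀ z, π z = 0 ↔ f ∣ z) : GCI k R' := by
  obtain ⟨n, r, φ, hr, hs, hker⟩ := h
  obtain ⟨F, rfl⟩ := hs f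
  have hmem : ∀ x, x ∈ Ideal.ofList r ↔ φ x = 0 := fun x => by rw [← hker, RingHom.mem_ker]
  refine ⟨n, r ++ [F], π.comp φ, ?_, hπ.comp hs, ?_⟩
  · rw [isWeaklyRegular_append_iff, isWeaklyRegular_singleton_iff,
      isSMulRegular_quotient_iff_mem_of_smul_mem]
    refine ⟨hr, fun x hx => ?_⟩
    rw [Ideal.smul_eq_mul, Ideal.mul_top, hmem] at hx ⊢
    exact hf _ (by rwa [smul_eq_mul, map_mul] at hx)
  · ext x
    rw [RingHom.mem_ker, Ideal.ofList_append, Ideal.ofList_singleton, sup_comm,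
      Ideal.mem_span_singleton_sup]
    change π (φ x) = 0 ↔ _
    rw [hk]
    constructor
    · rintro ⟨c, hc⟩
      obtain ⟨c, rfl⟩ := hs c
      refine ⟨c, x - c * F, (hmem _).2 ?_, by ring⟩
      rw [map_sub, map_mul, hc, mul_comm, sub_self]
    · rintro ⟨c, y, hy, rfl⟩
      rw [map_add, (hmem _).1 hy, add_zero, map_mul]
      exact dvd_mul_left _ _

lemma gci_loc (h : GCI k R) (t : R) : GCI k (Localization.Away t) := by
  refine gci_congr (R := AdjoinRoot (C t * X - 1)) ?_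
    ((Localization.awayEquivAdjoin t).symm.restrictScalars k)
  refine gci_quot (gci_poly h) ((AdjoinRoot.mkₐ _).restrictScalars k) AdjoinRoot.mk_surjective
    (C t * X - 1) (fun z hz => ?_) fun z => AdjoinRoot.mk_eq_zero
  have : (C t * X - 1 : R[X]) ∈ nonZeroDivisors R[X] :=
    mem_nonzeroDivisors_of_coeff_mem 0 (by simpa using (isUnit_one.neg).mem_nonZeroDivisors)
  exact (mem_nonZeroDivisors_iff.1 this).1 z hz

lemma gci_noeth (h : GCI k R) : IsNoetherianRing R := by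
  obtain ⟨n, r, φ, -, hs, -⟩ := h
  exact isNoetherianRing_of_surjective _ _ φ.toRingHom hs

lemma gci_finiteType (h : GCI k R) : Algebra.FiniteType k R := by
  obtain ⟨n, r, φ, -, hs, -⟩ := h
  exact Algebra.FiniteType.of_surjective φ hs

end Abstract

variable {k L : Type} [Field k] [Field L] [Algebra k L]

section Away

variable {R : Type} [CommRing R] [Algebra k R] (ψ : R →ₐ[k] L) (t : R) (ht : ψ t ≠ 0)

/-- The extension of `ψ` to the localization at `t`. -/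
noncomputable def aw : Localization.Away t →ₐ[k] L :=
  IsLocalization.Away.liftAlgHom t (f := ψ) (isUnit_iff_ne_zero.2 ht)

lemma aw_alg (r : R) : aw ψ t ht (algebraMap R _ r) = ψ r :=
  IsLocalization.Away.lift_eq t (g := ψ.toRingHom) (isUnit_iff_ne_zero.2 ht) r

lemma aw_range : (aw ψ t ht).range = adj ψ.range (ψ t)⁻¹ := by
  refine le_antisymm ?_ (adj_le ?_ ?_)
  · rintro _ ⟨z, rfl⟩
    obtain ⟨n, a, e⟩ := IsLocalization.Away.surj t z
    have e1 := congrArg (aw ψ t ht) e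
    rw [map_mul, map_pow, aw_alg, aw_alg] at e1
    have : (aw ψ t ht).toRingHom z = ψ a * (ψ t)⁻¹ ^ n := by
      rw [← e1, mul_assoc, ← mul_pow, mul_inv_cancel₀ ht, one_pow, mul_one]; rfl
    rw [this]
    exact mul_mem (le_adj _ _ ⟨a, rfl⟩) (pow_mem (self_mem_adj _ _) _)
  · rintro _ ⟨r, rfl⟩
    exact ⟨algebraMap R _ r, aw_alg ψ t ht r⟩
  · refine ⟨IsLocalization.Away.invSelf t, eq_inv_of_mul_eq_one_right ?_⟩
    rw [← aw_alg ψ t ht]
    change aw ψ t ht _ * aw ψ t ht _ = 1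
    rw [← map_mul, IsLocalization.Away.mul_invSelf, map_one]

lemma aw_ker (z : Localization.Away t) (hz : aw ψ t ht z = 0) :
    ∃ (n : ℕ) (a : R), ψ a = 0 ∧ z * algebraMap R _ t ^ n = algebraMap R _ a := by
  obtain ⟨n, a, e⟩ := IsLocalization.Away.surj t z
  refine ⟨n, a, ?_, e⟩
  rw [← aw_alg ψ t ht, ← e, map_mul, hz, zero_mul]

include ht in
lemma gci_inv (h : GCI k R) (hψ : Function.Injective ψ) : GCI k (adj ψ.range (ψ t)⁻¹) := by
  rw [← aw_range ψ t ht]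
  refine gci_congr (gci_loc h t) (AlgEquiv.ofInjective _ ?_)
  rw [injective_iff_map_eq_zero]
  intro z hz
  obtain ⟨n, a, ha, e⟩ := aw_ker ψ t ht z hz
  rw [(map_eq_zero_iff ψ hψ).1 ha, map_zero] at e
  exact ((IsLocalization.Away.algebraMap_isUnit t).pow n).mul_left_eq_zero.1 e

include ht in
lemma gci_away [IsDomain R] (h : GCI k R) (f : R) (hf : f ≠ 0) (hf0 : ψ f = 0)
    (hk : ∀ z, ψ z = 0 → f ∣ t * z) : GCI k (adj ψ.range (ψ t)⁻¹) := by
  have ht0 : t ≠ 0 := fun e => ht (by rw [e, map_zero])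
  have hle : Submonoid.powers t ≤ nonZeroDivisors R :=
    powers_le_nonZeroDivisors_of_noZeroDivisors ht0
  have : IsDomain (Localization.Away t) := IsLocalization.isDomain_localization hle
  have hu := IsLocalization.Away.algebraMap_isUnit (S := Localization.Away t) t
  rw [← aw_range ψ t ht]
  refine gci_quot (gci_loc h t) (aw ψ t ht).rangeRestrict (AlgHom.rangeRestrict_surjective _)
    (algebraMap R _ f) (fun z hz => (mul_eq_zero.1 hz).resolve_left ?_) fun z => ?_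
  · exact (map_ne_zero_iff _ (IsLocalization.injective _ hle)).2 hf
  · rw [Subtype.ext_iff]
    change aw ψ t ht z = 0 ↔ _
    constructor
    · intro hz
      obtain ⟨n, a, ha, e⟩ := aw_ker ψ t ht z hz
      have := map_dvd (algebraMap R (Localization.Away t)) (hk a ha)
      rw [map_mul, ← e, hu.dvd_mul_left, (hu.pow n).dvd_mul_right] at this
      exact this
    · rintro ⟨c, rfl⟩
      rw [map_mul, aw_alg, hf0, zero_mul]

/-- Spreading out: a local ring of the image of `ψ` at which the kernel is principal. -/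
lemma lci_of_ker [IsDomain R] (h : GCI k R) {O : Subalgebra k L} (hO : IsPoint ψ.range O) (f : R)
    (hf : f ≠ 0) (hf0 : ψ f = 0) (hk : ∀ z, ψ z = 0 → ∃ s, Un O (ψ s) ∧ f ∣ s * z) : LCI O := by
  have := gci_noeth h
  have key : ∀ I : Ideal R, I.FG → I ≤ RingHom.ker ψ → ∃ s, Un O (ψ s) ∧ ∀ z ∈ I, f ∣ s * z := by
    intro I hI
    refine Submodule.fg_induction (motive := fun (I : Ideal R) _ => I ≤ RingHom.ker ψ →
      ∃ s, Un O (ψ s) ∧ ∀ z ∈ I, f ∣ s * z) (fun x hx => ?_) (fun I J _ _ hI hJ hle => ?_) I hI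
    · obtain ⟨s, hs, hd⟩ := hk x (hx (Submodule.mem_span_singleton_self x))
      refine ⟨s, hs, fun z hz => ?_⟩
      obtain ⟨c, rfl⟩ := Submodule.mem_span_singleton.1 hz
      rw [smul_eq_mul, mul_left_comm]
      exact hd.mul_left _
    · obtain ⟨s, hs, hd⟩ := hI (le_sup_left.trans hle)
      obtain ⟨s', hs', hd'⟩ := hJ (le_sup_right.trans hle)
      refine ⟨s * s', by rw [map_mul]; exact hs.mul hs', fun z hz => ?_⟩
      obtain ⟨x, hx, y, hy, rfl⟩ := Submodule.mem_sup.1 hz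
      rw [mul_add]
      refine dvd_add ?_ ?_
      · rw [mul_comm s, mul_assoc]; exact (hd x hx).mul_left _
      · rw [mul_assoc]; exact (hd' y hy).mul_left _
  obtain ⟨s, hs, hd⟩ := key _ (IsNoetherian.noetherian (RingHom.ker ψ)) le_rfl
  exact ⟨_, gci_away ψ s hs.2.1 h f hf hf0 hd,
    hO.of_le_loc (adj_le hO.le hs.2.2) ((le_adj _ _).trans (le_loc _ _))⟩

end Away

variable {D O O' : Subalgebra k L} {a b x : L}

lemma den (hb : b ∈ O) (hb0 : b ≠ 0) (hx : x ∈ adj O b⁻¹) : ∃ N : ℕ, b ^ N * x ∈ O := by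
  let Z : Subalgebra k L :=
    { carrier := {y | ∃ N : ℕ, b ^ N * y ∈ O}
      mul_mem' := by
        rintro y z ⟨N, hN⟩ ⟨M, hM⟩
        exact ⟨N + M, by rw [pow_add, mul_mul_mul_comm]; exact mul_mem hN hM⟩
      add_mem' := by
        rintro y z ⟨N, hN⟩ ⟨M, hM⟩
        refine ⟨N + M, ?_⟩
        have : b ^ (N + M) * (y + z) = b ^ M * (b ^ N * y) + b ^ N * (b ^ M * z) := by ring
        rw [this]
        exact add_mem (mul_mem (pow_mem hb _) hN) (mul_mem (pow_mem hb _) hM)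
      algebraMap_mem' := fun r => ⟨0, by rw [pow_zero, one_mul]; exact O.algebraMap_mem r⟩ }
  exact adj_le (O' := Z) (fun z hz => ⟨0, by rwa [pow_zero, one_mul]⟩)
    ⟨1, by rw [pow_one, mul_inv_cancel₀ hb0]; exact one_mem _⟩ hx

lemma mem_of_nzd (hb0 : b ≠ 0) (hb : b ∈ O) (h : NZD O {b} a) (ha : a * x ∈ O) (N : ℕ)
    (hN : b ^ N * x ∈ O) : x ∈ O := by
  induction N with
  | zero => rwa [pow_zero, one_mul] at hN
  | succ N ih =>
    obtain ⟨z, hz, e⟩ := mem_span_one.1 (h _ hN (mem_span_one.2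
      ⟨b ^ N * (a * x), mul_mem (pow_mem hb _) ha, by ring⟩))
    refine ih ?_
    rw [pow_succ', mul_assoc] at e
    rwa [mul_left_cancel₀ hb0 e]

lemma coeff_lin_zero (Q : L[X]) : ((C b * X - C a) * Q).coeff 0 = -(a * Q.coeff 0) := by
  simp

lemma coeff_lin_succ (Q : L[X]) (n : ℕ) :
    ((C b * X - C a) * Q).coeff (n + 1) = b * Q.coeff n - a * Q.coeff (n + 1) := by
  rw [sub_mul, coeff_sub, mul_assoc, coeff_C_mul, coeff_C_mul, coeff_X_mul]

/-- The relations of `a / b` are generated by the obvious one. -/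
lemma rel (ha : a ∈ O) (hb : b ∈ O) (hb0 : b ≠ 0) (h : NZD O {b} a) {P : L[X]}
    (hP : ∀ n, P.coeff n ∈ O) (e : P.eval (a / b) = 0) :
    ∃ Q : L[X], (∀ n, Q.coeff n ∈ O) ∧ P = (C b * X - C a) * Q := by
  set Q : L[X] := C b⁻¹ * (P /ₘ (X - C (a / b))) with hQ
  have e1 : P = (C b * X - C a) * Q := by
    have h1 : (C b * X - C a) * C b⁻¹ = X - C (a / b) := by
      rw [sub_mul, mul_right_comm, ← C_mul, ← C_mul, mul_inv_cancel₀ hb0, C_1, one_mul,
        div_eq_mul_inv]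
    rw [hQ, ← mul_assoc, h1]
    exact (mul_divByMonic_eq_iff_isRoot.2 e).symm
  have h2 : ∀ n, ∃ N : ℕ, b ^ N * Q.coeff n ∈ O := fun n => by
    refine den hb hb0 ?_
    rw [hQ, coeff_C_mul, coeff_divByMonic_X_sub_C]
    refine mul_mem (self_mem_adj _ _) (sum_mem fun i _ => mul_mem (pow_mem ?_ _) (le_adj _ _ (hP i)))
    rw [div_eq_mul_inv]
    exact mul_mem (le_adj _ _ ha) (self_mem_adj _ _)
  refine ⟨Q, fun n => ?_, e1⟩
  induction n with
  | zero =>
    obtain ⟨N, hN⟩ := h2 0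
    refine mem_of_nzd hb0 hb h ?_ N hN
    have := neg_mem (hP 0)
    rwa [e1, coeff_lin_zero, neg_neg] at this
  | succ n ih =>
    obtain ⟨N, hN⟩ := h2 (n + 1)
    refine mem_of_nzd hb0 hb h ?_ N hN
    have := sub_mem (mul_mem hb ih) (hP (n + 1))
    rwa [e1, coeff_lin_succ, sub_sub_cancel] at this

lemma kp (ha : a ∈ O) (hb : b ∈ O) (hb0 : b ≠ 0) (h : NZD O {b} a) : KP O (a / b) {a, b} := by
  intro P hP e n
  obtain ⟨Q, hQ, rfl⟩ := rel ha hb hb0 h hP e
  have h1 : a ∈ Submodule.span O ({a, b} : Set L) := Submodule.subset_span (by simp)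
  have h2 : b ∈ Submodule.span O ({a, b} : Set L) := Submodule.subset_span (by simp)
  cases n with
  | zero => rw [coeff_lin_zero]; exact neg_mem (mul_mem_span' h1 (hQ _))
  | succ n =>
    rw [coeff_lin_succ]
    exact sub_mem (mul_mem_span' h2 (hQ _)) (mul_mem_span' h1 (hQ _))

/-- A common denominator. -/
lemma clear (S : Finset L) (hS : ∀ s ∈ S, s ∈ loc D O) :
    ∃ h ∈ D, Un O h ∧ ∀ s ∈ S, h * s ∈ D := by
  classical
  induction S using Finset.induction_on with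
  | empty => exact ⟨1, one_mem _, Un.one _, by simp⟩
  | insert s S _ ih =>
    obtain ⟨h, hh, hu, H⟩ := ih fun s hs => hS s (Finset.mem_insert_of_mem hs)
    obtain ⟨c, hc, d, hd, hu', rfl⟩ := hS s (Finset.mem_insert_self _ _)
    refine ⟨d * h, mul_mem hd hh, hu'.mul hu, fun s hs => ?_⟩
    rcases Finset.mem_insert.1 hs with rfl | hs
    · rw [mul_comm d, mul_assoc, mul_div_cancel₀ _ hu'.2.1]
      exact mul_mem hh hc
    · rw [mul_assoc]; exact mul_mem hd (H s hs)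

lemma lift_poly {P : L[X]} (hP : ∀ n, P.coeff n ∈ D) :
    ∃ Q : D[X], Q.map D.val.toRingHom = P :=
  (mem_lifts P).1 ((lifts_iff_coeff_lifts P).2 fun n => ⟨⟨_, hP n⟩, rfl⟩)

lemma ev_eq (x : L) (P : D[X]) : aevalTower D.val x P = (P.map D.val.toRingHom).eval x :=
  (eval_map _ _).symm

lemma coeff_map_mem (P : D[X]) (n : ℕ) : (P.map D.val.toRingHom).coeff n ∈ D := by
  rw [coeff_map]; exact (P.coeff n).2

lemma ev_range (D : Subalgebra k L) (x : L) : (aevalTower D.val x).range = adj D x := by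
  ext y
  rw [mem_adj_iff]
  constructor
  · rintro ⟨P, rfl⟩
    exact ⟨_, coeff_map_mem P, (ev_eq x P).symm⟩
  · rintro ⟨P, hP, rfl⟩
    obtain ⟨Q, rfl⟩ := lift_poly hP
    exact ⟨Q, ev_eq x Q⟩

lemma isPoint_adj (hD : IsPoint D O) (h : IsPoint (adj O x) O') : IsPoint (adj D x) O' := by
  have h1 : O ≤ O' := (le_adj _ _).trans h.le
  exact h.of_le_loc (adj_le (hD.le.trans h1) (h.le (self_mem_adj _ _)))
    (adj_le (hD.le_loc.trans (loc_mono (le_adj _ _) h1)) (le_loc _ _ (self_mem_adj _ _)))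

lemma map_val_injective (D : Subalgebra k L) :
    Function.Injective (Polynomial.map D.val.toRingHom) :=
  map_injective _ Subtype.val_injective

lemma free (hO : LCI O) (hx : KP O x ∅) (h : IsPoint (adj O x) O') : LCI O' := by
  obtain ⟨D, hD, hp⟩ := hO
  refine ⟨adj D x, ?_, isPoint_adj hp h⟩
  rw [← ev_range]
  refine gci_congr (gci_poly hD) (AlgEquiv.ofInjective _ ?_)
  rw [injective_iff_map_eq_zero]
  intro P hP
  apply map_val_injective D
  ext n
  have := hx _ (fun n => hp.le (coeff_map_mem P n)) ((ev_eq x P).symm.trans hP) n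
  rw [Submodule.span_empty, Submodule.mem_bot] at this
  rw [this, Polynomial.map_zero, coeff_zero]

lemma blow (hO : LCI O) (ha : a ∈ O) (hb : b ∈ O) (hb0 : b ≠ 0) (hn : NZD O {b} a)
    (h : IsPoint (adj O (a / b)) O') : LCI O' := by
  classical
  obtain ⟨D, hD, hp⟩ := hO
  have h1 : O ≤ O' := (le_adj _ _).trans h.le
  obtain ⟨s, hs, hu, H⟩ := clear (D := D) (O := O) {a, b} (by
    intro y hy
    rcases Finset.mem_insert.1 hy with rfl | hy
    · exact hp.le_loc ha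
    · rw [Finset.mem_singleton.1 hy]; exact hp.le_loc hb)
  have ha' : s * a ∈ D := H a (by simp)
  have hb' : s * b ∈ D := H b (by simp)
  let f : D[X] := C ⟨_, hb'⟩ * X - C ⟨_, ha'⟩
  have hf : f.map D.val.toRingHom = C s * (C b * X - C a) := by
    simp only [f, Polynomial.map_sub, Polynomial.map_mul, map_C, map_X]
    change C (s * b) * X - C (s * a) = _
    rw [C_mul, C_mul]; ring
  refine lci_of_ker (aevalTower D.val (a / b)) (gci_poly hD)
    (by rw [ev_range]; exact isPoint_adj hp h) f (fun e => ?_) ?_ fun P hP => ?_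
  · have := congrArg (fun p => p.coeff 1) hf
    simp only [e, Polynomial.map_zero, coeff_zero, coeff_C_mul, coeff_sub, coeff_X_one, mul_one,
      coeff_C_succ, sub_zero] at this
    exact mul_ne_zero hu.2.1 hb0 this.symm
  · rw [ev_eq, hf]
    simp [mul_div_cancel₀ _ hb0]
  · obtain ⟨Q, hQ, e⟩ := rel ha hb hb0 hn (fun n => hp.le (coeff_map_mem P n))
      ((ev_eq _ P).symm.trans hP)
    obtain ⟨t, ht, hv, H'⟩ := clear (D := D) (O := O) Q.coeffs (by
      intro y hy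
      obtain ⟨n, -, rfl⟩ := mem_coeffs_iff.1 hy
      exact hp.le_loc (hQ n))
    obtain ⟨Q', hQ'⟩ := lift_poly (D := D) (P := C t * Q) fun n => by
      rw [coeff_C_mul]
      by_cases h0 : Q.coeff n = 0
      · rw [h0, mul_zero]; exact zero_mem _
      · exact H' _ (coeff_mem_coeffs h0)
    refine ⟨C ⟨s * t, mul_mem hs ht⟩, ?_, Q', map_val_injective D ?_⟩
    · rw [aevalTower_C]; exact (hu.mul hv).mono h1
    · rw [Polynomial.map_mul, Polynomial.map_mul, hf, hQ', e, map_C]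
      change C (s * t) * _ = _
      rw [C_mul]; ring

lemma un_map (ρ : O →ₐ[k] L) (y : O) (hy : Un O y) : Un ρ.range (ρ y) :=
  (isUnit_iff_un (ρ.rangeRestrict y)).1 (((isUnit_iff_un y).2 hy).map ρ.rangeRestrict)

lemma quot' (ρ : O →ₐ[k] L) {f : L} (hO : LCI O) (hf : f ∈ O) (hf0 : f ≠ 0)
    (hk : ∀ w : O, ρ w = 0 ↔ (w : L) ∈ Submodule.span O {f}) : LCI ρ.range := by
  obtain ⟨D, hD, hp⟩ := hO
  obtain ⟨c, hc, d, hd, hu, rfl⟩ := hp.le_loc hf
  have hc0 : c ≠ 0 := fun e => hf0 (by rw [e, zero_div])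
  have := hp.lcl.isLocalRing
  have : IsLocalRing ρ.range :=
    IsLocalRing.of_surjective' ρ.rangeRestrict.toRingHom ρ.rangeRestrict_surjective
  refine lci_of_ker (ρ.comp (Subalgebra.inclusion hp.le)) hD
    ⟨?_, lcl_of_isLocalRing, ?_⟩ ⟨c, hc⟩ (fun e => hc0 (congrArg Subtype.val e)) ?_ fun z hz => ?_
  · rintro _ ⟨y, rfl⟩
    exact ⟨_, rfl⟩
  · rintro _ ⟨y, rfl⟩
    obtain ⟨p, hp', q, hq, hv, e⟩ := hp.le_loc y.2
    have hv' := un_map ρ ⟨q, hp.le hq⟩ hv
    refine ⟨_, ⟨⟨p, hp'⟩, rfl⟩, _, ⟨⟨q, hq⟩, rfl⟩, hv', ?_⟩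
    refine eq_div_of_mul_eq hv'.2.1 ?_
    change ρ y * ρ ⟨q, hp.le hq⟩ = ρ ⟨p, hp.le hp'⟩
    rw [← map_mul]
    congr 1
    apply Subtype.ext
    change (y : L) * q = p
    rw [e, div_mul_cancel₀ _ hv.2.1]
  · exact (hk ⟨c, hp.le hc⟩).2 (mem_span_one.2 ⟨d, hu.1, (div_mul_cancel₀ _ hu.2.1).symm⟩)
  · obtain ⟨w, hw, e⟩ := mem_span_one.1 ((hk ⟨z, hp.le z.2⟩).1 hz)
    obtain ⟨p, hp', q, hq, hv, rfl⟩ := hp.le_loc hw
    refine ⟨⟨d * q, mul_mem hd hq⟩, un_map ρ ⟨d * q, hp.le (mul_mem hd hq)⟩ (hu.mul hv),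
      ⟨p, hp'⟩, Subtype.ext ?_⟩
    change d * q * (z : L) = c * p
    have e' : (z : L) = c / d * (p / q) := e
    have := hu.2.1
    have := hv.2.1
    rw [e']; field_simp

lemma fg_le {D' : Subalgebra k L} (hD : D.FG) (h : D ≤ loc D' O) :
    ∃ t ∈ D', Un O t ∧ D ≤ adj D' t⁻¹ := by
  obtain ⟨S, rfl⟩ := hD
  obtain ⟨t, ht, hu, H⟩ := clear (D := D') (O := O) S fun s hs => h (Algebra.subset_adjoin hs)
  refine ⟨t, ht, hu, Algebra.adjoin_le fun s hs => ?_⟩
  have := mul_mem (self_mem_adj D' t⁻¹) (le_adj D' t⁻¹ (H s hs))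
  rwa [inv_mul_cancel_left₀ hu.2.1] at this

lemma gci_adj_inv (hD : GCI k D) (hx : x ∈ D) (hx0 : x ≠ 0) : GCI k (adj D x⁻¹) := by
  have := gci_inv D.val ⟨x, hx⟩ hx0 hD Subtype.val_injective
  rwa [Subalgebra.range_val] at this

lemma spread (hO : LCI O) (hD : D.FG) (hp : IsPoint D O) :
    ∃ h ∈ D, Un O h ∧ GCI k (adj D h⁻¹) := by
  obtain ⟨D', hD', hp'⟩ := hO
  obtain ⟨s, hs, hu, H⟩ := fg_le hD (hp.le.trans hp'.le_loc)
  obtain ⟨t, ht, hv, H'⟩ := fg_le ((Subalgebra.fg_iff_finiteType D').2 (gci_finiteType hD'))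
    (hp'.le.trans hp.le_loc)
  obtain ⟨N, hN⟩ := den ht hv.2.1 (H' hs)
  have hs0 := hu.2.1
  have ht0 := hv.2.1
  refine ⟨t ^ N * s * t, mul_mem hN ht, ((hv.pow N).mul hu).mul hv, ?_⟩
  have e : adj (adj D' s⁻¹) t⁻¹ = adj D (t ^ N * s * t)⁻¹ := by
    have h1 : t⁻¹ ∈ adj D (t ^ N * s * t)⁻¹ := by
      have := mul_mem (le_adj D _ hN) (self_mem_adj D (t ^ N * s * t)⁻¹)
      convert this using 1
      field_simp
    refine le_antisymm (adj_le (adj_le (H'.trans (adj_le (le_adj _ _) h1)) ?_) h1)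
      (adj_le (H.trans (le_adj _ _)) ?_)
    · have := mul_mem (le_adj D _ (mul_mem (pow_mem ht N) ht)) (self_mem_adj D (t ^ N * s * t)⁻¹)
      convert this using 1
      field_simp
    · rw [mul_inv, mul_inv, ← inv_pow]
      exact mul_mem (mul_mem (pow_mem (self_mem_adj _ _) _) (le_adj _ _ (self_mem_adj _ _)))
        (self_mem_adj _ _)
  rw [← e]
  exact gci_adj_inv (gci_adj_inv hD' hs hs0) (H ht) ht0

lemma bot : LCI (⊥ : Subalgebra k L) := by
  have : IsLocalRing (⊥ : Subalgebra k L) := (Algebra.botEquiv k L).symm.toRingEquiv.isLocalRing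
  refine ⟨⊥, ?_, le_rfl, lcl_of_isLocalRing, le_loc _ _⟩
  refine gci_congr (R := MvPolynomial (Fin 0) k) ⟨0, [], AlgHom.id _ _, .nil _ _,
    Function.surjective_id, ?_⟩
    ((MvPolynomial.isEmptyAlgEquiv k (Fin 0)).trans (Algebra.botEquiv k L).symm)
  rw [Ideal.ofList_nil]
  exact (RingHom.injective_iff_ker_eq_bot _).1 Function.injective_id

end Alg

variable {k L : Type} [Field k] [Field L] [Algebra k L]

theorem alg : AlgStmt k L where
  bot := Alg.bot
  noeth := fun _ ⟨_, hD, hp⟩ => ⟨hp.lcl, haveI := Alg.gci_noeth hD; hp.isNoetherianRing⟩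
  kp := fun _ _ _ => Alg.kp
  blow := fun _ _ _ _ => Alg.blow
  free := fun _ _ _ => Alg.free
  quot := fun W O π f hO hW hf hf0 hk => by
    have e : img π O = (π.comp (Subalgebra.inclusion hW)).range := by
      ext y
      constructor
      · rintro ⟨w, hw, rfl⟩
        exact ⟨⟨w, hw⟩, rfl⟩
      · rintro ⟨w, rfl⟩
        exact ⟨⟨w, hW w.2⟩, w.2, rfl⟩
    rw [e]
    exact Alg.quot' _ hO hf hf0 fun w => hk ⟨w, hW w.2⟩ w.2
  spread := fun _ _ => Alg.spread

end Pool.Agent.MP_19ffc6_ag.Lci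

end MrgPart2

-- marker of a merged file
example : 731051 + 258687 = 731051 + 258687 := rfl
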