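import Mathlib.Algebra.BigOperators.Field
import Mathlib.Data.Int.ConditionallyCompleteOrder
import Mathlib.Algebra.Order.Ring.Star
import Pool.Agent.MP_19ffc6_ag.Lci.Bridge

-- ======== part 0: formerly Pool.Agent.MP_19ffc6_ag.Lci.Nzd
section MrgPart0

/-! Nonzero divisors and regular crossings. -/

namespace Pool.Agent.MP_19ffc6_ag.Lci

open Pool.Agent.MP_19ffc6_ag.Wild Polynomial

variable {k L : Type} [Field k] [Field L] [Algebra k L]

namespace Nzd

variable {D O : Subalgebra k L} {S : Set L} {x y t a b : L}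

lemma clear (h : IsPoint D O) (hy : y ∈ Submodule.span O S) :
    ∃ b ∈ D, Un O b ∧ b * y ∈ Submodule.span D S := by
  induction hy using Submodule.span_induction with
  | mem x hx => exact ⟨1, one_mem _, Un.one _, by rw [one_mul]; exact Submodule.subset_span hx⟩
  | zero => exact ⟨1, one_mem _, Un.one _, by simp⟩
  | add x y _ _ hx hy =>
    obtain ⟨b, hb, hu, e⟩ := hx
    obtain ⟨b', hb', hu', e'⟩ := hy
    refine ⟨b * b', mul_mem hb hb', hu.mul hu', ?_⟩
    rw [show b * b' * (x + y) = b' * (b * x) + b * (b' * y) by ring]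
    exact add_mem (mul_mem_span hb' e) (mul_mem_span hb e')
  | smul c x _ hx =>
    obtain ⟨b, hb, hu, e⟩ := hx
    obtain ⟨a, ha, b', hb', hu', e'⟩ := h.le_loc c.2
    refine ⟨b * b', mul_mem hb hb', hu.mul hu', ?_⟩
    have := hu'.2.1
    rw [show b * b' * (c • x) = a * (b * x) by
      rw [Subalgebra.smul_def, smul_eq_mul, e']; field_simp]
    exact mul_mem_span ha e

lemma loc (h : IsPoint D O) (ht : NZD D S t) : NZD O S t := by
  intro z hz e
  obtain ⟨b, hb, hu, e⟩ := clear h e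
  obtain ⟨a, ha, b', hb', hu', rfl⟩ := h.le_loc hz
  have h1 := hu.2.1
  have h2 := hu'.2.1
  have h3 := ht (b * a) (mul_mem hb ha) (by
    rw [show t * (b * a) = b' * (b * (t * (a / b'))) by field_simp]
    exact mul_mem_span hb' e)
  rw [show a / b' = (b * b')⁻¹ * (b * a) by field_simp]
  exact mul_mem_span (hu.mul hu').2.2 (span_mono' h.le subset_rfl h3)

lemma exists_poly (hy : y ∈ Submodule.span (adj O x) S) :
    ∃ R : L[X], (∀ n, R.coeff n ∈ Submodule.span O S) ∧ R.eval x = y := by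
  induction hy using Submodule.span_induction with
  | mem s hs =>
    refine ⟨C s, fun n => ?_, eval_C⟩
    rw [coeff_C]
    split_ifs
    exacts [Submodule.subset_span hs, zero_mem _]
  | zero => exact ⟨0, by simp, eval_zero⟩
  | add y z _ _ hy hz =>
    obtain ⟨R, hR, rfl⟩ := hy
    obtain ⟨R', hR', rfl⟩ := hz
    exact ⟨R + R', fun n => by rw [coeff_add]; exact add_mem (hR n) (hR' n), eval_add⟩
  | smul c y _ hy =>
    obtain ⟨R, hR, rfl⟩ := hy
    obtain ⟨P, hP, e⟩ := mem_adj_iff.1 c.2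
    refine ⟨P * R, fun n => ?_, by rw [eval_mul, e]; rfl⟩
    rw [coeff_mul]
    exact sum_mem fun c _ => mul_mem_span (hP _) (hR _)

lemma eval_mem_span {Q : L[X]} (hQ : ∀ n, Q.coeff n ∈ Submodule.span O S) :
    Q.eval x ∈ Submodule.span (adj O x) S := by
  rw [eval_eq_sum_range]
  exact sum_mem fun n _ => mul_mem_span' (span_mono' (le_adj _ _) subset_rfl (hQ n))
    (pow_mem (self_mem_adj _ _) n)

lemma poly {P : L[X]} (hK : KP O x S) (hS : ∀ s ∈ S, s ∈ O) (hP : ∀ n, P.coeff n ∈ O)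
    (h : NZD O S P.leadingCoeff) : NZD (adj O x) S (P.eval x) := by
  classical
  intro z hz e
  obtain ⟨Q, hQ, rfl⟩ := mem_adj_iff.1 hz
  obtain ⟨R, hR, e⟩ := exists_poly e
  have h1 : ∀ n, (P * Q).coeff n ∈ Submodule.span O S := fun n => by
    have := hK (P * Q - R) (fun n => by
      rw [coeff_sub]
      exact sub_mem (coeff_mul_mem hP hQ n) (mem_of_mem_span hS (hR n)))
      (by rw [eval_sub, e, eval_mul, sub_self]) n
    rw [coeff_sub] at this
    simpa using add_mem this (hR n)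
  refine eval_mem_span fun n => ?_
  by_contra hn
  obtain ⟨m, hm, hmax⟩ := (Q.support.filter fun m => Q.coeff m ∉ Submodule.span O S).exists_max_image
    id ⟨n, Finset.mem_filter.2 ⟨mem_support_iff.2 fun h0 => hn (h0 ▸ zero_mem _), hn⟩⟩
  refine (Finset.mem_filter.1 hm).2 (h _ (hQ m) ?_)
  have h2 := h1 (P.natDegree + m)
  rw [coeff_mul, ← Finset.add_sum_erase _ _ (a := (P.natDegree, m)) (by simp)] at h2
  refine (add_mem_cancel_right (sum_mem fun c hc => ?_)).1 h2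
  obtain ⟨hne, hc⟩ := Finset.mem_erase.1 hc
  rw [Finset.HasAntidiagonal.mem_antidiagonal] at hc
  rcases lt_or_ge P.natDegree c.1 with hlt | hge
  · rw [coeff_eq_zero_of_natDegree_lt hlt, zero_mul]
    exact zero_mem _
  · refine mul_mem_span (hP _) ?_
    by_contra hc2
    have := hmax c.2 (Finset.mem_filter.2
      ⟨mem_support_iff.2 fun h0 => hc2 (h0 ▸ zero_mem _), hc2⟩)
    simp only [id] at this
    exact hne (Prod.ext (by simp only; omega) (by simp only; omega))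

lemma const (hK : KP O x S) (hS : ∀ s ∈ S, s ∈ O) (ht : t ∈ O) (h : NZD O S t) :
    NZD (adj O x) (insert x S) t := by
  intro z hz e
  obtain ⟨Q, hQ, rfl⟩ := mem_adj_iff.1 hz
  obtain ⟨z', hz', y, hy, e⟩ := mem_span_ins.1 e
  obtain ⟨Z, hZ, rfl⟩ := mem_adj_iff.1 hz'
  obtain ⟨R, hR, rfl⟩ := exists_poly hy
  have h1 := hK (C t * Q - X * Z - R) (fun n => by
    rw [coeff_sub, coeff_sub]
    exact sub_mem (sub_mem (coeff_mul_mem (coeff_C_mem ht) hQ n)
      (coeff_mul_mem (coeff_X_mem O) hZ n)) (mem_of_mem_span hS (hR n)))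
    (by simp [e]) 0
  rw [coeff_sub, coeff_sub, coeff_C_mul, coeff_X_mul_zero, sub_zero] at h1
  have h2 := h _ (hQ 0) (by simpa using add_mem h1 (hR 0))
  refine mem_span_ins.2 ⟨Q.divX.eval x, mem_adj_iff.2 ⟨_, fun n => by
    rw [coeff_divX]; exact hQ (n + 1), rfl⟩, Q.coeff 0,
    span_mono' (le_adj _ _) subset_rfl h2, ?_⟩
  conv_lhs => rw [← X_mul_divX_add Q, eval_add, eval_mul, eval_X, eval_C]

lemma swap (hO : Lcl O) [IsNoetherianRing O] (ha : a ∈ O) (hua : ¬ Un O a) (hb : b ∈ O)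
    (h1 : NZD O S a) (h2 : NZD O (insert a S) b) :
    NZD O S b ∧ NZD O (insert b S) a := by
  constructor
  · have := hO.isLocalRing
    let N : Submodule O L :=
      { carrier := {z | z ∈ O ∧ b * z ∈ Submodule.span O S}
        add_mem' := fun h h' => ⟨add_mem h.1 h'.1, by rw [mul_add]; exact add_mem h.2 h'.2⟩
        zero_mem' := ⟨zero_mem _, by simp⟩
        smul_mem' := fun c z h => ⟨mul_mem c.2 h.1, by
          rw [mul_smul_comm]; exact Submodule.smul_mem _ _ h.2⟩ }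
    have hfg : N.FG := by
      have h3 : N ≤ Submodule.span O {1} := fun z hz => mem_span_one.2 ⟨z, hz.1, (one_mul _).symm⟩
      have : IsNoetherian O (Submodule.span O {1} : Submodule O L) :=
        isNoetherian_span_of_finite _ (Set.finite_singleton _)
      exact (Submodule.fg_top _).1 ((isNoetherian_of_le h3).1 ⊤)
    have h4 : N ≤ Submodule.span O S := by
      refine Submodule.le_of_le_smul_of_le_jacobson_bot (I := IsLocalRing.maximalIdeal O) hfg
        (IsLocalRing.maximalIdeal_le_jacobson _) fun z hz => ?_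
      obtain ⟨z', hz', y, hy, rfl⟩ := mem_span_ins.1
        (h2 z hz.1 (span_mono' le_rfl (Set.subset_insert _ _) hz.2))
      have h5 : z' ∈ N := ⟨hz', h1 _ (mul_mem hb hz') (by
        rw [show a * (b * z') = b * (a * z' + y) - b * y by ring]
        exact sub_mem hz.2 (mul_mem_span hb hy))⟩
      rw [add_comm]
      exact Submodule.add_mem_sup hy (Submodule.smul_mem_smul (r := (⟨a, ha⟩ : O))
        (fun hu => hua ((isUnit_iff_un _).1 hu)) h5)
    exact fun z hz e => h4 ⟨hz, e⟩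
  · intro z hz e
    obtain ⟨w, hw, y, hy, e⟩ := mem_span_ins.1 e
    obtain ⟨w', hw', y', hy', rfl⟩ := mem_span_ins.1 (h2 w hw (mem_span_ins.2
      ⟨z, hz, -y, neg_mem hy, by rw [e]; ring⟩))
    refine mem_span_ins.2 ⟨w', hw', z - b * w', h1 _ (sub_mem hz (mul_mem hb hw')) ?_, by ring⟩
    rw [show a * (z - b * w') = b * y' + y by linear_combination e]
    exact add_mem (mul_mem_span hb hy') hy

variable {ι : Type} [Fintype ι] {u : ι → L}

/-- regular crossings for a set of indices -/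
def RCs (O : Subalgebra k L) (u : ι → L) (σ : Set ι) : Prop :=
  ∀ τ ⊆ σ, ∀ ρ ∈ σ, ρ ∉ τ → NZD O (u '' τ) (u ρ)

lemma RCs.insert (hO : Lcl O) [IsNoetherianRing O] (hu : ∀ ρ, u ρ ∈ O) {σ : Set ι}
    (hσ : ∀ ρ ∈ σ, ¬ Un O (u ρ)) (h : RCs O u σ) {g : ι} (hg : NZD O (u '' σ) (u g)) :
    RCs O u (insert g σ) := by
  classical
  have h1 : ∀ δ : Finset ι, ↑δ ⊆ σ → NZD O (u '' (σ \ δ)) (u g) := by
    intro δ
    induction δ using Finset.induction_on with
    | empty => simpa using hg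
    | insert ρ δ hρ ih =>
      intro hδ
      rw [Finset.coe_insert, Set.insert_subset_iff] at hδ
      refine (swap hO (hu ρ) (hσ ρ hδ.1) (hu g) (h _ Set.sdiff_subset ρ hδ.1 (by simp)) ?_).1
      rw [← Set.image_insert_eq]
      convert ih hδ.2 using 2
      ext j
      by_cases hj : j = ρ <;> simp [hj, hδ.1, hρ]
  have h2 : ∀ τ ⊆ σ, NZD O (u '' τ) (u g) := fun τ hτ => by
    have := h1 (σ \ τ).toFinite.toFinset (by rw [Set.Finite.coe_toFinset]; exact Set.sdiff_subset)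
    rwa [Set.Finite.coe_toFinset, Set.sdiff_sdiff_cancel_left hτ] at this
  intro τ hτ ρ hρ hρτ
  by_cases hgτ : g ∈ τ
  · have hρσ : ρ ∈ σ := hρ.resolve_left fun e => hρτ (e ▸ hgτ)
    have h3 : τ \ {g} ⊆ σ := fun j hj => (hτ hj.1).resolve_left hj.2
    have := (swap hO (hu ρ) (hσ ρ hρσ) (hu g) (h _ h3 ρ hρσ fun e => hρτ e.1) (by
      rw [← Set.image_insert_eq]
      exact h2 _ (Set.insert_subset hρσ h3))).2
    rwa [← Set.image_insert_eq, Set.insert_sdiff_singleton, Set.insert_eq_of_mem hgτ] at this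
  · have h3 : τ ⊆ σ := fun j hj => (hτ hj).resolve_left fun e => hgτ (e ▸ hj)
    rcases hρ with rfl | hρ
    exacts [h2 τ h3, h τ h3 ρ hρ hρτ]

lemma chain {rk : ι → ℕ} (hO : Lcl O) [IsNoetherianRing O] (hu : ∀ ρ, u ρ ∈ O ∧ u ρ ≠ 0)
    (hrk : Function.Injective rk)
    (h : ∀ ρ, ¬ Un O (u ρ) → NZD O (u '' {τ | ¬ Un O (u τ) ∧ rk τ < rk ρ}) (u ρ)) : RC O u := by
  have h1 : ∀ n, RCs O u {τ | ¬ Un O (u τ) ∧ rk τ < n} := by
    intro n
    induction n with
    | zero => exact fun τ _ ρ hρ => absurd hρ.2 (Nat.not_lt_zero _)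
    | succ n ih =>
      by_cases hg : ∃ g, ¬ Un O (u g) ∧ rk g = n
      · obtain ⟨g, hg, rfl⟩ := hg
        convert ih.insert hO (fun ρ => (hu ρ).1) (fun ρ hρ => hρ.1) (h g hg) using 1
        ext j
        simp only [Set.mem_ofPred_eq, Set.mem_insert_iff, Nat.lt_succ_iff_lt_or_eq, hrk.eq_iff]
        constructor
        · tauto
        · rintro (rfl | hj) <;> tauto
      · convert ih using 1
        ext j
        simp only [Set.mem_ofPred_eq, Nat.lt_succ_iff_lt_or_eq]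
        exact ⟨fun hj => ⟨hj.1, hj.2.resolve_right fun e => hg ⟨j, hj.1, e⟩⟩,
          fun hj => ⟨hj.1, Or.inl hj.2⟩⟩
  refine ⟨hu, fun τ ρ hρ => ?_⟩
  by_cases h2 : Un O (u ρ)
  · exact .of_un h2
  by_cases h3 : ∃ j ∈ τ, Un O (u j)
  · obtain ⟨j, hj, h3⟩ := h3
    exact .of_un_mem (Submodule.subset_span ⟨j, hj, rfl⟩) h3
  have h4 : ∀ j, rk j < Finset.univ.sup rk + 1 := fun j =>
    Nat.lt_succ_of_le (Finset.le_sup (Finset.mem_univ j))
  exact h1 _ τ (fun j hj => ⟨fun e => h3 ⟨j, hj, e⟩, h4 j⟩) ρ ⟨h2, h4 ρ⟩ hρ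

lemma add {G : L} (hO : Lcl O) [IsNoetherianRing O] (h : RC O u) (hG : G ∈ O) (hG0 : G ≠ 0)
    (hN : NZD O (big O u) G) : RC O fun o : Option ι => o.elim G u := by
  let e := Fintype.equivFin ι
  refine chain (rk := fun o => o.elim (Fintype.card ι) fun i => e i) hO
    (fun o => by cases o; exacts [⟨hG, hG0⟩, h.1 _]) ?_ ?_
  · rintro (_ | i) (_ | j) hij
    · rfl
    · exact absurd hij (e j).2.ne'
    · exact absurd hij (e i).2.ne
    · exact congrArg some (e.injective (Fin.ext hij))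
  · rintro (_ | i) _
    · change NZD O _ G
      convert hN using 1
      ext s
      constructor
      · rintro ⟨_ | j, hj, rfl⟩
        exacts [absurd hj.2 (lt_irrefl _), ⟨j, hj.1, rfl⟩]
      · rintro ⟨j, hj, rfl⟩
        exact ⟨some j, ⟨hj, (e j).2⟩, rfl⟩
    · change NZD O _ (u i)
      convert h.2 {j | ¬ Un O (u j) ∧ (e j : ℕ) < e i} i (fun hi => lt_irrefl _ hi.2) using 1
      ext s
      constructor
      · rintro ⟨_ | j, hj, rfl⟩
        exacts [absurd hj.2 (e i).2.le.not_gt, ⟨j, hj, rfl⟩]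
      · rintro ⟨j, hj, rfl⟩
        exact ⟨some j, hj, rfl⟩

lemma exp {ρ : ι} {w : L} {c : ι → ℤ} (h : RC O u) (hρ : ¬ Un O (u ρ)) (hw : NZD O {u ρ} w)
    (hc : w * mn u c ∈ O) : 0 ≤ c ρ := by
  by_contra hneg
  have h1 : mn u (fun τ => max (-c τ) 0) ∈ Submodule.span O {u ρ} :=
    mn_mem_span h.1 (fun τ _ => le_max_right _ _) (by omega)
  have h2 : NZD O {u ρ} (mn u fun τ => max (c τ) 0) := NZD.prod _ _ fun τ _ => by
    obtain ⟨n, hn⟩ := Int.eq_ofNat_of_zero_le (le_max_right (c τ) 0)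
    beta_reduce
    by_cases e : τ = ρ
    · rw [e, max_eq_right (not_le.1 hneg).le, zpow_zero]
      exact ⟨one_mem _, .of_un (Un.one _)⟩
    · rw [hn, zpow_natCast]
      refine ⟨pow_mem (h.1 τ).1 n, NZD.pow ?_ (h.1 τ).1 n⟩
      simpa using h.2 {ρ} τ e
  have h3 := (hw.mul h2 (mn_mem h.1 fun τ _ => le_max_right _ _)) 1 (one_mem _) (by
    rw [mul_one, show (fun τ => max (c τ) 0) = c + fun τ => max (-c τ) 0 from
      funext fun τ => by simp only [Pi.add_apply]; omega, mn_add fun τ => (h.1 τ).2, ← mul_assoc]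
    exact mul_mem_span hc h1)
  obtain ⟨z, hz, e⟩ := mem_span_one.1 h3
  exact hρ (Un.of_mul (h.1 ρ).1 hz (e ▸ Un.one _))

end Nzd

theorem nzd : NzdStmt k L where
  loc _ _ _ _ h _ ht := Nzd.loc h ht
  poly _ _ _ _ := Nzd.poly
  const _ _ _ _ := Nzd.const
  chain _ _ _ _ _ hO _ := Nzd.chain hO
  add _ _ _ _ _ hO _ := Nzd.add hO
  exp _ _ _ _ _ _ _ h hρ _ := Nzd.exp h hρ

end Pool.Agent.MP_19ffc6_ag.Lci

end MrgPart0

-- ======== part 1: formerly Pool.Agent.MP_19ffc6_ag.Lci.Local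
section MrgPart1

/-! The invariants in a chart of the blow-up of the intersection of two divisors. -/

namespace Pool.Agent.MP_19ffc6_ag.Lci

open Pool.Agent.MP_19ffc6_ag.Wild Polynomial

variable {k L : Type} [Field k] [Field L] [Algebra k L]

namespace Local

variable {ι : Type} {O O' : Subalgebra k L} {u : ι → L} {u' : Option ι → L} {a b : ι}

lemma nzd_of_mul {S : Set L} {s t : L} (hs : s ∈ O) (h : NZD O S (s * t)) : NZD O S t :=
  fun z hz e => h z hz (by rw [mul_assoc]; exact mul_mem_span hs e)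

lemma x_mem (h : Step O u O' u' a b) : u a / u b ∈ O' := h.pt.le (self_mem_adj _ _)

lemma mem' (h : Step O u O' u' a b) (hu : ∀ ρ, u ρ ∈ O ∧ u ρ ≠ 0) (o : Option ι) :
    u' o ∈ O' ∧ u' o ≠ 0 := by
  rcases o with _ | ρ
  · rw [h.none]; exact ⟨h.dom.1 (hu b).1, (hu b).2⟩
  · by_cases ha : ρ = a
    · subst ha; rw [h.left]; exact ⟨x_mem h, div_ne_zero (hu _).2 (hu _).2⟩
    by_cases hb : ρ = b
    · subst hb; rw [h.right]; exact ⟨one_mem _, one_ne_zero⟩
    rw [h.other ρ ha hb]; exact ⟨h.dom.1 (hu ρ).1, (hu ρ).2⟩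

/-! ### The case where the blow-up is an isomorphism -/

lemma rescale (hu : ∀ ρ, u ρ ≠ 0) (he : ∀ ρ, Un O (u' (some ρ) / u ρ)) {τ : Set (Option ι)}
    (hτ : none ∉ τ) {t : L} (h : NZD O (u '' (some ⁻¹' τ)) t) : NZD O (u' '' τ) t := by
  refine h.congr ?_ ?_
  · rintro _ ⟨ρ, hρ, rfl⟩
    have h0 : u' (some ρ) ≠ 0 := left_ne_zero_of_mul (by simpa [div_eq_mul_inv] using (he ρ).2.1)
    have := mul_mem_span (he ρ).2.2 (Submodule.subset_span (s := u' '' τ) ⟨some ρ, hρ, rfl⟩)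
    rwa [inv_div, div_mul_cancel₀ _ h0] at this
  · rintro _ ⟨o, ho, rfl⟩
    rcases o with _ | ρ
    · exact (hτ ho).elim
    · have := mul_mem_span (he ρ).1
        (Submodule.subset_span (s := u '' (some ⁻¹' τ)) ⟨ρ, ho, rfl⟩)
      rwa [div_mul_cancel₀ _ (hu ρ)] at this

lemma rc_rescale (hR : RC O u) (hm : ∀ o, u' o ∈ O ∧ u' o ≠ 0) (h0 : Un O (u' none))
    (he : ∀ ρ, Un O (u' (some ρ) / u ρ)) : RC O u' := by
  refine ⟨hm, fun τ o ho => ?_⟩
  by_cases hτ : none ∈ τ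
  · exact .of_un_mem (Submodule.subset_span ⟨none, hτ, rfl⟩) h0
  rcases o with _ | ρ
  · exact .of_un h0
  refine rescale (fun ρ => (hR.1 ρ).2) he hτ ?_
  have := (hR.2 (some ⁻¹' τ) ρ ho).mul (.of_un (he ρ)) (he ρ).1
  rwa [mul_div_cancel₀ _ (hR.1 ρ).2] at this

lemma big_rescale (hu : ∀ ρ, u ρ ≠ 0) (h0 : Un O (u' none))
    (he : ∀ ρ, Un O (u' (some ρ) / u ρ)) {t : L} (h : NZD O (big O u) t) :
    NZD O (big O u') t := by
  refine rescale (τ := {o | ¬ Un O (u' o)}) hu he (fun h => h h0) ?_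
  have : (some ⁻¹' {o | ¬ Un O (u' o)}) = {ρ | ¬ Un O (u ρ)} := by
    ext ρ
    simp only [Set.mem_preimage, Set.mem_ofPred_eq]
    refine not_congr ⟨fun h => ?_, fun h => ?_⟩
    · have := un_div h (he ρ)
      rwa [div_div_cancel₀ h.2.1] at this
    · have := (he ρ).mul h
      rwa [div_mul_cancel₀ _ (hu ρ)] at this
  rwa [this]

lemma un_ratio (h : Step O u O' u' a b) (hu : ∀ ρ, u ρ ≠ 0) (hb : Un O (u b)) (ρ : ι) :
    Un O (u' (some ρ) / u ρ) := by
  by_cases e : ρ = a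
  · subst e; rw [h.left, div_right_comm, div_self (hu _), one_div]; exact hb.inv
  by_cases e' : ρ = b
  · subst e'; rw [h.right, one_div]; exact hb.inv
  rw [h.other ρ e e', div_self (hu ρ)]; exact Un.one _

lemma eq_of_un (h : Step O u O' u' a b) (ha : u a ∈ O) (hb : Un O (u b)) : O' = O := by
  have hp := h.pt
  rw [adj_eq_self (by rw [div_eq_mul_inv]; exact mul_mem ha hb.2.2)] at hp
  exact h.dom.eq_of_isPoint hp

/-! ### The case of a point on the exceptional divisor -/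

lemma not_un_left (h : Step O u O' u' a b) (hu : ∀ ρ, u ρ ∈ O ∧ u ρ ≠ 0) (hb : ¬ Un O (u b)) :
    ¬ Un O (u a) := fun ha => by
  refine hb (h.dom.2 _ (hu b).1 (Un.of_mul (h.dom.1 (hu b).1) (x_mem h) ?_))
  rw [mul_div_cancel₀ _ (hu b).2]
  exact ha.mono h.dom.1

lemma span_one (h : Step O u O' u' a b) (hb : u b ≠ 0) {τ : Set (Option ι)} (hτ : none ∈ τ) :
    ∀ s ∈ u '' insert a (insert b (some ⁻¹' τ)), s ∈ Submodule.span O' (u' '' τ) := by
  have h0 : u b ∈ Submodule.span O' (u' '' τ) := Submodule.subset_span ⟨none, hτ, h.none⟩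
  rintro _ ⟨ρ, hρ, rfl⟩
  by_cases e : ρ = a
  · have := mul_mem_span (x_mem h) h0
    rwa [div_mul_cancel₀ _ hb, ← e] at this
  by_cases e' : ρ = b
  · rwa [e']
  exact Submodule.subset_span ⟨some ρ, (hρ.resolve_left e).resolve_left e', h.other ρ e e'⟩

lemma span_two (h : Step O u O' u' a b) {τ : Set (Option ι)} (hτ : some b ∉ τ) :
    ∀ s ∈ u' '' τ, s ∈ u '' insert a (insert b (some ⁻¹' τ)) ∨ (s = u a / u b ∧ some a ∈ τ) := by
  rintro _ ⟨o, ho, rfl⟩
  rcases o with _ | ρ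
  · exact Or.inl ⟨b, Or.inr (Or.inl rfl), h.none.symm⟩
  by_cases e : ρ = a
  · subst e; exact Or.inr ⟨h.left, ho⟩
  have e' : ρ ≠ b := fun e' => hτ (e' ▸ ho)
  exact Or.inl ⟨ρ, Or.inr (Or.inr ho), (h.other ρ e e').symm⟩

lemma kp_of (hA : AlgStmt k L) (hR : RC O u) (hab : a ≠ b) {σ : Set ι} (ha : a ∈ σ) (hb : b ∈ σ) :
    KP O (u a / u b) (u '' σ) := by
  refine (hA.kp O (u a) (u b) (hR.1 a).1 (hR.1 b).1 (hR.1 b).2
    (by simpa using hR.2 {b} a hab)).mono ?_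
  rintro s (rfl | rfl)
  exacts [Submodule.subset_span ⟨a, ha, rfl⟩, Submodule.subset_span ⟨b, hb, rfl⟩]

lemma img_mem (hR : RC O u) (σ : Set ι) : ∀ s ∈ u '' σ, s ∈ O := by
  rintro _ ⟨ρ, -, rfl⟩; exact (hR.1 ρ).1

/-- Values of polynomials at `u a / u b`, at a point off the strict transform of `a`. -/
lemma nzd_poly (hN : NzdStmt k L) (hA : AlgStmt k L) (hR : RC O u) (h : Step O u O' u' a b)
    {τ : Set (Option ι)} (h0 : none ∈ τ) (ha : some a ∉ τ) (hb : some b ∉ τ) {P : L[X]}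
    (hP : ∀ n, P.coeff n ∈ O)
    (hl : NZD O (u '' insert a (insert b (some ⁻¹' τ))) P.leadingCoeff) :
    NZD O' (u' '' τ) (P.eval (u a / u b)) := by
  have h1 := hN.poly O _ _ P (kp_of hA hR h.ne (Or.inl rfl) (Or.inr (Or.inl rfl)))
    (img_mem hR _) hP hl
  refine (hN.loc _ O' _ _ h.pt (mem_adj_iff.2 ⟨P, hP, rfl⟩) h1).congr
    (span_one h (hR.1 b).2 h0) fun s hs => ?_
  exact Submodule.subset_span ((span_two h hb s hs).resolve_right fun e => ha e.2)

/-- Constants, at a point on the strict transform of `a`. -/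
lemma nzd_const (hN : NzdStmt k L) (hA : AlgStmt k L) (hR : RC O u) (h : Step O u O' u' a b)
    {τ : Set (Option ι)} (h0 : none ∈ τ) (ha : some a ∈ τ) (hb : some b ∉ τ) {t : L}
    (ht : t ∈ O) (hl : NZD O (u '' insert a (insert b (some ⁻¹' τ))) t) :
    NZD O' (u' '' τ) t := by
  have h1 := hN.const O _ _ t (kp_of hA hR h.ne (Or.inl rfl) (Or.inr (Or.inl rfl)))
    (img_mem hR _) ht hl
  refine (hN.loc _ O' _ _ h.pt (le_adj _ _ ht) h1).congr ?_ fun s hs => ?_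
  · rintro s (rfl | hs)
    · exact Submodule.subset_span ⟨some a, ha, h.left⟩
    · exact span_one h (hR.1 b).2 h0 s hs
  · exact Submodule.subset_span ((span_two h hb s hs).elim Or.inr fun e => Or.inl e.1)

lemma rc_exc [Fintype ι] (hN : NzdStmt k L) (hA : AlgStmt k L) (hL : LCI O') (hR : RC O u)
    (h : Step O u O' u' a b) (hb : ¬ Un O (u b)) : RC O' u' := by
  classical
  let e := Fintype.equivFin ι
  let rk : Option ι → ℕ := fun o =>
    o.elim 0 fun ρ => if ρ = a then Fintype.card ι + 1 else e ρ + 1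
  have hrk : ∀ ρ, rk (some ρ) = if ρ = a then Fintype.card ι + 1 else e ρ + 1 := fun _ => rfl
  have hr0 : rk none = 0 := rfl
  have hlt : ∀ ρ, (e ρ : ℕ) < Fintype.card ι := fun ρ => (e ρ).2
  refine hN.chain _ O' u' rk (hA.noeth _ hL).1 (hA.noeth _ hL).2 (mem' h hR.1) ?_ ?_
  · rintro (_ | ρ) (_ | σ) hρ
    · rfl
    · rw [hr0, hrk] at hρ; split_ifs at hρ
    · rw [hr0, hrk] at hρ; split_ifs at hρ
    · rw [hrk, hrk] at hρ
      have := hlt ρ
      have := hlt σ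
      split_ifs at hρ with h1 h2 h2
      · rw [h1, h2]
      · omega
      · omega
      · exact congrArg some (e.injective (Fin.ext (by omega)))
  rintro (_ | ρ) hρ
  · have : {τ | ¬ Un O' (u' τ) ∧ rk τ < rk none} = ∅ := by
      ext τ; simp [hr0]
    rw [this, Set.image_empty]
    exact .of_empty (mem' h hR.1 _).2
  have h0 : none ∈ {τ | ¬ Un O' (u' τ) ∧ rk τ < rk (some ρ)} := by
    refine ⟨fun hu => hb (h.dom.2 _ (hR.1 b).1 (h.none ▸ hu)), ?_⟩
    rw [hr0, hrk]; split_ifs <;> omega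
  have ha : some a ∉ {τ | ¬ Un O' (u' τ) ∧ rk τ < rk (some ρ)} := by
    rintro ⟨-, hlt'⟩
    rw [hrk, hrk, if_pos rfl] at hlt'
    have := hlt ρ
    split_ifs at hlt' <;> omega
  have hb' : some b ∉ {τ | ¬ Un O' (u' τ) ∧ rk τ < rk (some ρ)} :=
    fun hu => hu.1 (h.right ▸ Un.one _)
  by_cases e1 : ρ = a
  · have := nzd_poly hN hA hR h h0 ha hb' (coeff_X_mem O)
      (by rw [leadingCoeff_X]; exact .of_un (Un.one _))
    rwa [eval_X, ← h.left, ← e1] at this
  have e2 : ρ ≠ b := fun e2 => hρ (by rw [e2, h.right]; exact Un.one _)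
  have := nzd_poly hN hA hR h h0 ha hb' (coeff_C_mem (hR.1 ρ).1) (by
    rw [leadingCoeff_C]
    refine hR.2 _ ρ ?_
    rintro (e3 | e3 | e3)
    exacts [e1 e3, e2 e3, lt_irrefl _ e3.2])
  rwa [eval_C, ← h.other ρ e1 e2] at this

lemma big_eq (hR : RC O u) (h : Step O u O' u' a b) (hb : ¬ Un O (u b)) :
    u '' insert a (insert b (some ⁻¹' {o | ¬ Un O' (u' o)})) = big O u := by
  unfold big
  congr 1
  ext ρ
  by_cases e : ρ = a
  · subst e; simpa using not_un_left h hR.1 hb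
  by_cases e' : ρ = b
  · subst e'; simpa using hb
  simp only [Set.mem_insert_iff, e, e', false_or, Set.mem_preimage, Set.mem_ofPred_eq,
    h.other ρ e e']
  exact not_congr ⟨h.dom.2 _ (hR.1 ρ).1, fun hu => hu.mono h.dom.1⟩

/-- A monomial that is a unit upstairs is a unit times a power of `u a / u b`. -/
lemma exists_exp [Fintype ι] (hN : NzdStmt k L) (hR : RC O u) (hR' : RC O' u')
    (h : Step O u O' u' a b) (hb : ¬ Un O (u b)) {r : L} (hr : LMon O u r) (hu : Un O' r) :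
    ∃ j : ℤ, Un O (r / (u a / u b) ^ j) ∧ (¬ Un O' (u a / u b) → j = 0) := by
  classical
  obtain ⟨c, hc⟩ := hr
  have h0 : ∀ ρ, u ρ ≠ 0 := fun ρ => (hR.1 ρ).2
  have h1 : Un O' (mn u' (upd a b c)) := by
    have := un_div hu (hc.mono h.dom.1)
    rwa [div_div_cancel₀ hu.2.1, ← h.mn_eq h0] at this
  have h2 : ∀ o, ¬ Un O' (u' o) → upd a b c o = 0 := fun o ho => by
    have h3 := hN.exp _ O' u' o 1 _ hR' ho (one_mem _) (.of_un (Un.one _))
      (by rw [one_mul]; exact h1.1)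
    have h4 := hN.exp _ O' u' o 1 (-upd a b c) hR' ho (one_mem _) (.of_un (Un.one _))
      (by rw [one_mul, mn_neg]; exact h1.2.2)
    rw [Pi.neg_apply] at h4
    omega
  refine ⟨c a, ?_, fun hx => h2 (some a) (h.left ▸ hx)⟩
  have h3 : c a + c b = 0 := h2 none fun hu => hb (h.dom.2 _ (hR.1 b).1 (h.none ▸ hu))
  have h4 : Un O (mn u (c - Pi.single a (c a) + Pi.single b (c a))) := by
    refine mn_un fun ρ hρ => ?_
    by_cases e : ρ = a
    · subst e; simp [Pi.single_eq_of_ne h.ne]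
    by_cases e' : ρ = b
    · subst e'; simp [Pi.single_eq_of_ne e]; omega
    have : c ρ = 0 := h2 (some ρ) fun hu => hρ (h.dom.2 _ (hR.1 ρ).1 (h.other ρ e e' ▸ hu))
    simp [Pi.single_eq_of_ne e, Pi.single_eq_of_ne e', this]
  rw [mn_add h0, mn_sub h0, mn_single, mn_single] at h4
  convert hc.mul h4 using 1
  have := mn_ne_zero h0 c
  have := zpow_ne_zero (c a) (h0 a)
  have := zpow_ne_zero (c a) (h0 b)
  rw [div_zpow]
  field_simp

/-- Grouping the terms of a sum according to the power of `x`. -/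
lemma exists_poly {S E : Set L} {φ x : L} (hZ : NZ O S E φ) (hx : x ≠ 0) (T : Finset ℤ)
    (g : ℤ → L) (d : L) (hT : T.Nonempty) (hg : ∀ n ∈ T, g n ∈ grp E) (j : ℤ → ℤ)
    (hj : ∀ n ∈ T, Un O (g n * φ ^ n / d / x ^ j n)) :
    ∃ (P : L[X]) (N : ℕ), (∀ n, P.coeff n ∈ O) ∧ NZD O S P.leadingCoeff ∧
      P.eval x = x ^ N * ∑ n ∈ T, g n * φ ^ n / d := by
  classical
  obtain ⟨N, hN⟩ : ∃ N : ℕ, ∀ n ∈ T, 0 ≤ j n + N := by
    refine ⟨∑ n ∈ T, (j n).natAbs, fun n hn => ?_⟩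
    have := Finset.single_le_sum (f := fun n => (j n).natAbs) (fun _ _ => Nat.zero_le _) hn
    omega
  let P : L[X] := ∑ n ∈ T, monomial (j n + N).toNat (g n * φ ^ n / d / x ^ j n)
  have hc : ∀ i, P.coeff i =
      ∑ n ∈ T.filter fun n => (j n + N).toNat = i, g n * φ ^ n / d / x ^ j n := fun i => by
    simp only [P, finsetSum_coeff, coeff_monomial, Finset.sum_filter]
  have hz : ∀ m ∈ T, NZD O S (P.coeff (j m + N).toNat) := fun m hm => by
    have hm0 := (hj m hm).2.1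
    have key : ∀ n ∈ T.filter fun n => (j n + N).toNat = (j m + N).toNat,
        g n * φ ^ n / (g m * φ ^ m) =
          (g n * φ ^ n / d / x ^ j n) / (g m * φ ^ m / d / x ^ j m) := fun n hn => by
      obtain ⟨hn, e⟩ := Finset.mem_filter.1 hn
      have h1 := hN n hn
      have h2 := hN m hm
      have e' : j n = j m := by omega
      have hd : d ≠ 0 := fun e => hm0 (by simp [e])
      rw [e', div_div_div_cancel_right₀ (zpow_ne_zero _ hx), div_div_div_cancel_right₀ hd]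
    have h1 := hZ (T.filter fun n => (j n + N).toNat = (j m + N).toNat) g m
      (Finset.mem_filter.2 ⟨hm, rfl⟩) fun n hn => ⟨hg n (Finset.mem_filter.1 hn).1, by
        rw [key n hn]; exact un_div (hj n (Finset.mem_filter.1 hn).1) (hj m hm)⟩
    have h2 := h1.mul (.of_un (hj m hm)) (hj m hm).1
    rw [Finset.sum_congr rfl key, ← Finset.sum_div, div_mul_cancel₀ _ hm0] at h2
    rwa [hc]
  refine ⟨P, N, fun i => ?_, ?_, ?_⟩
  · rw [hc]; exact sum_mem fun n hn => (hj n (Finset.mem_filter.1 hn).1).1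
  · by_cases hP : P = 0
    · obtain ⟨m, hm⟩ := hT
      have := hz m hm
      rw [hP] at this ⊢
      simpa using this
    · have h1 : P.coeff P.natDegree ≠ 0 := leadingCoeff_ne_zero.2 hP
      rw [hc] at h1
      obtain ⟨m, hm, -⟩ := Finset.exists_ne_zero_of_sum_ne_zero h1
      obtain ⟨hm, e⟩ := Finset.mem_filter.1 hm
      rw [leadingCoeff, ← e]
      exact hz m hm
  · simp only [P, eval_finsetSum, eval_monomial, Finset.mul_sum]
    refine Finset.sum_congr rfl fun n hn => ?_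
    rw [← zpow_natCast, Int.toNat_of_nonneg (hN n hn), zpow_add₀ hx, zpow_natCast]
    have := zpow_ne_zero (j n) hx
    field_simp

lemma nz_exc [Fintype ι] (hN : NzdStmt k L) (hA : AlgStmt k L) (hR : RC O u) (hR' : RC O' u')
    (h : Step O u O' u' a b) (hb : ¬ Un O (u b)) {E : Set L} {φ : L}
    (hE : ∀ x ∈ E, LMon O u x) (hφ : LMon O u φ) (hZ : NZ O (big O u) E φ) :
    NZ O' (big O' u') E φ := by
  intro T g m hm hT
  have h0 : ∀ ρ, u ρ ≠ 0 := fun ρ => (hR.1 ρ).2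
  have h1 : ∀ n ∈ T, LMon O u (g n * φ ^ n) := fun n hn =>
    (LMon.of_grp h0 hE (hT n hn).1).mul h0 (hφ.zpow n)
  have h2 : ∀ n ∈ T, ∃ j : ℤ, Un O (g n * φ ^ n / (g m * φ ^ m) / (u a / u b) ^ j) ∧
      (¬ Un O' (u a / u b) → j = 0) := fun n hn =>
    exists_exp hN hR hR' h hb (by
      rw [div_eq_mul_inv]; exact (h1 n hn).mul h0 (h1 m hm).inv) (hT n hn).2
  choose! j hj hj0 using h2
  have hn : none ∈ {o | ¬ Un O' (u' o)} := fun hu => hb (h.dom.2 _ (hR.1 b).1 (h.none ▸ hu))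
  have hb' : some b ∉ {o | ¬ Un O' (u' o)} := fun hu => hu (h.right ▸ Un.one _)
  by_cases hx : Un O' (u a / u b)
  · obtain ⟨P, N, hP, hl, e⟩ :=
      exists_poly hZ hx.2.1 T g _ ⟨m, hm⟩ (fun n hn => (hT n hn).1) j hj
    have := nzd_poly hN hA hR h hn (fun hu => hu (h.left ▸ hx)) hb' hP
      (by rwa [big_eq hR h hb])
    rw [e] at this
    exact nzd_of_mul (pow_mem hx.1 N) this
  · have h3 : ∀ n ∈ T, Un O (g n * φ ^ n / (g m * φ ^ m)) := fun n hn => by
      have := hj n hn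
      rwa [hj0 n hn hx, zpow_zero, div_one] at this
    refine nzd_const hN hA hR h hn (fun hu => hx (h.left ▸ hu)) hb'
      (sum_mem fun n hn => (h3 n hn).1) ?_
    rw [big_eq hR h hb]
    exact hZ T g m hm fun n hn => ⟨(hT n hn).1, h3 n hn⟩

end Local

theorem local_of (hN : NzdStmt k L) (hA : AlgStmt k L) : LocalStmt k L := by
  intro ι _ O O' u u' a b hL hR h
  have hL' : LCI O' := hA.blow O O' (u a) (u b) hL (hR.1 a).1 (hR.1 b).1 (hR.1 b).2
    (by simpa using hR.2 {b} a h.ne) h.pt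
  refine ⟨hL', ?_⟩
  by_cases hb : Un O (u b)
  · have h0 : ∀ ρ, u ρ ≠ 0 := fun ρ => (hR.1 ρ).2
    have he := Local.un_ratio h h0 hb
    have hm := Local.mem' h hR.1
    have hn : Un O (u' none) := h.none ▸ hb
    obtain rfl := Local.eq_of_un h (hR.1 a).1 hb
    exact ⟨Local.rc_rescale hR hm hn he, fun E φ _ _ hZ T g m hm hT =>
      Local.big_rescale h0 hn he (hZ T g m hm hT)⟩
  · have hR' := Local.rc_exc hN hA hL' hR h hb
    exact ⟨hR', fun E φ hE hφ hZ => Local.nz_exc hN hA hR hR' h hb hE hφ hZ⟩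

end Pool.Agent.MP_19ffc6_ag.Lci

end MrgPart1

-- ======== part 2: formerly Pool.Agent.MP_19ffc6_ag.Lci.Blow
section MrgPart2

/-! The blow-up of the intersection of two divisors of a system. -/

namespace Pool.Agent.MP_19ffc6_ag.Lci

open Pool.Agent.MP_19ffc6_ag.Wild Polynomial

variable {k L : Type} [Field k] [Field L] [Algebra k L]

namespace Blow

variable {O O' : Subalgebra k L}

/-- A generator of a part of `J` is regular in every chart of the blow-up of `J`. -/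
lemma gen_div_mem {P J : Submodule k L} {p h : L} (hp : Gen O P p) (hP : P ≤ J)
    (hO : IsPoint (chart O J h) O') : p / h ∈ O' := by
  obtain ⟨x, hx, hu⟩ := hp.2.2
  have h1 : O ≤ O' := (le_chart _ _ _).trans hO.le
  have hx0 : x ≠ 0 := fun e => hu.2.1 (by simp [e])
  have e : p / h = (x / h) * (x / p)⁻¹ := by
    have := hp.1
    field_simp
  rw [e]
  exact mul_mem (hO.le (div_mem_chart _ _ (hP hx))) (h1 hu.2.2)

/-- One of the two generators generates `J` at a point of the blow-up. -/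
lemma un_or {P Q : Submodule k L} {p q h : L} (hp : Gen O P p) (hq : Gen O Q q)
    (hh : h ∈ P ⊔ Q) (h0 : h ≠ 0) (hO : IsPoint (chart O (P ⊔ Q) h) O') :
    Un O' (q / h) ∨ Un O' (p / h) := by
  have h1 : O ≤ O' := (le_chart _ _ _).trans hO.le
  have hp' := gen_div_mem hp le_sup_left hO
  have hq' := gen_div_mem hq le_sup_right hO
  obtain ⟨x, hx, y, hy, e⟩ := Submodule.mem_sup.1 hh
  have ex : x / h = (p / h) * (x / p) := by
    have := hp.1
    field_simp
  have ey : y / h = (q / h) * (y / q) := by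
    have := hq.1
    field_simp
  have hx' := h1 (hp.2.1 x hx)
  have hy' := h1 (hq.2.1 y hy)
  have hu : Un O' (x / h + y / h) := by
    rw [← add_div, e, div_self h0]; exact Un.one _
  rcases hO.lcl _ (by rw [ex]; exact mul_mem hp' hx') _ (by rw [ey]; exact mul_mem hq' hy') hu
    with h2 | h2
  · right; rw [ex] at h2; exact Un.of_mul hp' hx' h2
  · left; rw [ey] at h2; exact Un.of_mul hq' hy' h2

/-- The chart of the blow-up in which `q` generates. -/
lemma chart_pt {P Q : Submodule k L} {p q h : L} (hp : Gen O P p) (hq : Gen O Q q)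
    (hh : h ∈ P ⊔ Q) (hO : IsPoint (chart O (P ⊔ Q) h) O') (hu : Un O' (q / h)) :
    IsPoint (adj O (p / q)) O' ∧ Gen O' (P ⊔ Q) q := by
  have h1 : O ≤ O' := (le_chart _ _ _).trans hO.le
  have hp' := gen_div_mem hp le_sup_left hO
  have h0 : h ≠ 0 := fun e => hu.2.1 (by simp [e])
  have hq0 := hq.1
  have hp0 := hp.1
  have hu' : Un O' (h / q) := by simpa using hu.inv
  have h2 : adj O (p / q) ≤ O' := by
    refine adj_le h1 ?_
    have e : p / q = (p / h) * (h / q) := by field_simp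
    rw [e]; exact mul_mem hp' hu'.1
  have h3 : ∀ j ∈ P ⊔ Q, j / q ∈ adj O (p / q) := by
    intro j hj
    obtain ⟨x, hx, y, hy, rfl⟩ := Submodule.mem_sup.1 hj
    have e : (x + y) / q = (x / p) * (p / q) + y / q := by field_simp
    rw [e]
    exact add_mem (mul_mem (le_adj _ _ (hp.2.1 x hx)) (self_mem_adj _ _))
      (le_adj _ _ (hq.2.1 y hy))
  refine ⟨hO.of_le_loc h2 (chart_le ((le_adj _ _).trans (le_loc _ _)) fun j hj => ?_),
    hq0, fun j hj => h2 (h3 j hj), h, hh, hu'⟩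
  exact ⟨_, h3 j hj, _, h3 h hh, hu', by field_simp⟩

variable {ι : Type} {u : ι → L} {u' : Option ι → L} {a b : ι}

/-- The new local equations in the chart where `u a / u b` is regular. -/
lemma exists_step {A B : ι → Submodule k L} (hab : a ≠ b) (hd : Dom O O')
    (hr : ∀ ρ, Rep O (A ρ) (B ρ) (u ρ)) {J Bn : Submodule k L} (hB : Bn = B a * B b)
    {aa ab ba bb : L} (h2 : Gen O (B a) ba) (h4 : Gen O (B b) bb)
    (ea : u a = aa / ba) (eb : u b = ab / bb) (hb0 : u b ≠ 0)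
    (hpt : IsPoint (adj O (aa * bb / (ab * ba))) O') (hJ : Gen O' J (ab * ba)) :
    ∃ u' : Option ι → L, Step O u O' u' a b ∧ Rep O' J Bn (u' none) ∧
      (∀ ρ, ρ = a ∨ ρ = b → Rep O' (A ρ * Bn) (B ρ * J) (u' (some ρ))) ∧
      ∀ ρ, ¬ (ρ = a ∨ ρ = b) → Rep O' (A ρ) (B ρ) (u' (some ρ)) := by
  classical
  have hba := h2.1
  have hbb := h4.1
  have hab0 : ab ≠ 0 := fun e => hb0 (by simp [eb, e])
  have hn : Rep O' J Bn (u b) := by
    refine ⟨ab * ba, ba * bb, hJ, ?_, ?_⟩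
    · rw [hB]; exact (h2.mul h4).mono hd.1
    · rw [eb]; field_simp
  refine ⟨fun o => o.elim (u b) fun ρ => if ρ = a ∨ ρ = b then u ρ / u b else u ρ,
    ⟨hab, hd, ?_, rfl, by simp, by simp [hb0], fun ρ h1 h2 => by simp [h1, h2]⟩, hn,
    fun ρ hρ => ?_, fun ρ hρ => ?_⟩
  · have e : u a / u b = aa * bb / (ab * ba) := by rw [ea, eb]; field_simp
    rwa [e]
  · simp only [Option.elim, if_pos hρ]
    exact ((hr ρ).mono hd.1).div hn
  · simp only [Option.elim, if_neg hρ]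
    exact (hr ρ).mono hd.1

lemma ratio_mem (h : Step O u O' u' a b) : u a / u b ∈ O' := h.pt.le (self_mem_adj _ _)

lemma un_of_left (h : Step O u O' u' a b) (hu : ∀ ρ, u ρ ∈ O ∧ u ρ ≠ 0) (ha : Un O (u a)) :
    Un O' (u a / u b) ∧ Un O' (u b) := by
  have h1 : Un O' (u a / u b * u b) := by
    rw [div_mul_cancel₀ _ (hu b).2]; exact ha.mono h.dom.1
  refine ⟨Un.of_mul (ratio_mem h) (h.dom.1 (hu b).1) h1, ?_⟩
  rw [mul_comm] at h1
  exact Un.of_mul (h.dom.1 (hu b).1) (ratio_mem h) h1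

lemma not_un_some (h : Step O u O' u' a b) (hu : ∀ ρ, u ρ ∈ O ∧ u ρ ≠ 0) (ρ : ι)
    (hρ : ¬ Un O' (u' (some ρ))) : ¬ Un O (u ρ) := by
  intro hx
  apply hρ
  by_cases h1 : ρ = a
  · subst h1; rw [h.left]; exact (un_of_left h hu hx).1
  by_cases h2 : ρ = b
  · subst h2; rw [h.right]; exact Un.one _
  · rw [h.other ρ h1 h2]; exact hx.mono h.dom.1

lemma not_un_none (h : Step O u O' u' a b) (hu : ∀ ρ, u ρ ∈ O ∧ u ρ ≠ 0)
    (hρ : ¬ Un O' (u' none)) : ¬ Un O (u a) ∧ ¬ Un O (u b) := by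
  rw [h.none] at hρ
  exact ⟨fun hx => hρ (un_of_left h hu hx).2, fun hx => hρ (hx.mono h.dom.1)⟩

lemma tor_le_tor [Fintype ι] (h : Step O u O' u' a b) (hu : ∀ ρ, u ρ ∈ O ∧ u ρ ≠ 0) :
    tor O u ≤ tor O' u' := by
  refine tor_le (h.dom.1.trans (le_tor _ _)) fun ρ => ?_
  have hb : (u b)⁻¹ ∈ tor O' u' := by rw [← h.none]; exact inv_mem_tor _ _ _
  by_cases h1 : ρ = a
  · subst h1
    have e : (u ρ)⁻¹ = (u' (some ρ))⁻¹ * (u b)⁻¹ := by
      rw [h.left]
      have := (hu b).2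
      have := (hu ρ).2
      field_simp
    rw [e]; exact mul_mem (inv_mem_tor _ _ _) hb
  by_cases h2 : ρ = b
  · rw [h2]; exact hb
  · rw [← h.other ρ h1 h2]; exact inv_mem_tor _ _ _

lemma lam_step [Fintype ι] (h : Step O u O' u' a b) (hu : ∀ ρ, u ρ ∈ O ∧ u ρ ≠ 0)
    {K₀ : Subalgebra k L} {Y : L} (hl : O ≤ loc (adj (K₀ ⊓ tor O u) Y) (tor O u)) :
    O' ≤ loc (adj (K₀ ⊓ tor O' u') Y) (tor O' u') := by
  have ht := tor_le_tor h hu
  have h1 : O ≤ loc (adj (K₀ ⊓ tor O' u') Y) (tor O' u') :=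
    hl.trans (loc_mono (adj_le ((inf_le_inf_left _ ht).trans (le_adj _ _)) (self_mem_adj _ _)) ht)
  have h2 : adj O (u a / u b) ≤ loc (adj (K₀ ⊓ tor O' u') Y) (tor O' u') := by
    refine adj_le h1 ?_
    rw [div_eq_mul_inv]
    exact mul_mem (h1 (hu a).1) (inv_mem_loc (h1 (hu b).1) ((un_tor hu b).mono ht))
  intro x hx
  obtain ⟨c, hc, d, hd, hdu, rfl⟩ := h.pt.le_loc hx
  rw [div_eq_mul_inv]
  exact mul_mem (h2 hc) (inv_mem_loc (h2 hd) (hdu.mono (le_tor _ _)))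

/-- Every point of the blow-up lies in one of the two charts over a point of the system. -/
lemma key (s : Sys k L) {W : Subalgebra k L} (hs : s.Good W) {α β : s.ι} (hab : α ≠ β)
    (O' : Subalgebra k L) (hO' : Pt ⊥ (s.M * (s.A α * s.B β ⊔ s.A β * s.B α)) O') :
    ∃ (O : Subalgebra k L) (u' : Option s.ι → L), s.P O ∧
      (Step O (s.U O) O' u' α β ∨ Step O (s.U O) O' u' β α) ∧
      Rep O' (s.A α * s.B β ⊔ s.A β * s.B α) (s.B α * s.B β) (u' none) ∧
      (∀ ρ, ρ = α ∨ ρ = β → Rep O' (s.A ρ * (s.B α * s.B β))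
        (s.B ρ * (s.A α * s.B β ⊔ s.A β * s.B α)) (u' (some ρ))) ∧
      ∀ ρ, ¬ (ρ = α ∨ ρ = β) → Rep O' (s.A ρ) (s.B ρ) (u' (some ρ)) := by
  obtain ⟨O, h, hh, hO, hd, h0, hpt⟩ := Pt.of_mul_dom hO'
  obtain ⟨aa, ba, h1, h2, ea⟩ := hs.rep O hO α
  obtain ⟨ab, bb, h3, h4, eb⟩ := hs.rep O hO β
  rcases un_or (h1.mul h4) (h3.mul h2) hh h0 hpt with hu | hu
  · obtain ⟨h5, h6⟩ := chart_pt (h1.mul h4) (h3.mul h2) hh hpt hu
    obtain ⟨u', h7, h8⟩ := exists_step hab hd (hs.rep O hO) rfl h2 h4 ea eb (hs.ne hO β) h5 h6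
    exact ⟨O, u', hO, Or.inl h7, h8⟩
  · rw [sup_comm] at hh hpt
    obtain ⟨h5, h6⟩ := chart_pt (h3.mul h2) (h1.mul h4) hh hpt hu
    rw [sup_comm] at h6
    obtain ⟨u', h7, h8, h9, h10⟩ := exists_step hab.symm hd (hs.rep O hO)
      (mul_comm (s.B α) (s.B β)) h4 h2 eb ea (hs.ne hO α) h5 h6
    exact ⟨O, u', hO, Or.inr h7, h8, fun ρ hρ => h9 ρ hρ.symm,
      fun ρ hρ => h10 ρ fun e => hρ e.symm⟩

end Blow

open Blow in
theorem blow_of (hloc : LocalStmt k L) : BlowStmt k L := by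
  classical
  intro s W K₀ Y N α β hs hab
  have hg := hs.good
  choose! O U hO hst hn hin hout using key s hg hab
  set J : Submodule k L := s.A α * s.B β ⊔ s.A β * s.B α with hJ
  have hpJ : Prim W J := ((hg.primA α).mul (hg.primB β)).sup ((hg.primA β).mul (hg.primB α))
  have hpB : Prim W (s.B α * s.B β) := (hg.primB α).mul (hg.primB β)
  let A : Option s.ι → Submodule k L := fun o =>
    o.elim J fun ρ => if ρ = α ∨ ρ = β then s.A ρ * (s.B α * s.B β) else s.A ρ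
  let B : Option s.ι → Submodule k L := fun o =>
    o.elim (s.B α * s.B β) fun ρ => if ρ = α ∨ ρ = β then s.B ρ * J else s.B ρ
  have hrc : ∀ O', Pt ⊥ (s.M * J) O' → ∀ ρ, s.U (O O') ρ ∈ O O' ∧ s.U (O O') ρ ≠ 0 :=
    fun O' h => (hg.rc _ (hO O' h)).1
  have hst' : ∀ O', Pt ⊥ (s.M * J) O' → ∃ a b, Step (O O') (s.U (O O')) O' (U O') a b ∧
      ∀ c, upd a b c = upd α β c := fun O' h => by
    rcases hst O' h with h1 | h1
    · exact ⟨_, _, h1, fun _ => rfl⟩
    · exact ⟨_, _, h1, fun _ => upd_comm _ _ _⟩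
  have hexp : ∀ r c, s.HasExp r c →
      (Sys.mk (Option s.ι) (s.M * J) A B U).HasExp r (upd α β c) := by
    intro r c hr O' h
    obtain ⟨a, b, h1, h2⟩ := hst' O' h
    change Un O' (r / mn (U O') (upd α β c))
    rw [← h2, h1.mn_eq fun ρ => (hrc O' h ρ).2]
    exact (hr _ (hO O' h)).mono h1.dom.1
  have hmon : ∀ r, s.IsMon r → (Sys.mk (Option s.ι) (s.M * J) A B U).IsMon r :=
    fun r ⟨c, hc⟩ => ⟨_, hexp r c hc⟩
  refine ⟨s.M * J, A, B, U, ⟨⟨hg.primM.mul hpJ, ?_, ?_, fun O' h => ?_, fun O' h => ?_,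
    fun O' h => ?_⟩, fun p hp => ?_, fun O' h => ?_, fun O' h => ?_⟩, hexp, fun r hr O' h => ?_,
    fun O' h => ⟨O O', hO O' h, ?_⟩⟩
  · rintro (_ | ρ)
    · exact hpJ
    · change Prim W (if ρ = α ∨ ρ = β then s.A ρ * (s.B α * s.B β) else s.A ρ)
      split_ifs
      exacts [(hg.primA ρ).mul hpB, hg.primA ρ]
  · rintro (_ | ρ)
    · exact hpB
    · change Prim W (if ρ = α ∨ ρ = β then s.B ρ * J else s.B ρ)
      split_ifs
      exacts [(hg.primB ρ).mul hpJ, hg.primB ρ]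
  · obtain ⟨a, b, h1, -⟩ := hst' O' h
    exact (hloc _ _ _ _ _ a b (hg.lci _ (hO O' h)) (hg.rc _ (hO O' h)) h1).1
  · obtain ⟨a, b, h1, -⟩ := hst' O' h
    exact (hloc _ _ _ _ _ a b (hg.lci _ (hO O' h)) (hg.rc _ (hO O' h)) h1).2.1
  · rintro (_ | ρ)
    · exact hn O' h
    · change Rep O' (if ρ = α ∨ ρ = β then s.A ρ * (s.B α * s.B β) else s.A ρ)
        (if ρ = α ∨ ρ = β then s.B ρ * J else s.B ρ) (U O' (some ρ))
      split_ifs with hρ
      exacts [hin O' h ρ hρ, hout O' h ρ hρ]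
  · exact ⟨fun x hx => hmon x ((hs.mon p hp).1 x hx), hmon _ (hs.mon p hp).2⟩
  · obtain ⟨a, b, h1, -⟩ := hst' O' h
    obtain ⟨p, hp, hz⟩ := hs.nz _ (hO O' h)
    exact ⟨p, hp, (hloc _ _ _ _ _ a b (hg.lci _ (hO O' h)) (hg.rc _ (hO O' h)) h1).2.2 _ _
      (fun x hx => ((hs.mon p hp).1 x hx).lmon (hO O' h)) ((hs.mon p hp).2.lmon (hO O' h)) hz⟩
  · obtain ⟨a, b, h1, -⟩ := hst' O' h
    exact lam_step h1 (hrc O' h) (hs.lam _ (hO O' h))
  · obtain ⟨a, b, h1, -⟩ := hst' O' h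
    exact (hr _ (hO O' h)).imp (fun e => h1.dom.1 e) fun e => h1.dom.1 e
  · rcases hst O' h with h1 | h1
    · exact ⟨not_un_some h1 (hrc O' h), not_un_none h1 (hrc O' h),
        Or.inr (by rw [h1.right]; exact Un.one _)⟩
    · exact ⟨not_un_some h1 (hrc O' h), fun e => (not_un_none h1 (hrc O' h) e).symm,
        Or.inl (by rw [h1.right]; exact Un.one _)⟩

end Pool.Agent.MP_19ffc6_ag.Lci

end MrgPart2

-- ======== part 3: formerly Pool.Agent.MP_19ffc6_ag.Lci.Cmp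
section MrgPart3

/-! Module CMP: principalization of monomial ideals by blowing up pairs of divisors. -/

namespace Pool.Agent.MP_19ffc6_ag.Lci

open Pool.Agent.MP_19ffc6_ag.Wild

variable {k L : Type} [Field k] [Field L] [Algebra k L]

namespace Cmp

/-- Two divisors that meet and have exponents of opposite signs. -/
def Bad (s : Sys k L) (c : s.ι → ℤ) (ρ τ : s.ι) : Prop :=
  0 < c ρ ∧ c τ < 0 ∧ ∃ O, s.P O ∧ ¬ Un O (s.U O ρ) ∧ ¬ Un O (s.U O τ)

lemma cmp_of_no_bad {s : Sys k L} {W : Subalgebra k L} (hg : s.Good W) {r : L} {c : s.ι → ℤ}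
    (hc : s.HasExp r c) (h : ∀ ρ τ, ¬ Bad s c ρ τ) : s.Cmp r := by
  intro O hO
  have hu := (hg.rc O hO).1
  have hr := hc O hO
  have h0 := mn_ne_zero (fun ρ => (hu ρ).2) c
  by_cases hp : ∀ ρ, ¬ Un O (s.U O ρ) → 0 ≤ c ρ
  · left
    have := mul_mem hr.1 (mn_mem hu hp)
    rwa [div_mul_cancel₀ _ h0] at this
  · right
    push Not at hp
    obtain ⟨τ, h1, h2⟩ := hp
    have h3 : mn (s.U O) (-c) ∈ O := mn_mem hu fun ρ hρ => by
      by_contra hn
      exact h ρ τ ⟨by simpa using hn, h2, O, hO, hρ, h1⟩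
    have := mul_mem hr.2.2 h3
    rwa [mn_neg, ← mul_inv, div_mul_cancel₀ _ h0] at this

open Classical in
/-- The bad pairs of a given weight. -/
noncomputable def top (s : Sys k L) (c : s.ι → ℤ) (w : ℕ) : Finset (s.ι × s.ι) :=
  Finset.univ.filter fun x => Bad s c x.1 x.2 ∧ c x.1 - c x.2 = w

lemma one (hb : BlowStmt k L) (W K₀ : Subalgebra k L) (Y : L) (N : Set (Set L × L)) (r : L)
    (w : ℕ) : ∀ (s : Sys k L) (c : s.ι → ℤ), s.Inv W K₀ Y N → s.HasExp r c →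
      (∀ ρ τ, Bad s c ρ τ → c ρ - c τ < w) → ∃ s' : Sys k L, s'.Inv W K₀ Y N ∧ s.Ref s' ∧
        s'.Cmp r := by
  classical
  induction w with
  | zero =>
    intro s c hs hc h
    refine ⟨s, hs, Sys.Ref.refl s, cmp_of_no_bad hs.good hc fun ρ τ hB => ?_⟩
    have h1 := h ρ τ hB
    have h2 := hB.1
    have h3 := hB.2.1
    omega
  | succ w ih =>
    suffices H : ∀ (m : ℕ) (s : Sys k L) (c : s.ι → ℤ), (top s c w).card ≤ m → s.Inv W K₀ Y N →
        s.HasExp r c → (∀ ρ τ, Bad s c ρ τ → c ρ - c τ < (w + 1 : ℕ)) →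
        ∃ s' : Sys k L, s'.Inv W K₀ Y N ∧ s.Ref s' ∧ s'.Cmp r from
      fun s c => H _ s c le_rfl
    intro m
    induction m using Nat.strong_induction_on with
    | _ m ihm =>
    intro s c hm hs hc h
    rcases (top s c w).eq_empty_or_nonempty with he | ⟨⟨α, β⟩, hx⟩
    · refine ih s c hs hc fun ρ τ hB => ?_
      have h1 := h ρ τ hB
      have h2 : c ρ - c τ ≠ w := fun e => by
        have : (ρ, τ) ∈ top s c w := Finset.mem_filter.2 ⟨Finset.mem_univ _, hB, e⟩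
        simp [he] at this
      push_cast at h1
      omega
    obtain ⟨-, hB, hw⟩ := Finset.mem_filter.1 hx
    have hα := hB.1
    have hβ := hB.2.1
    dsimp only at hα hβ hw
    have hne : α ≠ β := fun e => by rw [e] at hα; omega
    obtain ⟨M, A, B, U, i1, i2, i3, i4⟩ := hb s W K₀ Y N α β hs hne
    have key : ∀ x y : Option s.ι, Bad (Sys.mk (Option s.ι) M A B U) (upd α β c) x y →
        upd α β c x - upd α β c y < w ∨
          ∃ ρ τ, x = some ρ ∧ y = some τ ∧ Bad s c ρ τ ∧ (ρ, τ) ≠ (α, β) := by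
      rintro x y ⟨b1, b2, O', hO', b3, b4⟩
      obtain ⟨O, hO, j1, j2, j3⟩ := i4 O' hO'
      cases x with
      | none =>
        cases y with
        | none => exact absurd (b1.trans b2) (lt_irrefl _)
        | some τ =>
          have := h α τ ⟨hα, b2, O, hO, (j2 b3).1, j1 τ b4⟩
          left
          show c α + c β - c τ < w
          push_cast at this
          omega
      | some ρ =>
        cases y with
        | none =>
          have := h ρ β ⟨b1, hβ, O, hO, j1 ρ b3, (j2 b4).2⟩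
          left
          show c ρ - (c α + c β) < w
          push_cast at this
          omega
        | some τ =>
          refine Or.inr ⟨ρ, τ, rfl, rfl, ⟨b1, b2, O, hO, j1 ρ b3, j1 τ b4⟩, fun e => ?_⟩
          obtain ⟨rfl, rfl⟩ := Prod.mk.inj e
          exact j3.elim b3 b4
    have hsub : top (Sys.mk (Option s.ι) M A B U) (upd α β c) w ⊆
        ((top s c w).erase (α, β)).image fun x => (some x.1, some x.2) := by
      rintro ⟨x, y⟩ hxy
      obtain ⟨-, h1, h2⟩ := Finset.mem_filter.1 hxy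
      rcases key x y h1 with h3 | ⟨ρ, τ, rfl, rfl, h3, h4⟩
      · exact absurd h2 h3.ne
      · exact Finset.mem_image.2 ⟨(ρ, τ), Finset.mem_erase.2 ⟨h4,
          Finset.mem_filter.2 ⟨Finset.mem_univ _, h3, h2⟩⟩, rfl⟩
    have hlt := (Finset.card_le_card hsub).trans Finset.card_image_le
    have hlt' := Finset.card_erase_lt_of_mem hx
    obtain ⟨s', k1, k2, k3⟩ := ihm _ (hlt'.trans_le hm) (Sys.mk (Option s.ι) M A B U)
      (upd α β c) hlt i1 (i2 r c hc) fun x y hxy => by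
        rcases key x y hxy with h3 | ⟨ρ, τ, rfl, rfl, h3, -⟩
        · exact h3.trans (by push_cast; omega)
        · exact h ρ τ h3
    exact ⟨s', k1, Sys.Ref.trans ⟨fun r' ⟨c', hc'⟩ => ⟨_, i2 r' c' hc'⟩, i3⟩ k2, k3⟩

end Cmp

theorem cmp_of (hb : BlowStmt k L) : CmpStmt k L := by
  intro s W K₀ Y N R hs hR
  induction R, hR using Set.Finite.induction_on with
  | empty => exact fun _ => ⟨s, hs, Sys.Ref.refl s, by simp⟩
  | @insert r R _ _ ih =>
    intro h
    obtain ⟨s1, h1, h2, h3⟩ := ih fun x hx => h x (Set.mem_insert_of_mem _ hx)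
    obtain ⟨c, hc⟩ := h2.1 r (h r (Set.mem_insert _ _))
    obtain ⟨w, hw⟩ := (Set.finite_range fun x : s1.ι × s1.ι => (c x.1 - c x.2).toNat).bddAbove
    obtain ⟨s2, k1, k2, k3⟩ := Cmp.one hb W K₀ Y N r (w + 1) s1 c h1 hc fun ρ τ _ => by
      have := hw ⟨(ρ, τ), rfl⟩
      dsimp only at this
      push_cast
      omega
    refine ⟨s2, k1, h2.trans k2, ?_⟩
    rintro x (rfl | hx)
    · exact k3
    · exact k2.2 x (h3 x hx)

end Pool.Agent.MP_19ffc6_ag.Lci

end MrgPart3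

-- ======== part 4: formerly Pool.Agent.MP_19ffc6_ag.Lci.Pre
section MrgPart4

/-! Module PRE: the divisor of a new function is put in general position and added. -/

namespace Pool.Agent.MP_19ffc6_ag.Lci

open Pool.Agent.MP_19ffc6_ag.Wild

variable {k L : Type} [Field k] [Field L] [Algebra k L]

namespace Pre

lemma exists_min (O : Subalgebra k L) (t : ℤ → L) (T : Finset ℤ) (hT : T.Nonempty)
    (h0 : ∀ n ∈ T, t n ≠ 0) (h : ∀ n ∈ T, ∀ m ∈ T, t n / t m ∈ O ∨ (t n / t m)⁻¹ ∈ O) :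
    ∃ m ∈ T, ∀ n ∈ T, t n / t m ∈ O := by
  classical
  induction hT using Finset.Nonempty.cons_induction with
  | singleton a =>
    refine ⟨a, by simp, fun n hn => ?_⟩
    rw [Finset.mem_singleton.1 hn, div_self (h0 a (by simp))]
    exact one_mem _
  | cons a T ha _ ih =>
    obtain ⟨m, hm, h1⟩ := ih (fun n hn => h0 n (Finset.mem_cons_of_mem hn))
      fun n hn m hm => h n (Finset.mem_cons_of_mem hn) m (Finset.mem_cons_of_mem hm)
    have hm0 := h0 m (Finset.mem_cons_of_mem hm)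
    have ha0 := h0 a (Finset.mem_cons_self _ _)
    rcases h a (Finset.mem_cons_self _ _) m (Finset.mem_cons_of_mem hm) with h2 | h2
    · exact ⟨m, Finset.mem_cons_of_mem hm, fun n hn =>
        (Finset.mem_cons.1 hn).elim (fun e => e ▸ h2) (h1 n)⟩
    · refine ⟨a, Finset.mem_cons_self _ _, fun n hn => ?_⟩
      rcases Finset.mem_cons.1 hn with rfl | hn
      · rw [div_self ha0]; exact one_mem _
      · have e : t n / t a = t n / t m * (t a / t m)⁻¹ := by field_simp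
        rw [e]
        exact mul_mem (h1 n hn) h2

lemma exists_maxmin {A : Type} (N : Set A) (hN : N.Finite) (T : A → Finset ℤ)
    (hT : ∀ p ∈ N, (T p).Nonempty) (c : A → ℤ → ℤ) : ∃ a : ℤ,
    (∀ p ∈ N, ∃ n ∈ T p, c p n ≤ a) ∧ (N.Nonempty → ∃ p ∈ N, ∀ n ∈ T p, a ≤ c p n) := by
  rcases N.eq_empty_or_nonempty with rfl | hne
  · exact ⟨0, by simp, by simp⟩
  have h1 : ∀ p, ∃ n, p ∈ N → n ∈ T p ∧ ∀ n' ∈ T p, c p n ≤ c p n' := by
    intro p
    by_cases hp : p ∈ N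
    · obtain ⟨n, h1, h2⟩ := (T p).exists_min_image (c p) (hT p hp)
      exact ⟨n, fun _ => ⟨h1, h2⟩⟩
    · exact ⟨0, fun h => (hp h).elim⟩
  choose m hm using h1
  obtain ⟨p, hp, h2⟩ := Set.exists_max_image N (fun p => c p (m p)) hN hne
  exact ⟨c p (m p), fun q hq => ⟨m q, (hm q hq).1, h2 q hq⟩, fun _ => ⟨p, hp, (hm p hp).2⟩⟩

variable {ι : Type} [Fintype ι] {O : Subalgebra k L} {u : ι → L}

lemma ne_of_un {x y : L} (h : Un O (x / y)) : x ≠ 0 := by
  rintro rfl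
  exact h.2.1 (zero_div _)

lemma exp_le (nzd : NzdStmt k L) (hu : RC O u) {ρ : ι} (hρ : ¬ Un O (u ρ)) {w x y : L}
    {c c' : ι → ℤ} (hw : w ∈ O) (hz : NZD O {u ρ} w) (hx : Un O (x / mn u c))
    (hy : Un O (y / mn u c')) (h : w * (x / y) ∈ O) : c' ρ ≤ c ρ := by
  have h0 : ∀ ρ, u ρ ≠ 0 := fun ρ => (hu.1 ρ).2
  have he := un_div hx hy
  have h1 := nzd.exp ι O u ρ (w * (x / mn u c / (y / mn u c'))) (c - c') hu hρ (mul_mem hw he.1)
    (hz.mul (.of_un he) he.1) (by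
      convert h using 1
      have := mn_ne_zero h0 c
      have := mn_ne_zero h0 c'
      have := ne_of_un hy
      rw [mn_sub h0]
      field_simp)
  simpa using h1

lemma exp_le' (nzd : NzdStmt k L) (hu : RC O u) {ρ : ι} (hρ : ¬ Un O (u ρ)) {x y : L}
    {c c' : ι → ℤ} (hx : Un O (x / mn u c)) (hy : Un O (y / mn u c')) (h : x / y ∈ O) :
    c' ρ ≤ c ρ :=
  exp_le nzd hu hρ (one_mem _) (.of_un (Un.one _)) hx hy (by rwa [one_mul])

lemma mem_big (nzd : NzdStmt k L) (hu : RC O u) {x y : L} {c c' : ι → ℤ}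
    (hx : Un O (x / mn u c)) (hy : Un O (y / mn u c')) (h : x / y ∈ O) (hn : ¬ Un O (x / y)) :
    x / y ∈ Submodule.span O (big O u) := by
  have h0 : ∀ ρ, u ρ ≠ 0 := fun ρ => (hu.1 ρ).2
  have he := un_div hx hy
  have e : x / y = x / mn u c / (y / mn u c') * mn u (c - c') := by
    have := mn_ne_zero h0 c
    have := mn_ne_zero h0 c'
    have := ne_of_un hy
    rw [mn_sub h0]
    field_simp
  have h1 : ∀ ρ, ¬ Un O (u ρ) → 0 ≤ (c - c') ρ := fun ρ hρ => by
    simpa using exp_le' nzd hu hρ hx hy h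
  have h2 : ∃ ρ, ¬ Un O (u ρ) ∧ 0 < (c - c') ρ := by
    by_contra hc
    push Not at hc
    exact hn (e ▸ he.mul (mn_un fun ρ hρ => le_antisymm (hc ρ hρ) (h1 ρ hρ)))
  obtain ⟨ρ, h3, h4⟩ := h2
  rw [e]
  exact mul_mem_span he.1 (span_mono' le_rfl (Set.singleton_subset_iff.2 ⟨ρ, h3, rfl⟩)
    (mn_mem_span hu.1 h1 h4))

lemma nzd_sum (nzd : NzdStmt k L) (hu : RC O u) {E : Set L} {φ : L} (hz : NZ O (big O u) E φ)
    (T : Finset ℤ) (g : ℤ → L) (c : ℤ → ι → ℤ) (hg : ∀ n ∈ T, g n ∈ grp E)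
    (hc : ∀ n ∈ T, Un O (g n * φ ^ n / mn u (c n))) {m : ℤ} (hm : m ∈ T)
    (h : ∀ n ∈ T, g n * φ ^ n / (g m * φ ^ m) ∈ O) :
    NZD O (big O u) ((∑ n ∈ T, g n * φ ^ n) / (g m * φ ^ m)) := by
  classical
  rw [Finset.sum_div, ← Finset.sum_filter_add_sum_filter_not T
    fun n => Un O (g n * φ ^ n / (g m * φ ^ m))]
  refine (hz _ g m (Finset.mem_filter.2 ⟨hm, ?_⟩) fun n hn => ⟨hg n (Finset.mem_filter.1 hn).1,
    (Finset.mem_filter.1 hn).2⟩).add_mem (Submodule.sum_mem _ fun n hn => ?_)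
  · rw [div_self (ne_of_un (hc m hm))]
    exact Un.one _
  · obtain ⟨h1, h2⟩ := Finset.mem_filter.1 hn
    exact mem_big nzd hu (hc n h1) (hc m hm) (h n h1) h2

end Pre

open Pre

theorem pre_of (nzd : NzdStmt k L) (alg : AlgStmt k L) (cmp : CmpStmt k L) : PreStmt k L := by
  intro s W K₀ Y N G hs hN hG hT
  choose! T g hT hg hGe using hT
  have hmon : ∀ p ∈ N, ∀ n ∈ T p, s.IsMon (g p n * p.2 ^ n) := fun p hp n hn =>
    (Sys.IsMon.of_grp hs.good (hs.mon p hp).1 (hg p hp n hn)).mul hs.good ((hs.mon p hp).2.zpow n)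
  obtain ⟨s', hs', href, hcmp⟩ := cmp s W K₀ Y N
    (⋃ p ∈ N, (fun z : ℤ × ℤ => g p z.1 * p.2 ^ z.1 / (g p z.2 * p.2 ^ z.2)) ''
      ((T p ×ˢ T p : Finset (ℤ × ℤ)) : Set (ℤ × ℤ))) hs
    (hN.biUnion fun p _ => (Finset.finite_toSet _).image _) (by
      intro r hr
      obtain ⟨p, hp, z, hz, rfl⟩ := Set.mem_iUnion₂.1 hr
      have hz' := Finset.mem_product.1 hz
      exact (hmon p hp _ hz'.1).div hs.good (hmon p hp _ hz'.2))
  refine ⟨s', hs', href, ?_⟩
  have hc : ∀ p ∈ N, ∀ n ∈ T p, ∃ c, s'.HasExp (g p n * p.2 ^ n) c := fun p hp n hn =>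
    href.1 _ (hmon p hp n hn)
  choose! c hc using hc
  choose a ha1 ha2 using fun ρ : s'.ι => exists_maxmin N hN T hT fun p n => c p n ρ
  refine ⟨a, fun O hO => ?_⟩
  have hu := hs'.good.rc O hO
  have h0 : ∀ ρ, s'.U O ρ ≠ 0 := fun ρ => (hu.1 ρ).2
  obtain ⟨hl, hn⟩ := alg.noeth O (hs'.good.lci O hO)
  have hm : ∀ p ∈ N, ∃ m ∈ T p, ∀ n ∈ T p, g p n * p.2 ^ n / (g p m * p.2 ^ m) ∈ O :=
    fun p hp => exists_min O (fun n => g p n * p.2 ^ n) (T p) (hT p hp)
      (fun n hn => ne_of_un (hc p hp n hn O hO)) fun n hn m hm =>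
        hcmp _ (Set.mem_iUnion₂.2 ⟨p, hp, (n, m), Finset.mem_product.2 ⟨hn, hm⟩, rfl⟩) O hO
  choose! m hm hmin using hm
  have hdiv : ∀ p ∈ N, G / (g p (m p) * p.2 ^ m p) ∈ O := fun p hp => by
    have h1 := sum_mem (S := O) (hmin p hp)
    rwa [← Finset.sum_div, ← hGe p hp] at h1
  obtain ⟨p, hp, hz⟩ := hs'.nz O hO
  have hw := nzd_sum nzd hu hz (T p) (g p) (c p) (hg p hp) (fun n hn => hc p hp n hn O hO)
    (hm p hp) (hmin p hp)
  rw [← hGe p hp] at hw
  have ht := hc p hp _ (hm p hp) O hO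
  have ht0 := ne_of_un ht
  have hrc := nzd.add _ O _ _ hl hn hu (hdiv p hp) (div_ne_zero hG ht0) hw
  have ha : ∀ ρ, ¬ Un O (s'.U O ρ) → (c p (m p) - a) ρ = 0 := by
    intro ρ hρ
    obtain ⟨n, h1, h2⟩ := ha1 ρ p hp
    obtain ⟨q, hq, h3⟩ := ha2 ρ ⟨p, hp⟩
    have h4 := exp_le' nzd hu hρ (hc p hp n h1 O hO) ht (hmin p hp n h1)
    have h5 := hrc.2 {some ρ} none (by simp)
    rw [Set.image_singleton] at h5
    have h6 := exp_le nzd hu hρ (hdiv p hp) h5 ht (hc q hq _ (hm q hq) O hO) (by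
      rw [div_mul_div_cancel₀ ht0]
      exact hdiv q hq)
    have h7 := h3 _ (hm q hq)
    rw [Pi.sub_apply]
    omega
  have he := ht.mul (mn_un ha)
  have e : G / mn (s'.U O) a = G / (g p (m p) * p.2 ^ m p) *
      (g p (m p) * p.2 ^ m p / mn (s'.U O) (c p (m p)) * mn (s'.U O) (c p (m p) - a)) := by
    rw [mn_sub h0, div_mul_div_cancel₀ (mn_ne_zero h0 _), div_mul_div_cancel₀ ht0]
  rw [e]
  exact ⟨mul_mem (hdiv p hp) he.1, hG, hw.mul (.of_un he) he.1⟩

theorem add_of (nzd : NzdStmt k L) (alg : AlgStmt k L) : AddStmt k L := by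
  intro s W K₀ Y N G a E hs hG hd hE
  obtain ⟨A', B', hA', hB', hrep⟩ := exists_rep_mn s.A s.B hs.good.primA hs.good.primB a
  let U : Subalgebra k L → Option s.ι → L := fun O o => o.elim (G / mn (s.U O) a) (s.U O)
  let s' : Sys k L := Sys.mk (Option s.ι) s.M (fun o => o.elim (Submodule.span k {G} * B') s.A)
    (fun o => o.elim (Submodule.span k {1} * A') s.B) U
  have hexp : ∀ (O : Subalgebra k L) (c : s.ι → ℤ), mn (U O) (fun o => o.elim 0 c) = mn (s.U O) c :=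
    fun O c => by
      rw [mn_option]
      simp [U]
  have hG' : ∀ O, s.P O → Un O (G / mn (U O) fun o => o.elim 1 a) := fun O hO => by
    have h1 : (mn (U O) fun o => o.elim 1 a) = G := by
      rw [mn_option]
      simp only [U, Option.elim, zpow_one]
      exact div_mul_cancel₀ _ (mn_ne_zero (hs.good.ne hO) a)
    rw [h1, div_self hG.2.1]
    exact Un.one _
  have hrc : ∀ O, s.P O → RC O (U O) := fun O hO =>
    nzd.add _ O _ _ (alg.noeth O (hs.good.lci O hO)).1 (alg.noeth O (hs.good.lci O hO)).2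
      (hs.good.rc O hO) (hd O hO).1
      (div_ne_zero hG.2.1 (mn_ne_zero (hs.good.ne hO) a)) (hd O hO).2.2
  have hmon : ∀ r, s.IsMon r → s'.IsMon r := by
    rintro r ⟨c, hc⟩
    refine ⟨fun o => o.elim 0 c, fun O hO => ?_⟩
    have := hc O hO
    rwa [← hexp] at this
  refine ⟨s', ⟨⟨hs.good.primM, ?_, ?_, hs.good.lci, hrc, ?_⟩, ?_, ?_, ?_⟩, hmon, fun _ h => h⟩
  · rintro (_ | ρ)
    · exact (prim_span hG).mul hB'
    · exact hs.good.primA ρ
  · rintro (_ | ρ)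
    · exact (prim_span (Un.one _)).mul hA'
    · exact hs.good.primB ρ
  · rintro O hO (_ | ρ)
    · exact (rep_span O hG.2.1).div (hrep O _ (hs.good.rep O hO))
    · exact hs.good.rep O hO ρ
  · rintro p (rfl | hp)
    · exact ⟨fun x hx => hmon x (hE x hx), _, hG'⟩
    · exact ⟨fun x hx => hmon x ((hs.mon p hp).1 x hx), hmon _ (hs.mon p hp).2⟩
  · intro O hO
    by_cases hun : Un O (G / mn (s.U O) a)
    · obtain ⟨p, hp, hz⟩ := hs.nz O hO
      refine ⟨p, Set.mem_insert_of_mem _ hp, ?_⟩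
      have e : big O (U O) = big O (s.U O) := by
        ext x
        constructor
        · rintro ⟨_ | ρ, h1, rfl⟩
          · exact (h1 hun).elim
          · exact ⟨ρ, h1, rfl⟩
        · rintro ⟨ρ, h1, rfl⟩
          exact ⟨some ρ, h1, rfl⟩
      exact e ▸ hz
    · refine ⟨(E, G), Set.mem_insert _ _, fun T g m hm hg => ?_⟩
      have h0 : ∀ o, U O o ≠ 0 := fun o => ((hrc O hO).1 o).2
      have hc : ∀ n ∈ T, ∃ c : Option s.ι → ℤ, c none = n ∧ Un O (g n * G ^ n / mn (U O) c) := by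
        intro n hn
        obtain ⟨c, hc⟩ := Sys.IsMon.of_grp hs.good hE (hg n hn).1
        have h1 := hc O hO
        rw [← hexp] at h1
        exact ⟨_, by simp, un_exp_mul h0 h1 (un_exp_zpow (hG' O hO) n)⟩
      have hT : T = {m} := by
        refine Finset.eq_singleton_iff_unique_mem.2 ⟨hm, fun n hn => ?_⟩
        obtain ⟨c, h1, h2⟩ := hc n hn
        obtain ⟨c', h3, h4⟩ := hc m hm
        have h5 := exp_le' nzd (hrc O hO) (ρ := none) hun h2 h4 (hg n hn).2.1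
        have h6 := exp_le' nzd (hrc O hO) (ρ := none) hun h4 h2 (by
          have := (hg n hn).2.2.2
          rwa [inv_div] at this)
        omega
      rw [hT, Finset.sum_singleton]
      exact .of_un (hg m hm).2
  · intro O hO
    have h1 : tor O (s.U O) ≤ tor O (U O) :=
      tor_le (le_tor _ _) fun ρ => inv_mem_tor O (U O) (some ρ)
    exact (hs.lam O hO).trans (loc_mono
      (adj_le ((inf_le_inf_left _ h1).trans (le_adj _ _)) (self_mem_adj _ _)) h1)

end Pool.Agent.MP_19ffc6_ag.Lci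

end MrgPart4

-- ======== part 5: formerly Pool.Agent.MP_19ffc6_ag.Lci.Init
section MrgPart5

/-! Module INIT: the product with the projective line. -/

namespace Pool.Agent.MP_19ffc6_ag.Lci

open Pool.Agent.MP_19ffc6_ag.Wild Polynomial

variable {k L : Type} [Field k] [Field L] [Algebra k L]

namespace Init

lemma pt_le {K₀ : IntermediateField k L} {M : Submodule k L} {O : Subalgebra k L}
    (hM : ∀ x ∈ M, x ∈ K₀) (h : Pt ⊥ M O) : O ≤ K₀.toSubalgebra := by
  obtain ⟨g, hg, -, hP⟩ := h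
  have h1 : chart ⊥ M g ≤ K₀.toSubalgebra :=
    chart_le bot_le fun m hm => K₀.div_mem (hM m hm) (hM g hg)
  intro x hx
  obtain ⟨a, ha, b, hb, -, rfl⟩ := hP.le_loc hx
  exact K₀.div_mem (h1 ha) (h1 hb)

lemma kp_of {K₀ : IntermediateField k L} {O : Subalgebra k L} (hO : O ≤ K₀.toSubalgebra) {x : L}
    (hx : Transcendental K₀ x) (S : Set L) : KP O x S := by
  intro P hP e n
  have hl : P ∈ Polynomial.lifts (algebraMap K₀ L) := by
    rw [Polynomial.lifts_iff_coeff_lifts]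
    exact fun i => ⟨⟨_, hO (hP i)⟩, rfl⟩
  obtain ⟨Q, rfl⟩ := hl
  have h0 : Q = 0 := by
    by_contra hQ
    refine hx ⟨Q, hQ, ?_⟩
    rw [← Polynomial.eval_map_algebraMap]
    exact e
  simp [h0]

section Local

variable {ι : Type} {O O' : Subalgebra k L} {u : ι → L} {x : L}

/-- Regular crossings on the affine line over `O`. -/
lemma rc_line (nzd : NzdStmt k L) (hu : RC O u) (hkp : ∀ S, KP O x S) (hx0 : x ≠ 0)
    (hP : IsPoint (adj O x) O') : RC O' (fun o : Option ι => o.elim x u) := by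
  have hO : O ≤ O' := (le_adj O x).trans hP.le
  refine ⟨?_, ?_⟩
  · rintro (_ | ρ)
    · exact ⟨hP.le (self_mem_adj O x), hx0⟩
    · exact ⟨hO (hu.1 ρ).1, (hu.1 ρ).2⟩
  · intro τ o ho
    have hS : ∀ s ∈ u '' (some ⁻¹' τ), s ∈ O := by
      rintro _ ⟨ρ, -, rfl⟩; exact (hu.1 ρ).1
    by_cases hn : none ∈ τ
    · have e : (fun o : Option ι => o.elim x u) '' τ = insert x (u '' (some ⁻¹' τ)) := by
        ext y
        constructor
        · rintro ⟨_ | ρ, h, rfl⟩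
          · exact Or.inl rfl
          · exact Or.inr ⟨ρ, h, rfl⟩
        · rintro (rfl | ⟨ρ, h, rfl⟩)
          · exact ⟨none, hn, rfl⟩
          · exact ⟨some ρ, h, rfl⟩
      rw [e]
      rcases o with _ | ρ
      · exact (ho hn).elim
      · exact nzd.loc _ _ _ _ hP (le_adj O x (hu.1 ρ).1)
          (nzd.const O x _ _ (hkp _) hS (hu.1 ρ).1 (hu.2 _ ρ ho))
    · have e : (fun o : Option ι => o.elim x u) '' τ = u '' (some ⁻¹' τ) := by
        ext y
        constructor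
        · rintro ⟨_ | ρ, h, rfl⟩
          · exact (hn h).elim
          · exact ⟨ρ, h, rfl⟩
        · rintro ⟨ρ, h, rfl⟩
          exact ⟨some ρ, h, rfl⟩
      rw [e]
      rcases o with _ | ρ
      · have := nzd.poly O x _ X (hkp _) hS (coeff_X_mem O)
          (by rw [leadingCoeff_X]; exact .of_un (Un.one _))
        rw [eval_X] at this
        exact nzd.loc _ _ _ _ hP (self_mem_adj O x) this
      · have := nzd.poly O x _ (C (u ρ)) (hkp _) hS (coeff_C_mem (hu.1 ρ).1)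
          (by rw [leadingCoeff_C]; exact hu.2 _ ρ ho)
        rw [eval_C] at this
        exact nzd.loc _ _ _ _ hP (le_adj O x (hu.1 ρ).1) this

/-- Reindexing and adding units preserves regular crossings. -/
lemma rc_sub {κ κ' : Type} {v : κ → L} {v' : κ' → L} (hv : RC O v) (f : κ' → κ)
    (h1 : ∀ a, Un O (v' a) ∨ v' a = v (f a))
    (h2 : ∀ a b, ¬ Un O (v' a) → ¬ Un O (v' b) → f a = f b → a = b) : RC O v' := by
  refine ⟨fun a => ?_, fun τ a ha => ?_⟩
  · rcases h1 a with h | h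
    · exact ⟨h.1, h.2.1⟩
    · rw [h]; exact hv.1 _
  · by_cases hu : Un O (v' a)
    · exact .of_un hu
    by_cases hτ : ∃ b ∈ τ, Un O (v' b)
    · obtain ⟨b, hb, hb'⟩ := hτ
      exact .of_un_mem (Submodule.subset_span ⟨b, hb, rfl⟩) hb'
    push Not at hτ
    have e : v' '' τ = v '' (f '' τ) := by
      rw [Set.image_image]
      exact Set.image_congr fun b hb => (h1 b).resolve_left (hτ b hb)
    rw [e, (h1 a).resolve_left hu]
    refine hv.2 _ _ ?_
    rintro ⟨b, hb, hab⟩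
    exact ha (h2 b a (hτ b hb) hu hab ▸ hb)

variable [Fintype ι]

/-- A unit of the form monomial times a power of `x`. -/
lemma un_of_un (nzd : NzdStmt k L) (hu : RC O u) (hd : Dom O O')
    (hv : RC O' (fun o : Option ι => o.elim x u)) {r : L} (hr : LMon O u r) {j : ℤ}
    (h : Un O' (r * x ^ j)) : Un O r ∧ (¬ Un O' x → j = 0) := by
  obtain ⟨c, hc⟩ := hr
  have hm : mn u c ≠ 0 := mn_ne_zero (fun ρ => (hu.1 ρ).2) c
  let c' : Option ι → ℤ := fun o => o.elim j c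
  have e : r * x ^ j = r / mn u c * mn (fun o : Option ι => o.elim x u) c' := by
    rw [mn_option]
    change r * x ^ j = r / mn u c * (x ^ j * mn u c)
    field_simp
  have key : ∀ o : Option ι, ¬ Un O' (o.elim x u) → c' o = 0 := by
    intro o ho
    have hw := hc.mono hd.1
    have h1 := nzd.exp (Option ι) O' _ o _ c' hv ho hw.1 (.of_un hw) (e ▸ h.1)
    have h2 := nzd.exp (Option ι) O' _ o _ (-c') hv ho hw.inv.1 (.of_un hw.inv) (by
      rw [mn_neg, ← mul_inv, ← e]; exact h.2.2)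
    rw [Pi.neg_apply] at h2
    omega
  refine ⟨?_, fun hx => key none hx⟩
  have h3 : Un O (mn u c) := mn_un fun ρ hρ => key (some ρ) fun h' => hρ (hd.2 _ (hu.1 ρ).1 h')
  have := hc.mul h3
  rwa [div_mul_cancel₀ _ hm] at this

/-- A Laurent polynomial with unit coefficients is a nonzero divisor. -/
lemma nzd_laurent (nzd : NzdStmt k L) {S : Set L} (hS : ∀ s ∈ S, s ∈ O) (hkp : KP O x S)
    (hP : IsPoint (adj O x) O') (hx : Un O' x) (T : Finset ℤ) {m : ℤ} (hm : m ∈ T) (r : ℤ → L)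
    (e : ℤ → ℤ) (he : Function.Injective e) (hr : ∀ n ∈ T, Un O (r n)) :
    NZD O' S (∑ n ∈ T, r n * x ^ e n) := by
  classical
  obtain ⟨N, hN⟩ : ∃ N : ℤ, ∀ n ∈ T, 0 ≤ e n + N := by
    obtain ⟨b, hb⟩ := (T.image e).bddBelow
    exact ⟨-b, fun n hn => by
      have := hb (Finset.mem_coe.2 (Finset.mem_image_of_mem e hn)); omega⟩
  let P : L[X] := ∑ n ∈ T, monomial (e n + N).toNat (r n)
  have hinj : ∀ n ∈ T, ∀ n' ∈ T, (e n + N).toNat = (e n' + N).toNat → n = n' := by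
    intro n hn n' hn' h
    have h1 := hN n hn
    have h2 := hN n' hn'
    exact he (by omega)
  have hco : ∀ n ∈ T, P.coeff (e n + N).toNat = r n := by
    intro n hn
    rw [finsetSum_coeff, Finset.sum_eq_single n]
    · simp
    · intro n' hn' hne
      rw [coeff_monomial, if_neg fun h => hne (hinj _ hn' _ hn h)]
    · exact fun h => (h hn).elim
  have hco' : ∀ d, P.coeff d = 0 ∨ Un O (P.coeff d) := by
    intro d
    by_cases hd : ∃ n ∈ T, (e n + N).toNat = d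
    · obtain ⟨n, hn, rfl⟩ := hd
      right; rw [hco n hn]; exact hr n hn
    · left
      rw [finsetSum_coeff]
      refine Finset.sum_eq_zero fun n hn => ?_
      rw [coeff_monomial, if_neg fun h => hd ⟨n, hn, h⟩]
  have hP0 : P ≠ 0 := fun h => (hr m hm).2.1 (by rw [← hco m hm, h, coeff_zero])
  have hmem : ∀ d, P.coeff d ∈ O := fun d =>
    (hco' d).elim (fun h => h ▸ zero_mem _) fun h => h.1
  have hlead : Un O P.leadingCoeff :=
    (hco' P.natDegree).resolve_left (leadingCoeff_ne_zero.2 hP0)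
  have h1 := nzd.loc _ _ _ _ hP (mem_adj_iff.2 ⟨P, hmem, rfl⟩)
    (nzd.poly O x S P hkp hS hmem (.of_un hlead))
  have h2 := h1.mul (.of_un (un_zpow hx (-N))) (un_zpow hx (-N)).1
  convert h2 using 1
  rw [eval_finsetSum, Finset.sum_mul]
  refine Finset.sum_congr rfl fun n hn => ?_
  rw [eval_monomial, mul_assoc, ← zpow_natCast, ← zpow_add₀ hx.2.1, Int.toNat_of_nonneg (hN n hn),
    add_neg_cancel_right]

/-- The invariant `NZ` on the affine line over `O`. -/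
lemma nz_line (nzd : NzdStmt k L) (hu : RC O u) (hkp : ∀ S, KP O x S) (hx0 : x ≠ 0)
    (hd : Dom O O') (hP : IsPoint (adj O x) O') {E : Set L} (hE : ∀ y ∈ E, LMon O u y)
    {S : Set L} (hS : Un O' x → ∀ s ∈ S, s ∈ O) {ε : ℤ} (hε : ε ≠ 0) : NZ O' S E (x ^ ε) := by
  intro T g m hm hT
  have hu0 : ∀ ρ, u ρ ≠ 0 := fun ρ => (hu.1 ρ).2
  have hg : ∀ n ∈ T, LMon O u (g n) := fun n hn => LMon.of_grp hu0 hE (hT n hn).1
  have e : ∀ n, g n * (x ^ ε) ^ n / (g m * (x ^ ε) ^ m) =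
      g n * (g m)⁻¹ * x ^ (ε * n - ε * m) := fun n => by
    rw [zpow_sub₀ hx0, zpow_mul, zpow_mul, ← div_mul_div_comm, div_eq_mul_inv (g n)]
  have key := fun n hn => un_of_un nzd hu hd (rc_line nzd hu hkp hx0 hP)
    ((hg n hn).mul hu0 (hg m hm).inv) (e n ▸ (hT n hn).2)
  by_cases hx : Un O' x
  · simp only [e]
    refine nzd_laurent nzd (hS hx) (hkp S) hP hx T hm (fun n => g n * (g m)⁻¹)
      (fun n => ε * n - ε * m) (fun a b hab => ?_) fun n hn => (key n hn).1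
    exact mul_left_cancel₀ hε (sub_left_injective hab)
  · have hT1 : ∀ n ∈ T, n = m := fun n hn =>
      mul_left_cancel₀ hε (sub_eq_zero.1 ((key n hn).2 hx))
    rw [Finset.sum_eq_single m (fun n hn hne => (hne (hT1 n hn)).elim) fun h => (h hm).elim]
    exact .of_un (hT m hm).2

end Local

/-- The subspace spanned by `Y` and `1`. -/
def J (k : Type) {L : Type} [Field k] [Field L] [Algebra k L] (Y : L) : Submodule k L :=
  Submodule.span k {Y} ⊔ Submodule.span k {1}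

lemma Y_mem (Y : L) : Y ∈ J k Y := Submodule.mem_sup_left (Submodule.mem_span_singleton_self _)

lemma one_mem_J (Y : L) : (1 : L) ∈ J k Y :=
  Submodule.mem_sup_right (Submodule.mem_span_singleton_self _)

lemma div_mem_of {Y q : L} {D : Subalgebra k L} (h1 : Y / q ∈ D) (h2 : 1 / q ∈ D) :
    ∀ j ∈ J k Y, j / q ∈ D := by
  intro j hj
  obtain ⟨y, hy, z, hz, rfl⟩ := Submodule.mem_sup.1 hj
  obtain ⟨a, rfl⟩ := Submodule.mem_span_singleton.1 hy
  obtain ⟨b, rfl⟩ := Submodule.mem_span_singleton.1 hz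
  rw [add_div, smul_div_assoc, smul_div_assoc]
  exact add_mem (D.smul_mem h1 a) (D.smul_mem h2 b)

lemma pt_of {O O' D : Subalgebra k L} {Y h q : L} (hP : IsPoint (chart O (J k Y) h) O')
    (hh : h ∈ J k Y) (hq : q ≠ 0) (h1 : O ≤ D) (h2 : D ≤ O') (hJ : ∀ j ∈ J k Y, j / q ∈ D)
    (hu : Un O' (q / h)) : IsPoint D O' := by
  refine hP.of_le_loc h2 (chart_le (h1.trans (le_loc _ _)) fun j hj => ?_)
  refine ⟨j / q, hJ j hj, h / q, hJ h hh, by simpa using hu.inv, ?_⟩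
  rw [div_div_div_cancel_right₀ hq]

/-- The two charts of the projective line over a point. -/
lemma exists_chart {M : Submodule k L} {Y : L} (hY : Y ≠ 0) {O' : Subalgebra k L}
    (h : Pt ⊥ (M * J k Y) O') : ∃ O, Pt ⊥ M O ∧ Dom O O' ∧
      ((IsPoint (adj O Y) O' ∧ Gen O' (J k Y) 1) ∨ (IsPoint (adj O Y⁻¹) O' ∧ Gen O' (J k Y) Y)) := by
  obtain ⟨O, g, hg, hO, hd, hg0, hP⟩ := Pt.of_mul_dom h
  refine ⟨O, hO, hd, ?_⟩
  have hY' : Y / g ∈ O' := hP.le (div_mem_chart _ _ (Y_mem Y))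
  have h1' : 1 / g ∈ O' := hP.le (div_mem_chart _ _ (one_mem_J Y))
  have hun : Un O' (Y / g) ∨ Un O' (1 / g) := by
    by_contra H
    push Not at H
    obtain ⟨y, hy, z, hz, e⟩ := Submodule.mem_sup.1 hg
    obtain ⟨a, rfl⟩ := Submodule.mem_span_singleton.1 hy
    obtain ⟨b, rfl⟩ := Submodule.mem_span_singleton.1 hz
    have : (a • Y + b • 1) / g ∈ mx hP.lcl := by
      rw [add_div, smul_div_assoc, smul_div_assoc]
      exact add_mem (Submodule.smul_mem _ a ⟨hY', H.1⟩) (Submodule.smul_mem _ b ⟨h1', H.2⟩)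
    rw [e, div_self hg0] at this
    exact this.2 (Un.one _)
  rcases hun with hu | hu
  · right
    have hi : Y⁻¹ ∈ O' := by
      have := mul_mem h1' hu.2.2
      convert this using 1
      field_simp
    have hJ : ∀ j ∈ J k Y, j / Y ∈ adj O Y⁻¹ :=
      div_mem_of (by rw [div_self hY]; exact one_mem _) (by rw [one_div]; exact self_mem_adj _ _)
    exact ⟨pt_of hP hg hY (le_adj _ _) (adj_le hd.1 hi) hJ hu, hY,
      fun j hj => adj_le hd.1 hi (hJ j hj), Y, Y_mem Y, by rw [div_self hY]; exact Un.one _⟩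
  · left
    have hi : Y ∈ O' := by
      have := mul_mem hY' hu.2.2
      convert this using 1
      field_simp
    have hJ : ∀ j ∈ J k Y, j / 1 ∈ adj O Y :=
      div_mem_of (by rw [div_one]; exact self_mem_adj _ _) (by rw [div_one]; exact one_mem _)
    exact ⟨pt_of hP hg one_ne_zero (le_adj _ _) (adj_le hd.1 hi) hJ hu, one_ne_zero,
      fun j hj => adj_le hd.1 hi (hJ j hj), 1, one_mem_J Y, by rw [div_one]; exact Un.one _⟩

/-- The local data at a point of the new model. -/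
structure Dat (s : Sys k L) (Y : L) (O' : Subalgebra k L) (u' : Option (Option s.ι) → L)
    (O : Subalgebra k L) (x : L) : Prop where
  pt : s.P O
  dom : Dom O O'
  isP : IsPoint (adj O x) O'
  old : ∀ ρ, u' (some (some ρ)) = s.U O ρ
  new : (x = Y ∧ u' none = x ∧ u' (some none) = 1 ∧ Gen O' (J k Y) 1) ∨
    (x = Y⁻¹ ∧ u' none = 1 ∧ u' (some none) = x ∧ Gen O' (J k Y) Y)

lemma exists_dat (s : Sys k L) {Y : L} (hY : Y ≠ 0) (O' : Subalgebra k L) :
    ∃ u' : Option (Option s.ι) → L, Pt ⊥ (s.M * J k Y) O' → ∃ O x, Dat s Y O' u' O x := by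
  by_cases h : Pt ⊥ (s.M * J k Y) O'
  · obtain ⟨O, hO, hd, ⟨hP, hG⟩ | ⟨hP, hG⟩⟩ := exists_chart hY h
    · exact ⟨fun o => o.elim Y fun o' => o'.elim 1 (s.U O), fun _ =>
        ⟨O, Y, hO, hd, hP, fun _ => rfl, Or.inl ⟨rfl, rfl, rfl, hG⟩⟩⟩
    · exact ⟨fun o => o.elim 1 fun o' => o'.elim Y⁻¹ (s.U O), fun _ =>
        ⟨O, Y⁻¹, hO, hd, hP, fun _ => rfl, Or.inr ⟨rfl, rfl, rfl, hG⟩⟩⟩
  · exact ⟨fun _ => 1, fun h' => (h h').elim⟩

lemma Dat.mn_eq {s : Sys k L} {Y : L} {O' O : Subalgebra k L} {u' : Option (Option s.ι) → L}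
    {x : L} (h : Dat s Y O' u' O x) (j : ℤ) (c : s.ι → ℤ) :
    mn u' (fun o => o.elim j fun o' => o'.elim (-j) c) = Y ^ j * mn (s.U O) c := by
  rw [mn_option, mn_option]
  simp only [Option.elim, h.old]
  rcases h.new with ⟨rfl, h1, h2, -⟩ | ⟨rfl, h1, h2, -⟩ <;> simp [h1, h2]

end Init

open Init in
theorem init_of (nzd : NzdStmt k L) (alg : AlgStmt k L) : InitStmt k L := by
  intro s K₀ W Y E hs hW hY hT hE
  have hY0 : Y ≠ 0 := hY.2.1
  choose U hU using exists_dat s hY0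
  have hJ : Prim W (J k Y) := (prim_span hY).sup (prim_span (Un.one _))
  let s' : Sys k L := Sys.mk (Option (Option s.ι)) (s.M * J k Y)
    (fun o => o.elim (Submodule.span k {Y}) fun o' => o'.elim (Submodule.span k {1}) s.A)
    (fun o => o.elim (J k Y) fun o' => o'.elim (J k Y) s.B) U
  have hle : ∀ {O' O x}, Dat s Y O' (U O') O x → O ≤ K₀.toSubalgebra :=
    fun h => pt_le hs.primM.2.1 h.pt
  have hx0 : ∀ {O' O x}, Dat s Y O' (U O') O x → x ≠ 0 := fun h => by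
    rcases h.new with ⟨rfl, -⟩ | ⟨rfl, -⟩
    exacts [hY0, inv_ne_zero hY0]
  have hkp : ∀ {O' O x}, Dat s Y O' (U O') O x → ∀ S, KP O x S := fun h => by
    refine kp_of (hle h) ?_
    rcases h.new with ⟨rfl, -⟩ | ⟨rfl, -⟩
    · exact hT
    · exact fun h' => hT (IsAlgebraic.inv_iff.1 h')
  have hmon : ∀ r, s.IsMon r → s'.IsMon r := by
    rintro r ⟨c, hc⟩
    refine ⟨fun o => o.elim 0 fun o' => o'.elim (-0) c, fun O' hO' => ?_⟩
    obtain ⟨O, x, h⟩ := hU O' hO'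
    change Un O' (r / mn (U O') _)
    rw [h.mn_eq, zpow_zero, one_mul]
    exact (hc O h.pt).mono h.dom.1
  have hrc : ∀ {O' O x}, Dat s Y O' (U O') O x → RC O' (U O') := fun {O' O x} h => by
    refine rc_sub (rc_line nzd (hs.rc O h.pt) (hkp h) (hx0 h) h.isP) (fun o => o.bind id) ?_ ?_
    · rintro (_ | _ | ρ)
      · rcases h.new with ⟨-, h1, -⟩ | ⟨-, h1, -⟩
        · exact Or.inr h1
        · left; rw [h1]; exact Un.one _
      · rcases h.new with ⟨-, -, h1, -⟩ | ⟨-, -, h1, -⟩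
        · left; rw [h1]; exact Un.one _
        · exact Or.inr h1
      · exact Or.inr (h.old ρ)
    · have h1 : Un O' (U O' none) ∨ Un O' (U O' (some none)) := by
        rcases h.new with ⟨-, -, h1, -⟩ | ⟨-, h1, -⟩
        · right; rw [h1]; exact Un.one _
        · left; rw [h1]; exact Un.one _
      rintro (_ | _ | a) (_ | _ | b) ha hb e
      all_goals first
        | rfl
        | exact (h1.elim ha hb).elim
        | exact (h1.elim hb ha).elim
        | (simp at e; done)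
        | (simp at e; rw [e])
  refine ⟨s', ⟨⟨(hs.primM.mono hW).mul hJ, ?_, ?_, ?_, ?_, ?_⟩, ?_, ?_, ?_⟩, hmon⟩
  · rintro (_ | _ | ρ)
    exacts [prim_span hY, prim_span (Un.one _), (hs.primA ρ).mono hW]
  · rintro (_ | _ | ρ)
    exacts [hJ, hJ, (hs.primB ρ).mono hW]
  · intro O' hO'
    obtain ⟨O, x, h⟩ := hU O' hO'
    exact alg.free O O' x (hs.lci O h.pt) (hkp h _) h.isP
  · intro O' hO'
    obtain ⟨O, x, h⟩ := hU O' hO'
    exact hrc h
  · intro O' hO'
    obtain ⟨O, x, h⟩ := hU O' hO'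
    rintro (_ | _ | ρ)
    · rcases h.new with ⟨rfl, h1, -, hG⟩ | ⟨-, h1, -, hG⟩
      · exact ⟨_, _, gen_span O' hY0, hG, h1.trans (div_one _).symm⟩
      · exact ⟨_, _, gen_span O' hY0, hG, h1.trans (div_self hY0).symm⟩
    · rcases h.new with ⟨-, -, h1, hG⟩ | ⟨rfl, -, h1, hG⟩
      · exact ⟨_, _, gen_span O' one_ne_zero, hG, h1.trans (div_one _).symm⟩
      · exact ⟨_, _, gen_span O' one_ne_zero, hG, h1.trans (one_div _).symm⟩
    · change Rep O' (s.A ρ) (s.B ρ) (U O' (some (some ρ)))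
      rw [h.old]
      exact (hs.rep O h.pt ρ).mono h.dom.1
  · rintro p rfl
    refine ⟨fun y hy => hmon y (hE y hy),
      fun o => o.elim 1 fun o' => o'.elim (-1) 0, fun O' hO' => ?_⟩
    obtain ⟨O, x, h⟩ := hU O' hO'
    change Un O' (Y / mn (U O') _)
    rw [h.mn_eq, zpow_one, mn_zero, mul_one, div_self hY0]
    exact Un.one _
  · intro O' hO'
    obtain ⟨O, x, h⟩ := hU O' hO'
    refine ⟨(E, Y), rfl, ?_⟩
    have hS : Un O' x → ∀ y ∈ big O' (U O'), y ∈ O := by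
      rintro hx _ ⟨_ | _ | ρ, ha, rfl⟩
      · rcases h.new with ⟨-, h1, -⟩ | ⟨-, h1, -⟩
        · exact (ha (h1 ▸ hx)).elim
        · rw [h1]; exact one_mem _
      · rcases h.new with ⟨-, -, h1, -⟩ | ⟨-, -, h1, -⟩
        · rw [h1]; exact one_mem _
        · exact (ha (h1 ▸ hx)).elim
      · rw [h.old]; exact ((hs.rc O h.pt).1 ρ).1
    have key := fun (ε : ℤ) (hε : ε ≠ 0) => nz_line nzd (hs.rc O h.pt) (hkp h) (hx0 h) h.dom h.isP
      (fun y hy => (hE y hy).lmon h.pt) hS hε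
    rcases h.new with ⟨e, -⟩ | ⟨e, -⟩
    · have := key 1 one_ne_zero
      rwa [zpow_one, e] at this
    · have := key (-1) (by norm_num)
      rwa [zpow_neg, zpow_one, e, inv_inv] at this
  · intro O' hO'
    obtain ⟨O, x, h⟩ := hU O' hO'
    change O' ≤ loc (adj (K₀.toSubalgebra ⊓ tor O' (U O')) Y) (tor O' (U O'))
    have hxT : Un (tor O' (U O')) x := by
      rcases h.new with ⟨-, h1, -⟩ | ⟨-, -, h1, -⟩
      · exact h1 ▸ un_tor (hrc h).1 none
      · exact h1 ▸ un_tor (hrc h).1 (some none)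
    have hYT : Un (tor O' (U O')) Y := by
      rcases h.new with ⟨e, -⟩ | ⟨e, -⟩
      · exact e ▸ hxT
      · have := hxT.inv
        rwa [e, inv_inv] at this
    have h1 : O ≤ K₀.toSubalgebra ⊓ tor O' (U O') := le_inf (hle h) (h.dom.1.trans (le_tor _ _))
    refine h.isP.le_loc.trans ((loc_mono le_rfl (le_tor O' (U O'))).trans
      (loc_le_loc (adj_le (h1.trans ((le_adj _ Y).trans (le_loc _ _))) ?_)
        (adj_le inf_le_right hYT.1)))
    rcases h.new with ⟨e, -⟩ | ⟨e, -⟩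
    · rw [e]; exact le_loc _ _ (self_mem_adj _ _)
    · rw [e]; exact inv_mem_loc (le_loc _ _ (self_mem_adj _ _)) hYT

end Pool.Agent.MP_19ffc6_ag.Lci

end MrgPart5

-- ======== part 6: formerly Pool.Agent.MP_19ffc6_ag.Lci.Transfer
section MrgPart6

/-! Module TRANSFER: restriction of a system to the divisor of an irreducible polynomial. -/

namespace Pool.Agent.MP_19ffc6_ag.Lci

open Pool.Agent.MP_19ffc6_ag.Wild Polynomial

variable {k L : Type} [Field k] [Field L] [Algebra k L]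

namespace Transfer

variable {W : Subalgebra k L} (π : W →ₐ[k] L) {x y : L} {O : Subalgebra k L}

open Classical in
/-- The extension of `π` by zero. -/
noncomputable def pe (x : L) : L := if h : x ∈ W then π ⟨x, h⟩ else 0

lemma pe_eq (h : x ∈ W) : pe π x = π ⟨x, h⟩ := dif_pos h

lemma pe_coe (w : W) : pe π w = π w := pe_eq π w.2

lemma pe_mul (hx : x ∈ W) (hy : y ∈ W) : pe π (x * y) = pe π x * pe π y := by
  rw [pe_eq π hx, pe_eq π hy, pe_eq π (mul_mem hx hy), ← map_mul]; rfl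

lemma pe_add (hx : x ∈ W) (hy : y ∈ W) : pe π (x + y) = pe π x + pe π y := by
  rw [pe_eq π hx, pe_eq π hy, pe_eq π (add_mem hx hy), ← map_add]; rfl

lemma pe_sub (hx : x ∈ W) (hy : y ∈ W) : pe π (x - y) = pe π x - pe π y := by
  rw [pe_eq π hx, pe_eq π hy, pe_eq π (sub_mem hx hy), ← map_sub]; rfl

lemma pe_one : pe π 1 = 1 := by
  rw [pe_eq π (one_mem _)]; exact map_one π

lemma pe_zero : pe π 0 = 0 := by
  rw [pe_eq π (zero_mem _)]; exact map_zero π

lemma pe_mul_inv (hx : Un W x) : pe π x * pe π x⁻¹ = 1 := by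
  rw [← pe_mul π hx.1 hx.2.2, mul_inv_cancel₀ hx.2.1, pe_one]

lemma pe_ne (hx : Un W x) : pe π x ≠ 0 := left_ne_zero_of_mul_eq_one (pe_mul_inv π hx)

lemma pe_inv (hx : Un W x) : pe π x⁻¹ = (pe π x)⁻¹ := eq_inv_of_mul_eq_one_right (pe_mul_inv π hx)

lemma pe_div (hx : x ∈ W) (hy : Un W y) : pe π (x / y) = pe π x / pe π y := by
  rw [div_eq_mul_inv, pe_mul π hx hy.2.2, pe_inv π hy, div_eq_mul_inv]

lemma pe_pow (hx : x ∈ W) (n : ℕ) : pe π (x ^ n) = pe π x ^ n := by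
  rw [pe_eq π hx, pe_eq π (pow_mem hx n), ← map_pow]; rfl

lemma pe_zpow (hx : Un W x) (n : ℤ) : pe π (x ^ n) = pe π x ^ n := by
  obtain ⟨m, rfl | rfl⟩ := n.eq_nat_or_neg
  · rw [zpow_natCast, zpow_natCast, pe_pow π hx.1]
  · rw [zpow_neg, zpow_neg, zpow_natCast, zpow_natCast, pe_inv π (hx.pow m), pe_pow π hx.1]

lemma pe_prod {κ : Type} (s : Finset κ) (f : κ → L) (h : ∀ i, f i ∈ W) :
    pe π (∏ i ∈ s, f i) = ∏ i ∈ s, pe π (f i) := by
  classical
  induction s using Finset.induction_on with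
  | empty => simpa using pe_one π
  | insert i s hi ih =>
    rw [Finset.prod_insert hi, Finset.prod_insert hi, pe_mul π (h i) (prod_mem fun j _ => h j), ih]

lemma pe_mn {ι : Type} [Fintype ι] {u : ι → L} (hu : ∀ ρ, Un W (u ρ)) (c : ι → ℤ) :
    pe π (mn u c) = mn (fun ρ => pe π (u ρ)) c := by
  rw [mn, pe_prod π _ _ fun ρ => (un_zpow (hu ρ) _).1]
  exact Finset.prod_congr rfl fun ρ _ => pe_zpow π (hu ρ) _

lemma mem_img (hO : O ≤ W) : y ∈ img π O ↔ ∃ x ∈ O, pe π x = y := by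
  constructor
  · rintro ⟨w, hw, rfl⟩
    exact ⟨w, hw, pe_coe π w⟩
  · rintro ⟨x, hx, rfl⟩
    exact ⟨⟨x, hO hx⟩, hx, (pe_eq π (hO hx)).symm⟩

lemma pe_mem_img (hO : O ≤ W) (hx : x ∈ O) : pe π x ∈ img π O := (mem_img π hO).2 ⟨x, hx, rfl⟩

lemma un_img (hO : O ≤ W) (hx : Un O x) : Un (img π O) (pe π x) :=
  ⟨pe_mem_img π hO hx.1, pe_ne π (hx.mono hO), by
    rw [← pe_inv π (hx.mono hO)]; exact pe_mem_img π hO hx.2.2⟩

lemma pe_mem_range (hx : x ∈ W) : pe π x ∈ π.range := ⟨⟨x, hx⟩, (pe_eq π hx).symm⟩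

/-- The image of a subspace. -/
def pm (A : Submodule k L) : Submodule k L := (A.comap W.val.toLinearMap).map π.toLinearMap

lemma mem_pm {A : Submodule k L} (hA : ∀ x ∈ A, x ∈ W) : y ∈ pm π A ↔ ∃ x ∈ A, pe π x = y := by
  constructor
  · rintro ⟨w, hw, rfl⟩
    exact ⟨w, hw, pe_coe π w⟩
  · rintro ⟨x, hx, rfl⟩
    exact ⟨⟨x, hA x hx⟩, hx, (pe_eq π (hA x hx)).symm⟩

lemma prim_pm {A : Submodule k L} (hA : Prim W A) : Prim π.range (pm π A) := by
  refine ⟨?_, fun y hy => ?_, ?_⟩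
  · refine Submodule.FG.map _ (Submodule.fg_of_fg_map_injective W.val.toLinearMap
      Subtype.val_injective ?_)
    rw [Submodule.map_comap_eq_self fun x hx => ⟨⟨x, hA.2.1 x hx⟩, rfl⟩]
    exact hA.1
  · obtain ⟨x, hx, rfl⟩ := (mem_pm π hA.2.1).1 hy
    exact pe_mem_range π (hA.2.1 x hx)
  · obtain ⟨a, ha, hu⟩ := hA.2.2
    refine ⟨_, (mem_pm π hA.2.1).2 ⟨a, ha, rfl⟩, pe_mem_range π hu.1, pe_ne π hu, ?_⟩
    rw [← pe_inv π hu]
    exact pe_mem_range π hu.2.2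

lemma gen_un {A : Submodule k L} {a : L} (h : Gen O A a) (hA : Prim W A) (hO : O ≤ W) :
    Un W a := by
  obtain ⟨x, hx, hu⟩ := h.2.2
  obtain ⟨y, hy, hv⟩ := hA.2.2
  have ha := h.1
  have hx0 : x ≠ 0 := fun e => hu.2.1 (by simp [e])
  have hy0 := hv.2.1
  refine ⟨?_, h.1, ?_⟩
  · have : a = x * (x / a)⁻¹ := by field_simp
    rw [this]; exact mul_mem (hA.2.1 x hx) (hO hu.2.2)
  · have : a⁻¹ = y / a * y⁻¹ := by field_simp
    rw [this]; exact mul_mem (hO (h.2.1 y hy)) hv.2.2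

lemma gen_img {A : Submodule k L} {a : L} (h : Gen O A a) (hA : Prim W A) (hO : O ≤ W) :
    Gen (img π O) (pm π A) (pe π a) := by
  have ha := gen_un h hA hO
  refine ⟨pe_ne π ha, fun y hy => ?_, ?_⟩
  · obtain ⟨x, hx, rfl⟩ := (mem_pm π hA.2.1).1 hy
    rw [← pe_div π (hA.2.1 x hx) ha]
    exact pe_mem_img π hO (h.2.1 x hx)
  · obtain ⟨x, hx, hu⟩ := h.2.2
    refine ⟨_, (mem_pm π hA.2.1).2 ⟨x, hx, rfl⟩, ?_⟩
    rw [← pe_div π (hA.2.1 x hx) ha]
    exact un_img π hO hu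

lemma rep_un {A B : Submodule k L} {u : L} (h : Rep O A B u) (hA : Prim W A) (hB : Prim W B)
    (hO : O ≤ W) : Un W u := by
  obtain ⟨a, b, ha, hb, rfl⟩ := h
  exact un_div (gen_un ha hA hO) (gen_un hb hB hO)

lemma rep_img {A B : Submodule k L} {u : L} (h : Rep O A B u) (hA : Prim W A) (hB : Prim W B)
    (hO : O ≤ W) : Rep (img π O) (pm π A) (pm π B) (pe π u) := by
  obtain ⟨a, b, ha, hb, rfl⟩ := h
  exact ⟨_, _, gen_img π ha hA hO, gen_img π hb hB hO,
    pe_div π (gen_un ha hA hO).1 (gen_un hb hB hO)⟩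

/-- Every point of the image model is the image of a point. -/
lemma exists_lift (hπ : ∀ w : W, π w ≠ 0 → Un W w) {M : Submodule k L} (hM : ∀ x ∈ M, x ∈ W)
    {O' : Subalgebra k L} (h : Pt ⊥ (pm π M) O') : ∃ O, Pt ⊥ M O ∧ O ≤ W ∧ img π O = O' := by
  obtain ⟨g', hg', hg0, hP⟩ := h
  obtain ⟨g, hg, rfl⟩ := (mem_pm π hM).1 hg'
  have hun : ∀ x ∈ W, pe π x ≠ 0 → Un W x := fun x hx h => hπ ⟨x, hx⟩ (by rwa [← pe_eq π hx])
  have hgu : Un W g := hun g (hM g hg) hg0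
  let Ot : Subalgebra k L := (O'.comap π).map W.val
  have hOt : ∀ x, x ∈ Ot ↔ x ∈ W ∧ pe π x ∈ O' := by
    intro x
    constructor
    · rintro ⟨w, hw, rfl⟩
      exact ⟨w.2, (pe_coe π w).symm ▸ hw⟩
    · rintro ⟨hx, h⟩
      exact ⟨⟨x, hx⟩, by rwa [pe_eq π hx] at h, rfl⟩
  have hOW : Ot ≤ W := fun x hx => ((hOt x).1 hx).1
  have hU : ∀ x ∈ W, Un O' (pe π x) → Un Ot x := fun x hx h => by
    have hu := hun x hx h.2.1
    exact ⟨(hOt x).2 ⟨hx, h.1⟩, hu.2.1, (hOt _).2 ⟨hu.2.2, by rw [pe_inv π hu]; exact h.2.2⟩⟩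
  have hU' : ∀ x, Un Ot x → Un O' (pe π x) := fun x h =>
    ⟨((hOt x).1 h.1).2, pe_ne π (h.mono hOW), by
      rw [← pe_inv π (h.mono hOW)]; exact ((hOt _).1 h.2.2).2⟩
  have hL : Lcl Ot := by
    intro x hx y hy hxy
    have h1 := hU' _ hxy
    rw [pe_add π (hOW hx) (hOW hy)] at h1
    exact (hP.lcl _ ((hOt x).1 hx).2 _ ((hOt y).1 hy).2 h1).imp (hU x (hOW hx)) (hU y (hOW hy))
  have hD : chart ⊥ M g ≤ Ot := by
    refine chart_le bot_le fun m hm => (hOt _).2 ⟨?_, ?_⟩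
    · rw [div_eq_mul_inv]; exact mul_mem (hM m hm) hgu.2.2
    · rw [pe_div π (hM m hm) hgu]
      exact hP.le (div_mem_chart _ _ ((mem_pm π hM).2 ⟨m, hm, rfl⟩))
  have hDW : chart ⊥ M g ≤ W := hD.trans hOW
  have hOW' : loc (chart ⊥ M g) Ot ≤ W := (loc_le hD).trans hOW
  refine ⟨loc (chart ⊥ M g) Ot, ⟨g, hg, hgu.2.1, isPoint_loc hD hL⟩, hOW',
    le_antisymm (fun y hy => ?_) fun y hy => ?_⟩
  · obtain ⟨x, hx, rfl⟩ := (mem_img π hOW').1 hy
    exact ((hOt x).1 (loc_le hD hx)).2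
  · have h1 : chart ⊥ (pm π M) (pe π g) ≤ img π (chart ⊥ M g) := by
      refine chart_le bot_le fun m' hm' => ?_
      obtain ⟨m, hm, rfl⟩ := (mem_pm π hM).1 hm'
      rw [← pe_div π (hM m hm) hgu]
      exact pe_mem_img π hDW (div_mem_chart _ _ hm)
    obtain ⟨a', ha', b', hb', hu, rfl⟩ := hP.le_loc hy
    obtain ⟨a, ha, rfl⟩ := (mem_img π hDW).1 (h1 ha')
    obtain ⟨b, hb, rfl⟩ := (mem_img π hDW).1 (h1 hb')
    have hb2 := hU b (hDW hb) hu
    exact (mem_img π hOW').2 ⟨a / b, ⟨a, ha, b, hb, hb2, rfl⟩, pe_div π (hDW ha) (hb2.mono hOW)⟩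

lemma pe_mem_span (hO : O ≤ W) {S : Set L} (hS : ∀ s ∈ S, s ∈ O) (hx : x ∈ Submodule.span O S) :
    pe π x ∈ Submodule.span (img π O) (pe π '' S) := by
  induction hx using Submodule.span_induction with
  | mem x hx => exact Submodule.subset_span ⟨x, hx, rfl⟩
  | zero => rw [pe_zero]; exact zero_mem _
  | add a b ha' hb' ha hb =>
    rw [pe_add π (hO (mem_of_mem_span hS ha')) (hO (mem_of_mem_span hS hb'))]
    exact add_mem ha hb
  | smul c a ha' ha =>
    change pe π ((c : L) * a) ∈ _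
    rw [pe_mul π (hO c.2) (hO (mem_of_mem_span hS ha'))]
    exact mul_mem_span (pe_mem_img π hO c.2) ha

lemma exists_of_mem_span (hO : O ≤ W) {S : Set L} (hS : ∀ s ∈ S, s ∈ O)
    (hy : y ∈ Submodule.span (img π O) (pe π '' S)) : ∃ x ∈ Submodule.span O S, pe π x = y := by
  induction hy using Submodule.span_induction with
  | mem y hy =>
    obtain ⟨x, hx, rfl⟩ := hy
    exact ⟨x, Submodule.subset_span hx, rfl⟩
  | zero => exact ⟨0, zero_mem _, pe_zero π⟩
  | add a b _ _ ha hb =>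
    obtain ⟨x, hx, rfl⟩ := ha
    obtain ⟨y, hy, rfl⟩ := hb
    exact ⟨x + y, add_mem hx hy,
      pe_add π (hO (mem_of_mem_span hS hx)) (hO (mem_of_mem_span hS hy))⟩
  | smul c a _ ha =>
    obtain ⟨x, hx, rfl⟩ := ha
    obtain ⟨z, hz, e⟩ := (mem_img π hO).1 c.2
    refine ⟨z * x, mul_mem_span hz hx, ?_⟩
    rw [pe_mul π (hO hz) (hO (mem_of_mem_span hS hx)), e]
    rfl

/-- Regular crossings pass to the quotient by one of the equations. -/
lemma rc_img {ι : Type} (hO : O ≤ W) {u : ι → L} {f : L} (hu : ∀ ρ, Un W (u ρ))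
    (h : RC O fun o : Option ι => o.elim f u)
    (hk : ∀ x ∈ O, pe π x = 0 ↔ x ∈ Submodule.span O {f}) :
    RC (img π O) fun ρ => pe π (u ρ) := by
  have huO : ∀ ρ, u ρ ∈ O := fun ρ => (h.1 (some ρ)).1
  have hf : f ∈ O := (h.1 none).1
  refine ⟨fun ρ => ⟨pe_mem_img π hO (huO ρ), pe_ne π (hu ρ)⟩, fun τ ρ hρ z' hz' e => ?_⟩
  have hS : ∀ s ∈ u '' τ, s ∈ O := by rintro _ ⟨ρ, _, rfl⟩; exact huO ρ
  have h1 : (fun ρ => pe π (u ρ)) '' τ = pe π '' (u '' τ) := (Set.image_image _ _ _).symm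
  rw [h1] at e ⊢
  obtain ⟨z, hz, rfl⟩ := (mem_img π hO).1 hz'
  obtain ⟨x, hx, ex⟩ := exists_of_mem_span π hO hS e
  have hxO := mem_of_mem_span hS hx
  have h2 : u ρ * z - x ∈ Submodule.span O {f} := by
    refine (hk _ (sub_mem (mul_mem (huO ρ) hz) hxO)).1 ?_
    rw [pe_sub π (hO (mul_mem (huO ρ) hz)) (hO hxO), pe_mul π (hO (huO ρ)) (hO hz), ex, sub_self]
  have h3 : (fun o : Option ι => o.elim f u) '' insert none (some '' τ) = insert f (u '' τ) := by
    rw [Set.image_insert_eq, Set.image_image]; rfl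
  have h4 := h.2 (insert none (some '' τ)) (some ρ) (by simpa using hρ) z hz
  rw [h3] at h4
  obtain ⟨t, ht, et⟩ := mem_span_one.1 h2
  obtain ⟨t', ht', x', hx', rfl⟩ := mem_span_ins.1 (h4 (mem_span_ins.2 ⟨t, ht, x, hx, by
    rw [← et]; simp⟩))
  rw [pe_add π (hO (mul_mem hf ht')) (hO (mem_of_mem_span hS hx')),
    (hk _ (mul_mem hf ht')).2 (mem_span_one.2 ⟨t', ht', rfl⟩), zero_add]
  exact pe_mem_span π hO hS hx'

omit π in
lemma tor_clear {ι : Type} [Fintype ι] {u : ι → L} (hu : ∀ ρ, u ρ ∈ O ∧ u ρ ≠ 0)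
    (hx : x ∈ tor O u) : ∃ n : ℕ, (∏ ρ, u ρ) ^ n * x ∈ O := by
  classical
  have hv : ∏ ρ, u ρ ∈ O := prod_mem fun ρ _ => (hu ρ).1
  let Z : Subalgebra k L :=
    { carrier := {x | ∃ n : ℕ, (∏ ρ, u ρ) ^ n * x ∈ O}
      mul_mem' := by
        rintro a b ⟨n, hn⟩ ⟨m, hm⟩
        refine ⟨n + m, ?_⟩
        rw [pow_add, mul_mul_mul_comm]
        exact mul_mem hn hm
      add_mem' := by
        rintro a b ⟨n, hn⟩ ⟨m, hm⟩
        refine ⟨n + m, ?_⟩
        have := add_mem (mul_mem (pow_mem hv m) hn) (mul_mem (pow_mem hv n) hm)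
        convert this using 1
        ring
      algebraMap_mem' := fun r => ⟨0, by simp⟩ }
  refine tor_le (Z := Z) (fun z hz => ⟨0, by simpa using hz⟩) (fun ρ => ⟨1, ?_⟩) hx
  rw [pow_one, ← Finset.prod_erase_mul _ _ (Finset.mem_univ ρ), mul_inv_cancel_right₀ (hu ρ).2]
  exact prod_mem fun ρ _ => (hu ρ).1

omit π in
lemma exists_map {R : Type} [CommRing R] (φ : R →+* L) {P : L[X]}
    (hP : ∀ n, P.coeff n ∈ Set.range φ) : ∃ Q : R[X], Q.map φ = P :=
  (mem_lifts _).1 ((lifts_iff_coeff_lifts _).2 hP)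

omit π in
lemma coeff_divByMonic_mem {P G : L[X]} (hP : ∀ n, P.coeff n ∈ O) (hG : ∀ n, G.coeff n ∈ O)
    (hm : G.Monic) (n : ℕ) : (P /ₘ G).coeff n ∈ O := by
  obtain ⟨P1, rfl⟩ := exists_map O.val.toRingHom fun n => ⟨⟨_, hP n⟩, rfl⟩
  obtain ⟨G1, rfl⟩ := exists_map O.val.toRingHom fun n => ⟨⟨_, hG n⟩, rfl⟩
  have h1 : G1.Monic := monic_of_injective Subtype.val_injective hm
  rw [← map_divByMonic _ h1, coeff_map]
  exact ((P1 /ₘ G1).coeff n).2

/-- The kernel of `π` on a point is generated by the strict transform of `F`. -/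
lemma ker_eq {ι : Type} [Fintype ι] {K₀ : IntermediateField k L} {Y : L} {F : K₀[X]}
    {u : ι → L} {a : ι → ℤ} (hO : O ≤ W) (hu : ∀ ρ, Un W (u ρ)) (hm : F.Monic)
    (hπ : ∀ w : W, π w ≠ 0 → Un W w) (hF : ∀ P : K₀[X], ¬ Un W (aeval Y P) ↔ F ∣ P)
    (hc : ∀ n, F.coeff n = 0 ∨ LMon O u (F.coeff n)) (hY : LMon O u Y)
    (h : RC O fun o : Option ι => o.elim (aeval Y F / mn u a) u)
    (hl : O ≤ loc (adj (K₀.toSubalgebra ⊓ tor O u) Y) (tor O u)) (hx : x ∈ O) :
    pe π x = 0 ↔ x ∈ Submodule.span O {aeval Y F / mn u a} := by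
  have huO : ∀ ρ, u ρ ∈ O ∧ u ρ ≠ 0 := fun ρ => h.1 (some ρ)
  have hf : aeval Y F / mn u a ∈ O := (h.1 none).1
  have hmn : Un W (mn u a) := mn_un fun ρ h => (h (hu ρ)).elim
  have hT : tor O u ≤ W := tor_le hO fun ρ => (hu ρ).2.2
  have hYT : Y ∈ tor O u := (hY.un_tor huO).1
  constructor
  · intro h0
    obtain ⟨p, hp, q, hq, hqu, rfl⟩ := hl hx
    have hpT : p ∈ tor O u := adj_le inf_le_right hYT hp
    have hp0 : ¬ Un W p := fun hpu => by
      rw [pe_div π (hT hpT) (hqu.mono hT)] at h0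
      exact div_ne_zero (pe_ne π hpu) (pe_ne π (hqu.mono hT)) h0
    obtain ⟨P, hP, rfl⟩ := mem_adj_iff.1 hp
    obtain ⟨P1, rfl⟩ := exists_map (algebraMap K₀ L) (P := P) fun n => ⟨⟨_, (hP n).1⟩, rfl⟩
    rw [eval_map_algebraMap] at hp0
    have hd : F.map (algebraMap K₀ L) ∣ P1.map (algebraMap K₀ L) :=
      Polynomial.map_dvd _ ((hF P1).1 hp0)
    have hFT : ∀ n, (F.map (algebraMap K₀ L)).coeff n ∈ tor O u := fun n => by
      rw [coeff_map]
      rcases hc n with e | e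
      · rw [e, map_zero]; exact zero_mem _
      · exact (e.un_tor huO).1
    have hQ := coeff_divByMonic_mem (fun n => (hP n).2) hFT (hm.map _)
    have e1 := modByMonic_add_div (P1.map (algebraMap K₀ L)) (F.map (algebraMap K₀ L))
    rw [(modByMonic_eq_zero_iff_dvd (hm.map _)).2 hd, zero_add] at e1
    have e2 := congrArg (eval Y) e1
    rw [eval_mul, eval_map_algebraMap] at e2
    obtain ⟨n, hn⟩ := tor_clear huO (mul_mem (mul_mem (un_tor_mn huO a).1 (eval_mem hQ hYT))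
      hqu.2.2)
    have hz : NZD O {aeval Y F / mn u a} ((∏ ρ, u ρ) ^ n) := by
      refine (NZD.prod _ _ fun ρ _ => ⟨(huO ρ).1, ?_⟩).pow (prod_mem fun ρ _ => (huO ρ).1) n
      simpa using h.2 {none} (some ρ) (by simp)
    refine hz _ hx (mem_span_one.2 ⟨_, hn, ?_⟩)
    have := hmn.2.1
    rw [← e2]
    field_simp
  · intro h0
    obtain ⟨z, hz, rfl⟩ := mem_span_one.1 h0
    have h1 : aeval Y F ∈ W := by
      have := mul_mem (hO hf) hmn.1
      rwa [div_mul_cancel₀ _ hmn.2.1] at this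
    have h2 : pe π (aeval Y F) = 0 := by
      by_contra h3
      exact (hF F).2 dvd_rfl (hπ ⟨_, h1⟩ (by rwa [← pe_eq π h1]))
    rw [pe_mul π (hO hf) (hO hz), pe_div π h1 hmn, h2, zero_div, zero_mul]

end Transfer

open Transfer

theorem transfer_of (nzd : NzdStmt k L) (alg : AlgStmt k L) : TransferStmt k L := by
  intro s K₀ W Y N F π a hI _ _ hm hπ hF hc hY hD
  have hg := hI.good
  have hex : ∀ O' : Subalgebra k L, ∃ O, Pt ⊥ (pm π s.M) O' → s.P O ∧ O ≤ W ∧ img π O = O' := by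
    intro O'
    by_cases h : Pt ⊥ (pm π s.M) O'
    · obtain ⟨O, hO⟩ := exists_lift π hπ hg.primM.2.1 h
      exact ⟨O, fun _ => hO⟩
    · exact ⟨⊥, fun h' => (h h').elim⟩
  choose lift hlift using hex
  have hu : ∀ O, s.P O → O ≤ W → ∀ ρ, Un W (s.U O ρ) := fun O hO hW ρ =>
    rep_un (hg.rep O hO ρ) (hg.primA ρ) (hg.primB ρ) hW
  have hrc : ∀ O, s.P O →
      RC O fun o : Option s.ι => o.elim (aeval Y F / mn (s.U O) a) (s.U O) := fun O hO =>
    nzd.add _ O _ _ (alg.noeth O (hg.lci O hO)).1 (alg.noeth O (hg.lci O hO)).2 (hg.rc O hO)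
      (hD O hO).1 (div_ne_zero (hD O hO).2.1 (mn_ne_zero (hg.ne hO) a)) (hD O hO).2.2
  have hk : ∀ O, s.P O → O ≤ W → ∀ x ∈ O,
      pe π x = 0 ↔ x ∈ Submodule.span O {aeval Y F / mn (s.U O) a} := fun O hO hW x hx =>
    ker_eq π hW (hu O hO hW) hm hπ hF (fun n => (hc n).imp id fun h => h.lmon hO) (hY.lmon hO)
      (hrc O hO) (hI.lam O hO) hx
  refine ⟨⟨s.ι, pm π s.M, fun ρ => pm π (s.A ρ), fun ρ => pm π (s.B ρ),
    fun O' ρ => pe π (s.U (lift O') ρ)⟩, ⟨prim_pm π hg.primM, fun ρ => prim_pm π (hg.primA ρ),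
    fun ρ => prim_pm π (hg.primB ρ), fun O' h => ?_, fun O' h => ?_, fun O' h ρ => ?_⟩,
    fun w hw => ⟨?_, fun hw' O' h => ?_⟩⟩
  · obtain ⟨hO, hW, e⟩ := hlift O' h
    rw [← e]
    exact alg.quot W _ π _ (hg.lci _ hO) hW ((hrc _ hO).1 none).1 ((hrc _ hO).1 none).2
      fun w hw => by rw [← pe_coe]; exact hk _ hO hW w hw
  · obtain ⟨hO, hW, e⟩ := hlift O' h
    have := rc_img π hW (hu _ hO hW) (hrc _ hO) (hk _ hO hW)
    rwa [e] at this
  · obtain ⟨hO, hW, e⟩ := hlift O' h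
    have := rep_img π (hg.rep _ hO ρ) (hg.primA ρ) (hg.primB ρ) hW
    rwa [e] at this
  · rintro ⟨c, hc⟩
    refine ⟨c, fun O' h => ?_⟩
    obtain ⟨hO, hW, e⟩ := hlift O' h
    have := un_img π hW (hc _ hO)
    rwa [e, pe_div π w.2 (mn_un fun ρ h => (h (hu _ hO hW ρ)).elim), pe_mn π (hu _ hO hW),
      pe_coe] at this
  · obtain ⟨hO, hW, e⟩ := hlift O' h
    rw [← e, ← pe_coe, ← pe_inv π hw]
    exact (hw' _ hO).imp (pe_mem_img π hW) (pe_mem_img π hW)

end Pool.Agent.MP_19ffc6_ag.Lci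

end MrgPart6

-- ======== part 7: formerly Pool.Agent.MP_19ffc6_ag.Lci.Closure
section MrgPart7

/-! Module CLOSURE: finite sets of polynomials closed under coefficients of expansions. -/

namespace Pool.Agent.MP_19ffc6_ag.Lci

open Polynomial

namespace Closure

variable {F : Type} [Field F]

theorem exists_expansion {φ : F[X]} (hφ : 0 < φ.natDegree) (G : F[X]) :
    ∃ Q : F[X][X], (∀ n, (Q.coeff n).natDegree < φ.natDegree) ∧ Q.eval φ = G := by
  have hφ0 : φ ≠ 0 := by rintro rfl; simp at hφ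
  induction h : G.natDegree using Nat.strong_induction_on generalizing G with
  | _ d ih =>
    by_cases hd : G.natDegree < φ.natDegree
    · refine ⟨C G, fun n => ?_, eval_C⟩
      rw [coeff_C]
      split_ifs
      · exact hd
      · simpa using hφ
    · have hG : G ≠ 0 := by rintro rfl; exact hd (by simpa using hφ)
      have hlt : (G / φ).natDegree < d := by
        rw [← h]
        by_cases h0 : G / φ = 0
        · rw [h0, natDegree_zero]; omega
        · exact natDegree_lt_natDegree h0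
            (degree_div_lt hG (natDegree_pos_iff_degree_pos.1 hφ))
      obtain ⟨Q, hQ, hQe⟩ := ih _ hlt (G / φ) rfl
      refine ⟨X * Q + C (G % φ), fun n => ?_, ?_⟩
      · rcases n with _ | n
        · rw [coeff_add, mul_coeff_zero, coeff_X_zero, zero_mul, zero_add, coeff_C_zero]
          exact natDegree_mod_lt G hφ.ne'
        · rw [coeff_add, coeff_X_mul, coeff_C_succ, add_zero]
          exact hQ n
      · rw [eval_add, eval_mul, eval_X, eval_C, hQe]
        exact EuclideanDomain.div_add_mod G φ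

theorem exists_terms {φ G : F[X]} (hφ : 0 < φ.natDegree) (hG : G ≠ 0) :
    ∃ (T : Finset ℕ) (g : ℕ → F[X]), T.Nonempty ∧
      (∀ n ∈ T, g n ≠ 0 ∧ (g n).natDegree < φ.natDegree) ∧ G = ∑ n ∈ T, g n * φ ^ n := by
  obtain ⟨Q, hQ, hQe⟩ := exists_expansion hφ G
  refine ⟨Q.support, Q.coeff, ?_, fun n hn => ⟨mem_support_iff.1 hn, hQ n⟩, ?_⟩
  · rw [support_nonempty]
    rintro rfl
    exact hG (by simpa using hQe.symm)
  · rw [← hQe, eval_eq_sum, Polynomial.sum]

/-- Closedness for the polynomials `φ` of degree at least `m`. -/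
def Above (m : ℕ) (P : Finset F[X]) : Prop :=
  ∀ φ ∈ P, ∀ G ∈ P, m ≤ φ.natDegree → φ.natDegree ≤ G.natDegree →
    ∃ (T : Finset ℕ) (g : ℕ → F[X]), T.Nonempty ∧
      (∀ n ∈ T, g n ∈ P ∧ (g n).natDegree < φ.natDegree) ∧ G = ∑ n ∈ T, g n * φ ^ n

theorem step {m : ℕ} (hm : 0 < m) {P : Finset F[X]} (h0 : ∀ ψ ∈ P, ψ ≠ 0) (h : Above (m + 1) P) :
    ∃ P' : Finset F[X], P ⊆ P' ∧ (∀ ψ ∈ P', ψ ∈ P ∨ (ψ ≠ 0 ∧ ψ.natDegree < m)) ∧ Above m P' := by
  classical
  have key : ∀ x : F[X] × F[X], ∃ (T : Finset ℕ) (g : ℕ → F[X]),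
      (∀ n ∈ T, g n ≠ 0 ∧ (g n).natDegree < m) ∧
      (x.1.natDegree = m → x.2 ≠ 0 → T.Nonempty ∧ x.2 = ∑ n ∈ T, g n * x.1 ^ n) := by
    rintro ⟨φ, G⟩
    by_cases hx : φ.natDegree = m ∧ G ≠ 0
    · obtain ⟨T, g, h1, h2, h3⟩ := exists_terms (hx.1 ▸ hm : 0 < φ.natDegree) hx.2
      exact ⟨T, g, fun n hn => hx.1 ▸ h2 n hn, fun _ _ => ⟨h1, h3⟩⟩
    · exact ⟨∅, fun _ => 0, by simp, fun h1 h2 => (hx ⟨h1, h2⟩).elim⟩
  choose T g h1 h2 using key
  have hnew : ∀ ψ ∈ P ∪ (P ×ˢ P).biUnion fun x => (T x).image (g x),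
      ψ ∈ P ∨ (ψ ≠ 0 ∧ ψ.natDegree < m) := by
    intro ψ hψ
    rcases Finset.mem_union.1 hψ with hψ | hψ
    · exact Or.inl hψ
    · obtain ⟨x, -, hx⟩ := Finset.mem_biUnion.1 hψ
      obtain ⟨n, hn, rfl⟩ := Finset.mem_image.1 hx
      exact Or.inr (h1 x n hn)
  refine ⟨P ∪ (P ×ˢ P).biUnion fun x => (T x).image (g x), Finset.subset_union_left, hnew, ?_⟩
  intro φ hφ G hG hmφ hφG
  have hφP : φ ∈ P := (hnew φ hφ).resolve_right fun h => by omega
  have hGP : G ∈ P := (hnew G hG).resolve_right fun h => by omega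
  rcases hmφ.eq_or_lt with e | e
  · obtain ⟨h3, h4⟩ := h2 (φ, G) e.symm (h0 G hGP)
    refine ⟨T (φ, G), g (φ, G), h3, fun n hn => ⟨Finset.mem_union_right _ ?_, ?_⟩, h4⟩
    · exact Finset.mem_biUnion.2
        ⟨(φ, G), Finset.mk_mem_product hφP hGP, Finset.mem_image_of_mem _ hn⟩
    · exact e ▸ (h1 _ n hn).2
  · obtain ⟨T', g', h3, h4, h5⟩ := h φ hφP G hGP e hφG
    exact ⟨T', g', h3, fun n hn => ⟨Finset.mem_union_left _ (h4 n hn).1, (h4 n hn).2⟩, h5⟩

end Closure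

open Closure in
theorem closure : ClosureStmt := by
  intro F _ P₀ D hP₀
  have key : ∀ j, j ≤ D → ∃ P : Finset F[X], P₀ ⊆ P ∧
      (∀ ψ ∈ P, ψ ≠ 0 ∧ (ψ ∈ P₀ ∨ ψ.natDegree < D)) ∧ Above (D - j + 1) P := by
    intro j
    induction j with
    | zero =>
      refine fun _ => ⟨P₀, Finset.Subset.refl _, fun ψ hψ => ⟨(hP₀ ψ hψ).1, Or.inl hψ⟩, ?_⟩
      intro φ hφ G _ h1 _
      have := (hP₀ φ hφ).2
      omega
    | succ j ih =>
      intro hj
      obtain ⟨P, h1, h2, h3⟩ := ih (by omega)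
      obtain ⟨P', h4, h5, h6⟩ := step (m := D - j) (by omega) (fun ψ hψ => (h2 ψ hψ).1) h3
      refine ⟨P', h1.trans h4, fun ψ hψ => ?_, ?_⟩
      · rcases h5 ψ hψ with h | h
        · exact h2 ψ h
        · exact ⟨h.1, Or.inr (by omega)⟩
      · rwa [show D - (j + 1) + 1 = D - j by omega]
  obtain ⟨P, h1, h2, h3⟩ := key D le_rfl
  refine ⟨P, h1, h2, fun φ hφ G hG h4 h5 => h3 φ hφ G hG (by omega) h5⟩

end Pool.Agent.MP_19ffc6_ag.Lci

end MrgPart7

-- marker of a merged file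
example : 731051 + 889266 = 731051 + 889266 := rfl
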